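import Mathlib

/-!
# Definitions for the super-sparse dynamical Mordell-Lang theorem
-/

set_option autoImplicit false

namespace Pool.Agent.Helper33.SS

open MvPolynomial

/-- Super-sparse sets: every interval `[n, m]` with `m ≤ c A ^ n` has at most `R` elements. -/
def Sparse (T : Set ℕ) : Prop :=
  ∃ (A c : ℝ) (R : ℕ), 1 < A ∧ 0 < c ∧
    ∀ n m : ℕ, (m : ℝ) ≤ c * A ^ n → (T ∩ Set.Icc n m).ncard ≤ R

section
variable {K : Type*} [NormedField K]

/-- Functions whose `k`-th differences are bounded by a constant times `ρ ^ k`. -/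
def Adic (ρ : ℝ) (f : ℕ → K) : Prop := ∃ C : ℝ, ∀ k n : ℕ, ‖(fwdDiff 1)^[k] f n‖ ≤ C * ρ ^ k

/-- Asymptotic expansions to order `M` with respect to powers of `w ^ n`. -/
def HasExp (ρ : ℝ) (w : K) (M : ℕ) (a : ℕ → K) : Prop :=
  ∃ f : ℕ → ℕ → K, (∀ j, Adic ρ (f j)) ∧ ∃ C : ℝ, ∀ n,
    ‖a n - ∑ j ∈ Finset.range M, w ^ (j * n) * f j n‖ ≤ C * ‖w‖ ^ (M * n)

/-- The eigenvalues allowed in the recurrences. -/
def GoodEig (ρ : ℝ) (w : K) (μ : K) : Prop := μ = 0 ∨ ∃ (m : ℕ) (ν : K), ‖ν - 1‖ ≤ ρ ∧ μ = w ^ m * ν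

/-- Sequences which decay faster than every power of the gauge `γ`. -/
def Flat (γ : ℕ → ℝ) (a : ℕ → K) : Prop := ∀ e : ℕ, ∃ C : ℝ, ∀ n, ‖a n‖ ≤ C * γ n ^ e

end

/-- The square of the ideal generated by the variables. -/
noncomputable def Sq (σ K : Type*) [CommRing K] : Ideal (MvPolynomial σ K) :=
  (Ideal.span (Set.range (X : σ → MvPolynomial σ K))) ^ 2

section
variable {σ R : Type*} [CommRing R]

/-- A polynomial self-map. -/
noncomputable def ev (F : σ → MvPolynomial σ R) (x : σ → R) : σ → R := fun i => eval x (F i)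

/-- The zero set of a set of polynomials. -/
def InZ (V : Set (MvPolynomial σ R)) (x : σ → R) : Prop := ∀ g ∈ V, eval x g = 0

/-- The Jacobian matrix of a polynomial self-map. -/
noncomputable def jac (F : σ → MvPolynomial σ R) (x : σ → R) : Matrix σ σ R :=
  Matrix.of fun i j => eval x (pderiv j (F i))

/-- The Jacobian matrix of the `n`-th iterate of a polynomial self-map. -/
noncomputable def jprod [Fintype σ] [DecidableEq σ] (F : σ → MvPolynomial σ R) (x : σ → R) :
    ℕ → Matrix σ σ R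
  | 0 => 1
  | n + 1 => jac F ((ev F)^[n] x) * jprod F x n

/-- The `n`-th iterate as a tuple of polynomials. -/
noncomputable def itp (F : σ → MvPolynomial σ R) : ℕ → σ → MvPolynomial σ R
  | 0 => X
  | n + 1 => fun i => aeval (itp F n) (F i)

end

/-- The inclusion of the `p`-adic integers in the complex `p`-adic numbers. -/
noncomputable def io (p : ℕ) [Fact p.Prime] : ℤ_[p] →+* ℂ_[p] :=
  (algebraMap ℚ_[p] ℂ_[p]).comp PadicInt.Coe.ringHom

end Pool.Agent.Helper33.SS
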