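import Pool.Agent.Helper33.SS.Defs

/-!
# Iterates as tuples of polynomials (SS-12)
-/

set_option autoImplicit false

namespace Pool.Agent.Helper33.SS

open MvPolynomial

section
variable {R S : Type*} [CommRing R] [CommRing S] {σ : Type*}

theorem eval_aeval_aux {τ : Type*} (g : σ → MvPolynomial τ R) (x : τ → R) (p : MvPolynomial σ R) :
    eval x (aeval g p) = eval (fun j => eval x (g j)) p := by
  induction p using MvPolynomial.induction_on with
  | C a => simp
  | add p q hp hq => simp only [map_add, hp, hq]
  | mul_X p i hp => simp only [map_mul, hp, aeval_X, eval_X]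

theorem map_aeval_aux {τ : Type*} (φ : R →+* S) (g : σ → MvPolynomial τ R)
    (p : MvPolynomial σ R) :
    MvPolynomial.map φ (aeval g p)
      = aeval (fun j => MvPolynomial.map φ (g j)) (MvPolynomial.map φ p) := by
  induction p using MvPolynomial.induction_on with
  | C a => simp [MvPolynomial.algebraMap_eq]
  | add p q hp hq => simp only [map_add, hp, hq]
  | mul_X p i hp => simp only [map_mul, hp, aeval_X, MvPolynomial.map_X]

theorem eval_map_aux (φ : R →+* S) (x : σ → R) (p : MvPolynomial σ R) :
    eval (fun i => φ (x i)) (MvPolynomial.map φ p) = φ (eval x p) := by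
  induction p using MvPolynomial.induction_on with
  | C a => simp
  | add p q hp hq => simp only [map_add, hp, hq]
  | mul_X p i hp => simp only [map_mul, hp, MvPolynomial.map_X, eval_X]

theorem ev_itp (F : σ → MvPolynomial σ R) (n : ℕ) (x : σ → R) :
    ev (itp F n) x = (ev F)^[n] x := by
  induction n with
  | zero =>
    funext i
    simp [ev, itp]
  | succ n ih =>
    rw [Function.iterate_succ_apply', ← ih]
    funext i
    simp only [ev, itp]
    rw [eval_aeval_aux]
    rfl

theorem itp_homogeneous {F : σ → MvPolynomial σ R} {d : ℕ} (hF : ∀ i, (F i).IsHomogeneous d)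
    (n : ℕ) (i : σ) : (itp F n i).IsHomogeneous (d ^ n) := by
  induction n generalizing i with
  | zero => simpa [itp] using isHomogeneous_X R i
  | succ n ih =>
    have := (hF i).aeval (itp F n) ih
    rw [pow_succ]
    exact this

theorem map_itp (φ : R →+* S) (F : σ → MvPolynomial σ R) (n : ℕ) (i : σ) :
    MvPolynomial.map φ (itp F n i) = itp (fun j => MvPolynomial.map φ (F j)) n i := by
  induction n generalizing i with
  | zero => simp [itp]
  | succ n ih =>
    simp only [itp]
    rw [map_aeval_aux]
    congr 2
    funext j
    exact ih j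

theorem ev_map (φ : R →+* S) (F : σ → MvPolynomial σ R) (x : σ → R) :
    ev (fun j => MvPolynomial.map φ (F j)) (fun i => φ (x i)) = fun i => φ (ev F x i) := by
  funext i
  exact eval_map_aux φ x (F i)

theorem ev_iterate_map (φ : R →+* S) (F : σ → MvPolynomial σ R) (n : ℕ) (x : σ → R) :
    (ev (fun j => MvPolynomial.map φ (F j)))^[n] (fun i => φ (x i))
      = fun i => φ ((ev F)^[n] x i) := by
  induction n with
  | zero => rfl
  | succ n ih =>
    rw [Function.iterate_succ_apply', ih, ev_map, Function.iterate_succ_apply']

/-- Euler's relation -/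
theorem jac_mulVec_self [Fintype σ] {G : σ → MvPolynomial σ R} {d : ℕ}
    (hG : ∀ i, (G i).IsHomogeneous d) (x : σ → R) (i : σ) :
    ∑ j, jac G x i j * x j = d * eval x (G i) := by
  have h := (hG i).sum_X_mul_pderiv
  have h2 := congrArg (eval x) h
  rw [map_sum, map_nsmul, nsmul_eq_mul] at h2
  rw [← h2]
  refine Finset.sum_congr rfl (fun j _ => ?_)
  simp only [jac, Matrix.of_apply, map_mul, eval_X]
  ring

theorem jac_map (φ : R →+* S) (F : σ → MvPolynomial σ R) (x : σ → R) :
    jac (fun j => MvPolynomial.map φ (F j)) (fun i => φ (x i)) = (jac F x).map φ := by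
  ext i j
  simp only [jac, Matrix.of_apply, Matrix.map_apply]
  rw [pderiv_map, eval_map_aux]

end

section
variable {R S : Type*} [CommRing R] [CommRing S] {σ : Type*} [Fintype σ] [DecidableEq σ]

theorem jprod_map (φ : R →+* S) (F : σ → MvPolynomial σ R) (x : σ → R) (n : ℕ) :
    jprod (fun j => MvPolynomial.map φ (F j)) (fun i => φ (x i)) n = (jprod F x n).map φ := by
  induction n with
  | zero =>
    simp only [jprod]
    ext i j
    by_cases h : i = j
    · subst h; simp
    · simp [Matrix.one_apply_ne h]
  | succ n ih =>
    simp only [jprod]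
    rw [ih, ev_iterate_map, jac_map, Matrix.map_mul]

omit [DecidableEq σ] in
theorem pderiv_aeval_aux (g : σ → MvPolynomial σ R) (x : σ → R) (j : σ) (p : MvPolynomial σ R) :
    eval x (pderiv j (aeval g p))
      = ∑ k, eval (fun l => eval x (g l)) (pderiv k p) * eval x (pderiv j (g k)) := by
  classical
  induction p using MvPolynomial.induction_on with
  | C a => simp [MvPolynomial.algebraMap_eq]
  | add p q hp hq =>
    simp only [map_add, hp, hq, add_mul, Finset.sum_add_distrib]
  | mul_X p i hp =>
    rw [map_mul, aeval_X, Derivation.leibniz]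
    simp only [smul_eq_mul, map_add, map_mul, hp, Derivation.leibniz, eval_X, add_mul,
      Finset.sum_add_distrib]
    rw [eval_aeval_aux]
    have h1 : ∑ k, eval (fun l => eval x (g l)) p * eval (fun l => eval x (g l)) (pderiv k (X i))
        * eval x (pderiv j (g k)) = eval (fun l => eval x (g l)) p * eval x (pderiv j (g i)) := by
      rw [Finset.sum_eq_single i]
      · simp
      · intro k _ hk
        rw [pderiv_X_of_ne (Ne.symm hk)]
        simp
      · simp
    rw [h1, Finset.mul_sum]
    congr 1
    refine Finset.sum_congr rfl (fun k _ => ?_)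
    ring

/-- the chain rule -/
theorem jac_itp (F : σ → MvPolynomial σ R) (n : ℕ) (x : σ → R) :
    jac (itp F n) x = jprod F x n := by
  induction n with
  | zero =>
    ext i j
    simp only [jac, itp, jprod, Matrix.of_apply]
    by_cases h : i = j
    · subst h; simp
    · rw [pderiv_X_of_ne h]; simp [Matrix.one_apply_ne h]
  | succ n ih =>
    simp only [jprod]
    rw [← ih]
    ext i j
    simp only [jac, itp, Matrix.of_apply, Matrix.mul_apply]
    rw [pderiv_aeval_aux]
    have : (fun l => eval x (itp F n l)) = (ev F)^[n] x := by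
      rw [← ev_itp]
      rfl
    rw [this]

end

end Pool.Agent.Helper33.SS
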