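import Pool.Agent.Helper33.SS.Defs

/-!
# Closed sets of dimension at most one (SS-19)
-/

set_option autoImplicit false

namespace Pool.Agent.Helper33.SS

open MvPolynomial

theorem hom_eval {σ : Type} {g : MvPolynomial σ ℂ} {e : ℕ} (hg : g.IsHomogeneous e)
    (b : σ → ℂ) (c : ℂ) : eval (fun i => b i * c) g = c ^ e * eval b g := by
  classical
  rw [eval_eq, eval_eq, Finset.mul_sum]
  refine Finset.sum_congr rfl fun m hm => ?_
  have h1 : (Finsupp.weight 1) m = e := hg (mem_support_iff.1 hm)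
  have h2 : ∑ i ∈ m.support, m i = e := by
    rw [← h1, Finsupp.weight_apply]
    simp [Finsupp.sum]
  simp_rw [mul_pow]
  rw [Finset.prod_mul_distrib, Finset.prod_pow_eq_pow_sum, h2]
  ring

/-- The homomorphism restricting a polynomial to the line through `b`. -/
noncomputable def lineHom {σ : Type} (b : σ → ℂ) : MvPolynomial σ ℂ →+* Polynomial ℂ :=
  (aeval (fun i => Polynomial.C (b i) * Polynomial.X) : MvPolynomial σ ℂ →ₐ[ℂ] Polynomial ℂ).toRingHom

theorem lineHom_eval {σ : Type} (b : σ → ℂ) (c : ℂ) (g : MvPolynomial σ ℂ) :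
    (lineHom b g).eval c = eval (fun i => b i * c) g := by
  unfold lineHom
  induction g using MvPolynomial.induction_on with
  | C a => simp
  | add p q hp hq => simp at hp hq ⊢; rw [hp, hq]
  | mul_X p i hp =>
    simp only [map_mul, AlgHom.toRingHom_eq_coe, RingHom.coe_coe, aeval_X, Polynomial.eval_mul,
      Polynomial.eval_C, Polynomial.eval_X, eval_X] at hp ⊢
    rw [hp]

theorem lineHom_eq_zero {σ : Type} (b : σ → ℂ) (g : MvPolynomial σ ℂ) :
    lineHom b g = 0 ↔ ∀ c : ℂ, eval (fun i => b i * c) g = 0 := by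
  constructor
  · intro h c
    rw [← lineHom_eval, h]
    simp
  · intro h
    refine Polynomial.funext fun c => ?_
    rw [lineHom_eval, h c]
    simp

/-- The ideal of the line through `b`. -/
noncomputable def lineIdeal {σ : Type} (b : σ → ℂ) : Ideal (MvPolynomial σ ℂ) :=
  RingHom.ker (lineHom b)

theorem mem_lineIdeal {σ : Type} (b : σ → ℂ) (g : MvPolynomial σ ℂ) :
    g ∈ lineIdeal b ↔ ∀ c : ℂ, eval (fun i => b i * c) g = 0 := by
  unfold lineIdeal
  rw [RingHom.mem_ker, lineHom_eq_zero]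

theorem lineIdeal_prime {σ : Type} (b : σ → ℂ) : (lineIdeal b).IsPrime := by
  unfold lineIdeal
  exact RingHom.ker_isPrime _

theorem span_le_lineIdeal {σ : Type} {S : Set (MvPolynomial σ ℂ)}
    (hS : ∀ g ∈ S, ∃ e : ℕ, g.IsHomogeneous e) {b : σ → ℂ} (hb : InZ S b) :
    Ideal.span S ≤ lineIdeal b := by
  rw [Ideal.span_le]
  intro g hg
  obtain ⟨e, he⟩ := hS g hg
  show g ∈ lineIdeal b
  rw [mem_lineIdeal]
  intro c
  rw [hom_eval he, hb g hg, mul_zero]

theorem lineIdeal_le_point {σ : Type} (b : σ → ℂ) :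
    lineIdeal b ≤ RingHom.ker (eval b : MvPolynomial σ ℂ →+* ℂ) := by
  intro g hg
  rw [mem_lineIdeal] at hg
  have := hg 1
  simpa [RingHom.mem_ker] using this

theorem lineIdeal_lt_point {σ : Type} {b : σ → ℂ} (hb : b ≠ 0) :
    lineIdeal b < RingHom.ker (eval b : MvPolynomial σ ℂ →+* ℂ) := by
  refine lt_of_le_of_ne (lineIdeal_le_point b) fun h => ?_
  obtain ⟨j, hj⟩ := Function.ne_iff.1 hb
  have h1 : (X j - C (b j) : MvPolynomial σ ℂ) ∈ lineIdeal b := by
    rw [h, RingHom.mem_ker]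
    simp
  rw [mem_lineIdeal] at h1
  have h2 := h1 0
  simp at h2
  exact hj h2

theorem lineIdeal_inj {σ : Type} {b x : σ → ℂ} (hb : b ≠ 0) (h : lineIdeal b = lineIdeal x) :
    ∃ c : ℂ, x = c • b := by
  obtain ⟨j, hj⟩ := Function.ne_iff.1 hb
  have hj' : b j ≠ 0 := hj
  refine ⟨x j / b j, ?_⟩
  ext i
  have h1 : (X i * C (b j) - X j * C (b i) : MvPolynomial σ ℂ) ∈ lineIdeal x := by
    rw [← h, mem_lineIdeal]
    intro c
    simp
    ring
  rw [mem_lineIdeal] at h1
  have h2 := h1 1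
  simp at h2
  rw [Pi.smul_apply, smul_eq_mul, div_mul_eq_mul_div, eq_div_iff hj']
  linear_combination h2

/-- A chain of three primes over `I` bounds the dimension of the quotient from below. -/
theorem two_le_dim {R : Type*} [CommRing R] {I p q r : Ideal R} [hp : p.IsPrime] [hq : q.IsPrime]
    [hr : r.IsPrime] (h1 : I ≤ p) (h2 : p < q) (h3 : q < r) :
    (2 : WithBot ℕ∞) ≤ ringKrullDim (R ⧸ I) := by
  rw [ringKrullDim_quotient]
  let P : PrimeSpectrum.zeroLocus (R := R) (I : Set R) := ⟨⟨p, hp⟩, h1⟩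
  let Q : PrimeSpectrum.zeroLocus (R := R) (I : Set R) := ⟨⟨q, hq⟩, h1.trans h2.le⟩
  let T : PrimeSpectrum.zeroLocus (R := R) (I : Set R) := ⟨⟨r, hr⟩, h1.trans (h2.trans h3).le⟩
  have hPQ : P < Q := h2
  have hQT : Q < T := h3
  let s : LTSeries (PrimeSpectrum.zeroLocus (R := R) (I : Set R)) :=
    ((RelSeries.singleton _ P).snoc Q (by simpa using hPQ)).snoc T (by simpa using hQT)
  have hs : s.length = 2 := rfl
  have := Order.LTSeries.length_le_krullDim s
  rw [hs] at this
  simpa using this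

/-- A homogeneous ideal whose quotient has Krull dimension at most one has finitely many zeros
up to scaling. Proof: for a zero `b ≠ 0` the ideal of the line `ℂ b` is prime and not maximal, it
contains a minimal prime of `span S`, and equals it because of the dimension. -/
theorem finite_lines {σ : Type} [Finite σ] (S : Set (MvPolynomial σ ℂ))
    (hS : ∀ g ∈ S, ∃ e : ℕ, g.IsHomogeneous e)
    (hdim : ringKrullDim (MvPolynomial σ ℂ ⧸ Ideal.span S) ≤ 1) :
    ∃ B : Finset (σ → ℂ), ∀ x : σ → ℂ, x ≠ 0 → InZ S x → ∃ b ∈ B, ∃ c : ℂ, x = c • b := by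
  classical
  have hfin : (Ideal.span S).minimalPrimes.Finite :=
    Ideal.finite_minimalPrimes_of_isNoetherianRing _ _
  let f : Ideal (MvPolynomial σ ℂ) → (σ → ℂ) := fun p =>
    if h : ∃ b : σ → ℂ, b ≠ 0 ∧ p = lineIdeal b then h.choose else 0
  refine ⟨hfin.toFinset.image f, fun x hx hxS => ?_⟩
  have hprime := lineIdeal_prime x
  obtain ⟨p, hp, hpx⟩ := Ideal.exists_minimalPrimes_le (span_le_lineIdeal hS hxS)
  have hpp : p.IsPrime := hp.1.1
  have heq : p = lineIdeal x := by
    by_contra hne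
    have hlt : p < lineIdeal x := lt_of_le_of_ne hpx hne
    have : (RingHom.ker (eval x : MvPolynomial σ ℂ →+* ℂ)).IsPrime := RingHom.ker_isPrime _
    have h2 := two_le_dim hp.1.2 hlt (lineIdeal_lt_point hx)
    have h3 := h2.trans hdim
    exact absurd h3 (by decide)
  have hex : ∃ b : σ → ℂ, b ≠ 0 ∧ p = lineIdeal b := ⟨x, hx, heq⟩
  have hf : f p = hex.choose := dif_pos hex
  refine ⟨f p, Finset.mem_image_of_mem _ (hfin.mem_toFinset.2 hp), ?_⟩
  rw [hf]
  refine lineIdeal_inj hex.choose_spec.1 ?_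
  rw [← hex.choose_spec.2, heq]

/-- The iterates of a homogeneous tuple, as tuples of polynomials, are homogeneous. -/
theorem itp_homog {σ : Type} {d : ℕ} (F : σ → MvPolynomial σ ℂ)
    (hF : ∀ i, (F i).IsHomogeneous d) (n : ℕ) : ∀ i, (itp F n i).IsHomogeneous (d ^ n) := by
  induction n with
  | zero => intro i; simpa [itp] using isHomogeneous_X ℂ i
  | succ n ih =>
    intro i
    have := (hF i).aeval (itp F n) ih
    rw [pow_succ]
    exact this

theorem eval_itp' {σ : Type} (F : σ → MvPolynomial σ ℂ) (n : ℕ) (x : σ → ℂ) :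
    ∀ i, eval x (itp F n i) = (ev F)^[n] x i := by
  induction n with
  | zero => intro i; simp [itp]
  | succ n ih =>
    intro i
    rw [Function.iterate_succ_apply']
    show eval x (aeval (itp F n) (F i)) = eval ((ev F)^[n] x) (F i)
    have h1 : ((ev F)^[n] x) = fun j => eval x (itp F n j) := by
      ext j; rw [ih j]
    rw [h1]
    have h2 : ∀ g : MvPolynomial σ ℂ,
        eval x (aeval (itp F n) g) = eval (fun j => eval x (itp F n j)) g := by
      intro g
      induction g using MvPolynomial.induction_on with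
      | C a => simp
      | add p q hp hq => simp at hp hq ⊢; rw [hp, hq]
      | mul_X p i hp => rw [map_mul, map_mul, map_mul, hp, aeval_X, eval_X]
    exact h2 _

theorem eval_comp' {σ : Type} (F : σ → MvPolynomial σ ℂ) (n : ℕ) (x : σ → ℂ)
    (g : MvPolynomial σ ℂ) :
    eval x (aeval (itp F n) g) = eval ((ev F)^[n] x) g := by
  have h1 : ((ev F)^[n] x) = fun j => eval x (itp F n j) := by
    ext j; rw [eval_itp' F n x j]
  rw [h1]
  induction g using MvPolynomial.induction_on with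
  | C a => simp
  | add p q hp hq => simp at hp hq ⊢; rw [hp, hq]
  | mul_X p i hp => rw [map_mul, map_mul, map_mul, hp, aeval_X, eval_X]

attribute [local instance] MvPolynomial.gradedAlgebra in
/-- Minimal primes of an ideal generated by homogeneous elements are generated by their
homogeneous elements. -/
theorem span_homog_minimalPrime {σ : Type} {V : Set (MvPolynomial σ ℂ)}
    (hV : ∀ g ∈ V, ∃ e : ℕ, g.IsHomogeneous e) {p : Ideal (MvPolynomial σ ℂ)}
    (hp : p ∈ (Ideal.span V).minimalPrimes) :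
    Ideal.span {g : MvPolynomial σ ℂ | g ∈ p ∧ ∃ e : ℕ, g.IsHomogeneous e} = p := by
  have hpp : p.IsPrime := hp.1.1
  have hVp : Ideal.span V ≤ p := hp.1.2
  have hc := hpp.homogeneousCore (𝒜 := homogeneousSubmodule σ ℂ)
  have hle : (p.homogeneousCore (homogeneousSubmodule σ ℂ)).toIdeal ≤ p :=
    Ideal.toIdeal_homogeneousCore_le _ _
  have hVc : Ideal.span V ≤ (p.homogeneousCore (homogeneousSubmodule σ ℂ)).toIdeal := by
    rw [Ideal.span_le]
    intro g hg
    obtain ⟨e, he⟩ := hV g hg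
    exact Ideal.mem_homogeneousCore_of_homogeneous_of_mem
      ⟨e, (mem_homogeneousSubmodule e g).2 he⟩ (hVp (Ideal.subset_span hg))
  have heq : p ≤ (p.homogeneousCore (homogeneousSubmodule σ ℂ)).toIdeal := hp.2 ⟨hc, hVc⟩ hle
  refine le_antisymm (Ideal.span_le.2 fun g hg => hg.1) (heq.trans ?_)
  show Ideal.homogeneousCore' _ p ≤ _
  unfold Ideal.homogeneousCore'
  refine Ideal.span_mono ?_
  rintro _ ⟨⟨g, e, he⟩, hg, rfl⟩
  exact ⟨hg, e, (mem_homogeneousSubmodule e g).1 he⟩

/-- Adding an element outside a prime ideal lowers the dimension. -/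
theorem dim_add_le {R : Type*} [CommRing R] {p J : Ideal R} [hp : p.IsPrime] {h : R}
    (hpJ : p ≤ J) (hJ : h ∈ J) (hh : h ∉ p) (n : ℕ)
    (hdim : ringKrullDim (R ⧸ p) ≤ ((n + 1 : ℕ) : WithBot ℕ∞)) :
    ringKrullDim (R ⧸ J) ≤ (n : WithBot ℕ∞) := by
  have hne : Ideal.Quotient.mk p h ≠ 0 := by
    rw [Ne, Ideal.Quotient.eq_zero_iff_mem]
    exact hh
  have h1 := ringKrullDim_succ_le_of_surjective (Ideal.Quotient.factor hpJ)
    (Ideal.Quotient.factor_surjective hpJ) (mem_nonZeroDivisors_of_ne_zero hne)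
    (by rw [Ideal.Quotient.factor_mk, Ideal.Quotient.eq_zero_iff_mem]; exact hJ)
  have h2 := h1.trans hdim
  rw [Nat.cast_add, Nat.cast_one] at h2
  have h10 : (1 : WithBot ℕ∞) ≠ ⊥ := by decide
  have h11 : (1 : WithBot ℕ∞) ≠ ⊤ := by decide
  exact (WithBot.add_le_add_iff_right' h10 h11).1 h2

/-- A closed set of dimension at most one is a finite union of closed sets each of which is mapped
into itself by some iterate, or contains for each `k` only finitely many points whose whole orbit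
under the `k`-th iterate stays in it. Proof: take the homogeneous elements of the minimal primes
(which are homogeneous, `Ideal.IsPrime.homogeneousCore`). If `g ∘ F^k ∉ 𝔭` for some homogeneous
`g ∈ 𝔭`, then the quotient by `𝔭 + (g ∘ F^k)` has dimension at most one; use `finite_lines`. -/
theorem dim_split {σ : Type} [Finite σ] {d : ℕ} (F : σ → MvPolynomial σ ℂ)
    (hF : ∀ i, (F i).IsHomogeneous d) (V : Set (MvPolynomial σ ℂ))
    (hV : ∀ g ∈ V, ∃ e : ℕ, g.IsHomogeneous e)
    (hdim : ringKrullDim (MvPolynomial σ ℂ ⧸ Ideal.span V) ≤ 2) :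
    ∃ (r : ℕ) (W : Fin r → Set (MvPolynomial σ ℂ)),
      (∀ j, ∀ g ∈ W j, ∃ e : ℕ, g.IsHomogeneous e) ∧
      (∀ x, InZ V x ↔ ∃ j, InZ (W j) x) ∧
      ∀ j, (∃ k, 1 ≤ k ∧ ∀ x, InZ (W j) x → InZ (W j) ((ev F)^[k] x)) ∨
        ∀ k, 1 ≤ k → ∃ B : Finset (σ → ℂ), ∀ x : σ → ℂ, x ≠ 0 →
          (∀ n, InZ (W j) ((ev F)^[k * n] x)) → ∃ b ∈ B, ∃ c : ℂ, x = c • b := by
  classical
  have hfin : (Ideal.span V).minimalPrimes.Finite :=
    Ideal.finite_minimalPrimes_of_isNoetherianRing _ _
  let e := hfin.toFinset.equivFin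
  let P : Fin hfin.toFinset.card → Ideal (MvPolynomial σ ℂ) := fun j => (e.symm j).1
  have hP : ∀ j, P j ∈ (Ideal.span V).minimalPrimes := fun j =>
    hfin.mem_toFinset.1 (e.symm j).2
  have hPs : ∀ p ∈ (Ideal.span V).minimalPrimes, ∃ j, P j = p := by
    intro p hp
    refine ⟨e ⟨p, hfin.mem_toFinset.2 hp⟩, ?_⟩
    simp [P]
  refine ⟨hfin.toFinset.card, fun j => {g | g ∈ P j ∧ ∃ e : ℕ, g.IsHomogeneous e},
    fun j g hg => hg.2, fun x => ⟨fun hx => ?_, ?_⟩, fun j => ?_⟩
  · have hmax : (RingHom.ker (eval x : MvPolynomial σ ℂ →+* ℂ)).IsPrime := RingHom.ker_isPrime _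
    have hle : Ideal.span V ≤ RingHom.ker (eval x : MvPolynomial σ ℂ →+* ℂ) := by
      rw [Ideal.span_le]
      intro g hg
      exact hx g hg
    obtain ⟨p, hp, hpx⟩ := Ideal.exists_minimalPrimes_le hle
    obtain ⟨j, hj⟩ := hPs p hp
    refine ⟨j, fun g hg => ?_⟩
    exact hpx (hj ▸ hg.1)
  · rintro ⟨j, hj⟩ g hg
    exact hj g ⟨(hP j).1.2 (Ideal.subset_span hg), hV g hg⟩
  · by_cases hk : ∃ k, 1 ≤ k ∧ ∀ g ∈ P j, (∃ e : ℕ, g.IsHomogeneous e) →
        aeval (itp F k) g ∈ P j
    · left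
      obtain ⟨k, hk1, hk2⟩ := hk
      refine ⟨k, hk1, fun x hx g hg => ?_⟩
      rw [← eval_comp']
      obtain ⟨hgP, e', he'⟩ := hg
      exact hx _ ⟨hk2 g hgP ⟨e', he'⟩, _, he'.aeval _ (itp_homog F hF k)⟩
    · right
      intro k hk1
      push Not at hk
      obtain ⟨g, hgP, ⟨e', he'⟩, hg⟩ := hk k hk1
      have hpp : (P j).IsPrime := (hP j).1.1
      set h := aeval (itp F k) g with hh
      have hhom : h.IsHomogeneous (d ^ k * e') := he'.aeval _ (itp_homog F hF k)
      let S : Set (MvPolynomial σ ℂ) := {g | g ∈ P j ∧ ∃ e : ℕ, g.IsHomogeneous e} ∪ {h}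
      have hS : ∀ g ∈ S, ∃ e : ℕ, g.IsHomogeneous e := by
        rintro g (hg | hg)
        · exact hg.2
        · rw [Set.mem_singleton_iff] at hg
          rw [hg]
          exact ⟨_, hhom⟩
      have hPS : P j ≤ Ideal.span S := by
        conv_lhs => rw [← span_homog_minimalPrime hV (hP j)]
        exact Ideal.span_mono Set.subset_union_left
      have hd1 : ringKrullDim (MvPolynomial σ ℂ ⧸ P j) ≤ ((1 + 1 : ℕ) : WithBot ℕ∞) :=
        (ringKrullDim_le_of_surjective (Ideal.Quotient.factor (hP j).1.2)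
          (Ideal.Quotient.factor_surjective _)).trans (by simpa using hdim)
      have hd2 : ringKrullDim (MvPolynomial σ ℂ ⧸ Ideal.span S) ≤ 1 := by
        have := dim_add_le hPS (Ideal.subset_span (Set.mem_union_right _ rfl)) hg 1 hd1
        simpa using this
      obtain ⟨B, hB⟩ := finite_lines S hS hd2
      refine ⟨B, fun x hx hn => hB x hx ?_⟩
      rintro g' (hg' | hg')
      · have := hn 0
        rw [mul_zero, Function.iterate_zero, id] at this
        exact this g' hg'
      · rw [Set.mem_singleton_iff] at hg'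
        rw [hg', hh, eval_comp']
        have := hn 1
        rw [mul_one] at this
        exact this g ⟨hgP, e', he'⟩

end Pool.Agent.Helper33.SS
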