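import Pool.Agent.Helper33.SS.Over
import Pool.Agent.Helper33.SS.Dim
import Pool.Agent.Helper36.GapMain

/-!
# The super-sparse dynamical Mordell-Lang theorem
-/

set_option autoImplicit false

namespace Pool.Agent.Helper33.SS

open MvPolynomial Pool.Agent.Helper36

/-- finite unions of progressions up to super-sparse sets -/
def SGood (S : Set ℕ) : Prop := ∃ (P : Finset (ℕ × ℕ)) (T : Set ℕ), Sparse T ∧ S = APSet P ∪ T

theorem Sparse.empty : Sparse ∅ := Sparse.of_finite Set.finite_empty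

theorem SGood.of_AP {S : Set ℕ} (h : ∃ P, S = APSet P) : SGood S := by
  obtain ⟨P, hP⟩ := h
  exact ⟨P, ∅, Sparse.empty, by rw [hP, Set.union_empty]⟩

theorem SGood.of_sparse {S : Set ℕ} (h : Sparse S) : SGood S :=
  ⟨∅, S, h, by rw [APSet_empty, Set.empty_union]⟩

theorem SGood.union {S T : Set ℕ} (hS : SGood S) (hT : SGood T) : SGood (S ∪ T) := by
  obtain ⟨P, A, hA, rfl⟩ := hS
  obtain ⟨Q, B, hB, rfl⟩ := hT
  refine ⟨P ∪ Q, A ∪ B, hA.union hB, ?_⟩
  rw [APSet_union, Set.union_union_union_comm]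

theorem SGood.iUnion {r : ℕ} {S : Fin r → Set ℕ} (h : ∀ j, SGood (S j)) : SGood (⋃ j, S j) := by
  induction r with
  | zero =>
    rw [Set.iUnion_of_empty]
    exact SGood.of_sparse Sparse.empty
  | succ r ih =>
    have h1 : (⋃ j, S j) = S 0 ∪ ⋃ j : Fin r, S j.succ := by
      ext n
      simp only [Set.mem_iUnion, Set.mem_union]
      constructor
      · rintro ⟨j, hj⟩
        rcases Fin.eq_zero_or_eq_succ j with rfl | ⟨l, rfl⟩
        · exact Or.inl hj
        · exact Or.inr ⟨l, hj⟩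
      · rintro (h | ⟨l, hl⟩)
        · exact ⟨0, h⟩
        · exact ⟨l.succ, hl⟩
    rw [h1]
    exact (h 0).union (ih fun j => h j.succ)

theorem evc_smul {σ : Type} {F : σ → MvPolynomial σ ℂ} {d : ℕ}
    (hF : ∀ i, (F i).IsHomogeneous d) (c : ℂ) (x : σ → ℂ) (n : ℕ) :
    (ev F)^[n] (c • x) = c ^ (d ^ n) • (ev F)^[n] x := by
  rw [← ev_itp, ← ev_itp]
  funext i
  simp only [ev, Pi.smul_apply, smul_eq_mul]
  exact eval_smul_form (itp_homogeneous hF n i) c x

theorem inZ_smul {σ : Type} {V : Set (MvPolynomial σ ℂ)}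
    (hV : ∀ g ∈ V, ∃ e : ℕ, g.IsHomogeneous e) {c : ℂ} (hc : c ≠ 0) (x : σ → ℂ) :
    InZ V (c • x) ↔ InZ V x := by
  constructor
  · intro h g hg
    obtain ⟨e, he⟩ := hV g hg
    have := h g hg
    rw [eval_smul_form he] at this
    exact (mul_eq_zero.1 this).resolve_left (pow_ne_zero _ hc)
  · intro h g hg
    obtain ⟨e, he⟩ := hV g hg
    rw [eval_smul_form he, h g hg, mul_zero]

/-- The main theorem. -/
theorem main (N d : ℕ) (hd : 1 ≤ d)
    (F : Fin (N + 1) → MvPolynomial (Fin (N + 1)) ℂ) (hF : ∀ i, (F i).IsHomogeneous d)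
    (hnz : ∀ x : Fin (N + 1) → ℂ, (∀ i, eval x (F i) = 0) → x = 0)
    (E : Set (MvPolynomial (Fin (N + 1)) ℂ)) (hE : ∀ g ∈ E, ∃ e : ℕ, g.IsHomogeneous e)
    (hEinv : ∀ x : Fin (N + 1) → ℂ, x ≠ 0 → InZ E (ev F x) → InZ E x)
    (r : ℕ) (V : Fin r → Set (MvPolynomial (Fin (N + 1)) ℂ))
    (hV : ∀ j, ∀ g ∈ V j, ∃ e : ℕ, g.IsHomogeneous e)
    (hcase : ∀ j, (∃ k, 1 ≤ k ∧ ∀ x, x ≠ 0 → InZ (V j) x → InZ (V j) ((ev F)^[k] x)) ∨
      ((N ≤ 2 ∨ ringKrullDim (MvPolynomial (Fin (N + 1)) ℂ ⧸ Ideal.span (V j)) ≤ 2 ∨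
        ∀ k, 1 ≤ k → ∃ B : Finset (Fin (N + 1) → ℂ), ∀ x : Fin (N + 1) → ℂ, x ≠ 0 →
          ¬ InZ E x → (∀ n, InZ (V j) ((ev F)^[k * n] x)) → ∃ b ∈ B, ∃ c : ℂ, x = c • b) ∧
      ∀ x : Fin (N + 1) → ℂ, x ≠ 0 → ¬ InZ E x → InZ (V j) x → ∀ k, 1 ≤ k → ∀ c : ℂ,
        (ev F)^[k] x = c • x → N ≤ ((jprod F x k) ^ 2).rank))
    (a : Fin (N + 1) → ℂ) (ha : a ≠ 0) (haE : ¬ InZ E a) :
    SGood {n | ∃ j, InZ (V j) ((ev F)^[n] a)} := by
  have hev0 : ∀ x : Fin (N + 1) → ℂ, ev F x = 0 → x = 0 := fun x h => hnz x fun i => congrFun h i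
  have horb0 : ∀ n, (ev F)^[n] a ≠ 0 := by
    intro n
    induction n with
    | zero => exact ha
    | succ n ih =>
      rw [Function.iterate_succ_apply']
      exact fun h => ih (hev0 _ h)
  have hset : {n | ∃ j, InZ (V j) ((ev F)^[n] a)} = ⋃ j, {n | InZ (V j) ((ev F)^[n] a)} := by
    ext n
    simp
  rw [hset]
  refine SGood.iUnion fun j => ?_
  by_cases hper : ∃ n k, 1 ≤ k ∧ ∃ c : ℂ, (ev F)^[n + k] a = c • (ev F)^[n] a
  · -- preperiodic points
    obtain ⟨n₀, k, hk, c, hc⟩ := hper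
    refine SGood.of_AP (APSet_of_evClosed hk ((Set.finite_Iio n₀).subset ?_))
    rintro n ⟨hn1, hn2⟩
    by_contra hlt
    apply hn2
    have hle : n₀ ≤ n := not_lt.1 hlt
    obtain ⟨m, rfl⟩ := Nat.exists_eq_add_of_le hle
    have h1 : (ev F)^[n₀ + m + k] a = c ^ (d ^ m) • (ev F)^[n₀ + m] a := by
      rw [show n₀ + m + k = m + (n₀ + k) by ring, Function.iterate_add_apply, hc, evc_smul hF,
        ← Function.iterate_add_apply, add_comm m n₀]
    have hc0 : c ≠ 0 := by
      rintro rfl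
      exact horb0 (n₀ + k) (by rw [hc, zero_smul])
    show InZ (V j) ((ev F)^[n₀ + m + k] a)
    rw [h1, inZ_smul (hV j) (pow_ne_zero _ hc0)]
    exact hn1
  · push Not at hper
    have hnp : ∀ n k, 1 ≤ k → ∀ c : ℂ, (ev F)^[n + k] a ≠ c • (ev F)^[n] a := hper
    rcases hcase j with ⟨k, hk, hst⟩ | ⟨hsmall, hmild⟩
    · -- stable sets
      refine SGood.of_AP (APSet_of_evClosed hk (Set.finite_empty.subset ?_))
      rintro n ⟨hn1, hn2⟩
      apply hn2
      show InZ (V j) ((ev F)^[n + k] a)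
      rw [add_comm n k, Function.iterate_add_apply]
      exact hst _ (horb0 n) hn1
    · have hcard : Fintype.card (Fin (N + 1)) = N + 1 := Fintype.card_fin _
      -- the theorem for a set `W` inside `V j`
      have hone : ∀ W : Set (MvPolynomial (Fin (N + 1)) ℂ),
          (∀ g ∈ W, ∃ e : ℕ, g.IsHomogeneous e) → (∀ x, InZ W x → InZ (V j) x) →
          (∀ k, 1 ≤ k → ∃ B : Finset (Fin (N + 1) → ℂ), ∀ x : Fin (N + 1) → ℂ, x ≠ 0 →
            (∀ n, InZ W ((ev F)^[k * n] x)) → ¬ InZ E x → ∃ b ∈ B, ∃ c : ℂ, x = c • b) →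
          Sparse {n | InZ W ((ev F)^[n] a)} := by
        intro W hW hWV hB
        refine main_one F d hd hF hnz E hE hEinv W hW hB ?_ a ha haE hnp
        intro x hx h1 h2 k hk c hc
        rw [hcard]
        have := hmild x hx h2 (hWV x h1) k hk c hc
        omega
      by_cases hfew : ∀ k, 1 ≤ k → ∃ B : Finset (Fin (N + 1) → ℂ), ∀ x : Fin (N + 1) → ℂ, x ≠ 0 →
          ¬ InZ E x → (∀ n, InZ (V j) ((ev F)^[k * n] x)) → ∃ b ∈ B, ∃ c : ℂ, x = c • b
      · refine SGood.of_sparse (hone (V j) (hV j) (fun x h => h) fun k hk => ?_)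
        obtain ⟨B, hB⟩ := hfew k hk
        exact ⟨B, fun x hx h1 h2 => hB x hx h2 h1⟩
      · by_cases hzero : ∀ g ∈ V j, g = 0
        · -- the whole space
          refine SGood.of_AP (APSet_of_evClosed Nat.one_pos (Set.finite_empty.subset ?_))
          rintro n ⟨hn1, hn2⟩
          apply hn2
          intro g hg
          rw [hzero g hg, map_zero]
        · have hdim : ringKrullDim (MvPolynomial (Fin (N + 1)) ℂ ⧸ Ideal.span (V j)) ≤ 2 := by
            rcases hsmall with h | h | h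
            · push Not at hzero
              obtain ⟨g, hg, hg0⟩ := hzero
              exact krullDim_le_two h (V j) hg hg0
            · exact h
            · exact absurd h hfew
          obtain ⟨r', W, hW1, hW2, hW3⟩ := dim_split F hF (V j) (hV j) hdim
          have hset2 : {n | InZ (V j) ((ev F)^[n] a)} = ⋃ l, {n | InZ (W l) ((ev F)^[n] a)} := by
            ext n
            simp only [Set.mem_ofPred_eq, Set.mem_iUnion]
            exact hW2 _
          rw [hset2]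
          refine SGood.iUnion fun l => ?_
          rcases hW3 l with ⟨k, hk, hst⟩ | hB
          · refine SGood.of_AP (APSet_of_evClosed hk (Set.finite_empty.subset ?_))
            rintro n ⟨hn1, hn2⟩
            apply hn2
            show InZ (W l) ((ev F)^[n + k] a)
            rw [add_comm n k, Function.iterate_add_apply]
            exact hst _ hn1
          · refine SGood.of_sparse (hone (W l) (hW1 l) (fun x h => (hW2 x).2 ⟨l, h⟩) fun k hk => ?_)
            obtain ⟨B, hB⟩ := hB k hk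
            exact ⟨B, fun x hx h1 _ => hB x hx h1⟩

end Pool.Agent.Helper33.SS
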