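import Pool.Agent.Helper33.SS.Defs

/-!
# Extending embeddings to isomorphisms of the complex numbers with `ℂ_[p]` (SS-18)
-/

set_option autoImplicit false

namespace Pool.Agent.Helper33.SS

open Cardinal

/-- Any field with a dense subset of cardinality at most the continuum, in a metrizable topology,
has cardinality at most the continuum. -/
theorem card_completion_le (A : Type) [PseudoMetricSpace A] (h : #A ≤ Cardinal.continuum) :
    #(UniformSpace.Completion A) ≤ Cardinal.continuum := by
  have key : ∀ x : UniformSpace.Completion A, ∃ u : ℕ → A,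
      Filter.Tendsto (fun n => ((u n : A) : UniformSpace.Completion A)) Filter.atTop (nhds x) := by
    intro x
    have hx : x ∈ closure (Set.range ((↑) : A → UniformSpace.Completion A)) :=
      UniformSpace.Completion.denseRange_coe x
    obtain ⟨u, hu, hux⟩ := mem_closure_iff_seq_limit.1 hx
    choose v hv using hu
    exact ⟨v, by simpa [hv] using hux⟩
  choose u hu using key
  have hinj : Function.Injective u := by
    intro x y hxy
    have h1 := hu x
    rw [hxy] at h1
    exact tendsto_nhds_unique h1 (hu y)
  calc #(UniformSpace.Completion A) ≤ #(ℕ → A) := mk_le_of_injective hinj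
    _ = #A ^ ℵ₀ := by simp
    _ ≤ Cardinal.continuum ^ ℵ₀ := Cardinal.power_le_power_right h
    _ = Cardinal.continuum := Cardinal.continuum_power_aleph0

/-- `ℂ_[p]` has the cardinality of the continuum: `ℚ_[p]` is a quotient of a set of sequences of
rationals, its algebraic closure has the same cardinality, and each element of the completion is the
limit of a sequence. -/
theorem card_Cp (p : ℕ) [Fact p.Prime] : #ℂ_[p] = Cardinal.continuum := by
  apply le_antisymm
  · apply card_completion_le
    have h1 : #ℚ_[p] ≤ Cardinal.continuum := by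
      have h2 : #ℚ_[p] ≤ #(ℕ → ℚ) := by
        have h3 : #(CauSeq ℚ (padicNorm p)) ≤ #(ℕ → ℚ) := by
          refine mk_le_of_injective (f := fun f : CauSeq ℚ (padicNorm p) => (f : ℕ → ℚ)) ?_
          intro f g hfg
          exact Subtype.ext hfg
        refine le_trans ?_ h3
        exact mk_quotient_le
      refine h2.trans ?_
      have : #(ℕ → ℚ) = ℵ₀ ^ ℵ₀ := by simp
      rw [this, Cardinal.aleph0_power_aleph0]
    have h4 := Algebra.IsAlgebraic.cardinalMk_le_max ℚ_[p] (PadicAlgCl p)
    exact h4.trans (max_le h1 Cardinal.aleph0_le_continuum)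
  · exact continuum_le_cardinal_of_nontriviallyNormedField ℂ_[p]

/-- Two algebraically closed fields of the same uncountable cardinality over a countable field are
isomorphic over it. -/
theorem exists_algEquiv {K C D : Type} [Field K] [Field C] [Field D] [Algebra K C] [Algebra K D]
    [IsAlgClosed C] [IsAlgClosed D] (hK : #K ≤ ℵ₀) (hC : ℵ₀ < #C) (hCD : #C = #D) :
    ∃ s : C ≃+* D, ∀ c : K, s (algebraMap K C c) = algebraMap K D c := by
  obtain ⟨s, hs⟩ := exists_isTranscendenceBasis K C
  obtain ⟨t, ht⟩ := exists_isTranscendenceBasis K D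
  have h1 : #C = #s := by
    simpa using IsAlgClosed.cardinal_eq_cardinal_transcendence_basis_of_aleph0_lt _ hs hK hC
  have h2 : #D = #t := by
    simpa using IsAlgClosed.cardinal_eq_cardinal_transcendence_basis_of_aleph0_lt _ ht hK
      (hCD ▸ hC)
  obtain ⟨e⟩ : Nonempty (s ≃ t) := Cardinal.eq.1 (by rw [← h1, ← h2, hCD])
  let := IsAlgClosed.isAlgClosure_of_transcendence_basis _ hs
  let := IsAlgClosed.isAlgClosure_of_transcendence_basis _ ht
  let f : Algebra.adjoin K (Set.range ((↑) : s → C)) ≃ₐ[K]
      Algebra.adjoin K (Set.range ((↑) : t → D)) :=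
    (hs.1.aevalEquiv.symm.trans (MvPolynomial.renameEquiv K e)).trans ht.1.aevalEquiv
  refine ⟨IsAlgClosure.equivOfEquiv C D f.toRingEquiv, fun c => ?_⟩
  have h3 := IsAlgClosure.equivOfEquiv_algebraMap C D f.toRingEquiv
    (algebraMap K (Algebra.adjoin K (Set.range ((↑) : s → C))) c)
  have h4 : f.toRingEquiv (algebraMap K (Algebra.adjoin K (Set.range ((↑) : s → C))) c) =
      algebraMap K (Algebra.adjoin K (Set.range ((↑) : t → D))) c := f.commutes c
  rw [h4] at h3
  exact h3

/-- An embedding of a countable subfield of `ℂ` into `ℚ_[p]` extends to an isomorphism of `ℂ` with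
`ℂ_[p]` (both are algebraically closed of the same transcendence degree over the subfield; see
`IsAlgClosed.equivOfTranscendenceBasis` and
`IsAlgClosed.cardinal_eq_cardinal_transcendence_basis_of_aleph0_lt`). -/
theorem exists_iso_extending (p : ℕ) [Fact p.Prime] (K : IntermediateField ℚ ℂ) [Countable K]
    (φ : K →+* ℚ_[p]) :
    ∃ s : ℂ ≃+* ℂ_[p], ∀ c : K, s (c : ℂ) = algebraMap ℚ_[p] ℂ_[p] (φ c) := by
  let : Algebra K ℂ_[p] := ((algebraMap ℚ_[p] ℂ_[p]).comp φ).toAlgebra
  have h1 : #ℂ = #ℂ_[p] := by rw [card_Cp, Cardinal.mk_complex]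
  have h2 : ℵ₀ < #ℂ := by rw [Cardinal.mk_complex]; exact Cardinal.aleph0_lt_continuum
  obtain ⟨s, hs⟩ := exists_algEquiv (K := K) (C := ℂ) (D := ℂ_[p]) (Cardinal.mk_le_aleph0) h2 h1
  exact ⟨s, fun c => hs c⟩

end Pool.Agent.Helper33.SS
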