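import Pool.Agent.Helper33.SS.Defs
import Pool.Agent.Helper38.Dml.Embed

/-!
# Cassels embedding with integrality (SS-17)
-/

set_option autoImplicit false

namespace Pool.Agent.Helper33.SS

open Polynomial Pool.Agent.Helper38.Dml

/-- Zeros in `ℚ_p` of a polynomial in one variable over a polynomial ring, specialised at
algebraically independent `p`-adic integers at which a given polynomial is a unit, for all large
primes `p` modulo which a suitable integral polynomial has a zero. -/
theorem root_int (r : ℕ) (g U V : Polynomial (MvPolynomial (Fin r) ℤ))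
    (E : MvPolynomial (Fin r) ℤ) (hE : E ≠ 0) (h : U * g + V * derivative g = C E)
    (hg : 0 < g.natDegree) :
    ∃ g₀ : ℤ[X], 0 < g₀.natDegree ∧ ∃ M : ℕ, ∀ p : ℕ, M < p → ∀ hp : p.Prime,
      (∃ n : ℤ, (p : ℤ) ∣ g₀.eval n) → haveI := Fact.mk hp;
      ∃ s : Fin r → ℤ_[p], AlgebraicIndependent ℤ (fun i => (s i : ℚ_[p])) ∧
        ‖MvPolynomial.eval₂Hom (Int.castRingHom ℤ_[p]) s E‖ = 1 ∧
        ∃ z : ℚ_[p], g.eval₂ ((PadicInt.Coe.ringHom (p := p)).comp
          (MvPolynomial.eval₂Hom (Int.castRingHom ℤ_[p]) s)) z = 0 := by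
  have hg0 : g ≠ 0 := by
    rintro rfl
    simp at hg
  have hDE : g.leadingCoeff * E ≠ 0 := mul_ne_zero (leadingCoeff_ne_zero.2 hg0) hE
  have hτ : ∃ τ : Fin r → ℤ, MvPolynomial.eval τ (g.leadingCoeff * E) ≠ 0 := by
    by_contra hcon
    push Not at hcon
    exact hDE (MvPolynomial.funext (fun τ => by rw [hcon τ, map_zero]))
  obtain ⟨τ, hτ⟩ := hτ
  rw [map_mul] at hτ
  have hD : MvPolynomial.eval τ g.leadingCoeff ≠ 0 := left_ne_zero_of_mul hτ
  have hEτ : MvPolynomial.eval τ E ≠ 0 := right_ne_zero_of_mul hτ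
  have hdeg : 0 < (g.map (MvPolynomial.eval τ)).natDegree := by
    rwa [Polynomial.natDegree_map_of_leadingCoeff_ne_zero _ hD]
  refine ⟨g.map (MvPolynomial.eval τ), hdeg, (MvPolynomial.eval τ E).natAbs, ?_⟩
  rintro p hpN hp ⟨n, hn⟩
  have := Fact.mk hp
  obtain ⟨s, hs, hsτ⟩ := exists_algebraicIndependent_near p r τ
  set θ : MvPolynomial (Fin r) ℤ →+* ℤ_[p] := MvPolynomial.eval₂Hom (Int.castRingHom ℤ_[p]) s
    with hθ
  have hθmod : (PadicInt.toZMod (p := p)).comp θ = (Int.castRingHom (ZMod p)).comp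
      (MvPolynomial.eval τ) := by
    apply MvPolynomial.ringHom_ext
    · intro c
      simp [hθ]
    · intro i
      simp [hθ, hsτ i]
  have hEp : ((MvPolynomial.eval τ E : ℤ) : ZMod p) ≠ 0 := by
    intro h3
    have h4 : (p : ℤ) ∣ MvPolynomial.eval τ E := (ZMod.intCast_zmod_eq_zero_iff_dvd _ _).1 h3
    have h5 : p ∣ (MvPolynomial.eval τ E).natAbs := Int.natCast_dvd.1 h4
    have h6 := Nat.le_of_dvd (Int.natAbs_pos.2 hEτ) h5
    omega
  have hnorm : ∀ x : ℤ_[p], PadicInt.toZMod x = 0 ↔ ‖x‖ < 1 := by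
    intro x
    rw [← RingHom.mem_ker, PadicInt.ker_toZMod, IsLocalRing.mem_maximalIdeal, PadicInt.mem_nonunits]
  have hE1 : ‖θ E‖ = 1 := by
    have h1 : PadicInt.toZMod (θ E) ≠ 0 := by
      have h2 := congrArg (fun f : MvPolynomial (Fin r) ℤ →+* ZMod p => f E) hθmod
      simp only [RingHom.comp_apply, eq_intCast] at h2
      rw [h2]
      exact hEp
    exact le_antisymm (PadicInt.norm_le_one _) (not_lt.1 (mt (hnorm _).2 h1))
  refine ⟨s, hs, hE1, ?_⟩
  set G : ℤ_[p][X] := g.map θ with hG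
  have hmod : ∀ q : Polynomial (MvPolynomial (Fin r) ℤ), PadicInt.toZMod ((q.map θ).eval (n : ℤ_[p]))
      = (((q.map (MvPolynomial.eval τ)).eval n : ℤ) : ZMod p) := by
    intro q
    rw [eval_map, eval_map, hom_eval₂, hθmod]
    have h1 := hom_eval₂ q (MvPolynomial.eval τ) (Int.castRingHom (ZMod p)) n
    simp only [eq_intCast] at h1
    rw [h1, map_intCast]
  have h1 : PadicInt.toZMod (G.eval (n : ℤ_[p])) = 0 := by
    rw [hG, hmod, ZMod.intCast_zmod_eq_zero_iff_dvd]
    exact hn
  have h2 : PadicInt.toZMod ((derivative G).eval (n : ℤ_[p])) ≠ 0 := by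
    intro h0
    have h3 := congrArg (fun q : Polynomial (MvPolynomial (Fin r) ℤ) =>
      PadicInt.toZMod ((q.map θ).eval (n : ℤ_[p]))) h
    simp only [Polynomial.map_add, Polynomial.map_mul, eval_add, eval_mul, map_add, map_mul] at h3
    rw [← hG, h1, ← derivative_map, ← hG, h0, mul_zero, mul_zero, add_zero] at h3
    rw [hmod, Polynomial.map_C, eval_C] at h3
    exact hEp h3.symm
  have h3 : ‖(derivative G).eval (n : ℤ_[p])‖ = 1 := by
    have := mt (hnorm _).2 h2
    exact le_antisymm (PadicInt.norm_le_one _) (not_lt.1 this)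
  obtain ⟨z, hz, _⟩ := hensels_lemma (F := G) (a := (n : ℤ_[p])) (by
    rw [coe_aeval_eq_eval, h3, one_pow]
    exact (hnorm _).1 h1)
  rw [coe_aeval_eq_eval] at hz
  refine ⟨(z : ℚ_[p]), ?_⟩
  have h5 := hom_eval₂ g θ (PadicInt.Coe.ringHom (p := p)) z
  change _ = g.eval₂ _ (z : ℚ_[p]) at h5
  rw [← h5, ← eval_map, ← hG, hz, map_zero]

theorem embed_ext {P Q K L : Type*} [CommRing P] [IsDomain P] [Field Q] [Algebra P Q]
    [IsFractionRing P Q] [Field K] [Algebra Q K] [Field L] (pb : PowerBasis Q K) (θ : P →+* L)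
    (hθ : Function.Injective θ) (z : L) (b : P) (hb : b ≠ 0) (g : P[X])
    (hg : g.map (algebraMap P Q) = C (algebraMap P Q b) * minpoly Q pb.gen)
    (hz : g.eval₂ θ z = 0) :
    ∃ φ : K →+* L, φ.comp ((algebraMap Q K).comp (algebraMap P Q)) = θ := by
  have hτ : (IsFractionRing.lift (K := Q) hθ).comp (algebraMap P Q) = θ := by
    apply RingHom.ext
    intro c
    exact IsFractionRing.lift_algebraMap hθ c
  generalize (IsFractionRing.lift (K := Q) hθ) = τ at hτ
  let _ : Algebra Q L := τ.toAlgebra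
  have hz2 : aeval z (minpoly Q pb.gen) = 0 := by
    have h1 : (g.map (algebraMap P Q)).eval₂ τ z = 0 := by
      rw [eval₂_map, hτ]
      exact hz
    rw [hg, eval₂_mul, eval₂_C] at h1
    rcases mul_eq_zero.1 h1 with h2 | h2
    · exact absurd (IsFractionRing.injective P Q (((map_eq_zero τ).1 h2).trans (map_zero _).symm)) hb
    · exact h2
  refine ⟨(pb.lift z hz2).toRingHom, ?_⟩
  rw [← RingHom.comp_assoc]
  have h3 : (pb.lift z hz2).toRingHom.comp (algebraMap Q K) = τ := by
    apply RingHom.ext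
    intro c
    exact (pb.lift z hz2).commutes c
  rw [h3, hτ]

theorem norm_le_one_of_root {P : Type*} [CommRing P] (p : ℕ) [Fact p.Prime] (θ : P →+* ℤ_[p])
    (q : P[X]) (hq : ‖θ q.leadingCoeff‖ = 1) (x : ℚ_[p])
    (hx : q.eval₂ ((PadicInt.Coe.ringHom (p := p)).comp θ) x = 0) : ‖x‖ ≤ 1 := by
  have h0 : θ q.leadingCoeff ≠ 0 := by
    intro h
    rw [h, norm_zero] at hq
    exact zero_ne_one hq
  have h1 : aeval x (q.map θ) = 0 := by
    rw [aeval_def, eval₂_map]
    exact hx
  have h2 := isIntegral_leadingCoeff_smul (q.map θ) x h1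
  rw [leadingCoeff_map_of_leadingCoeff_ne_zero θ h0] at h2
  obtain ⟨u, hu⟩ := PadicInt.isUnit_iff.2 hq
  have h3 : IsIntegral ℤ_[p] x := by
    have h4 : x = (↑u⁻¹ : ℤ_[p]) • (θ q.leadingCoeff • x) := by
      rw [smul_smul, ← hu, Units.inv_mul, one_smul]
    rw [h4]
    exact h2.smul _
  obtain ⟨y, hy⟩ := IsIntegrallyClosed.isIntegral_iff.1 h3
  rw [← hy]
  exact PadicInt.norm_le_one y

/-- A finitely generated field of characteristic zero embeds into `ℚ_p`, for arbitrarily large primes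
`p`, such that given elements become integral. Proof: adapt `exists_padic_root_all` and
`exists_embedding_all` of `Pool.Agent.Helper38.Dml.Embed`: with a transcendence basis `x` in `K`,
every given element `c` is a zero of a polynomial over `P = ℤ[x]` with leading coefficient
`D_c ≠ 0`; choose the point `τ` there such that also `∏ D_c (τ) ≠ 0`, and `p` larger than this
integer; then `D_c (s)` is a unit and `φ c` is integral over the `p`-adic integers. -/
theorem exists_padic_int {K : Type*} [Field K] [Algebra ℚ K]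
    (hK : (⊤ : IntermediateField ℚ K).FG) (S : Finset K) (N : ℕ) :
    ∃ p, N < p ∧ ∃ hp : p.Prime, haveI := Fact.mk hp; ∃ φ : K →+* ℚ_[p], ∀ c ∈ S, ‖φ c‖ ≤ 1 := by
  classical
  have : CharZero K := algebraRat.charZero K
  obtain ⟨S', hS⟩ := hK
  have hmem : ∀ x : K, x ∈ IntermediateField.adjoin ℚ (S' : Set K) := fun x => by
    rw [hS]; trivial
  -- K is algebraic over the ring generated by S'
  have halg : Algebra.IsAlgebraic (Algebra.adjoin ℤ (S' : Set K)) K := by
    constructor
    intro x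
    refine IntermediateField.adjoin_induction ℚ
      (p := fun x _ => IsAlgebraic (Algebra.adjoin ℤ (S' : Set K)) x) ?_ ?_ ?_ ?_ ?_ (hmem x)
    · intro x hx
      exact isAlgebraic_algebraMap (⟨x, Algebra.subset_adjoin hx⟩ : Algebra.adjoin ℤ (S' : Set K))
    · intro q
      have h0 : IsAlgebraic ℤ q :=
        (IsFractionRing.isAlgebraic_iff ℤ ℚ ℚ).2 (isAlgebraic_algebraMap q)
      have h1 : IsAlgebraic ℤ (algebraMap ℚ K q) := h0.algebraMap
      exact h1.extendScalars (FaithfulSMul.algebraMap_injective ℤ (Algebra.adjoin ℤ (S' : Set K)))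
    · intro x y _ _ hx hy
      exact hx.add hy
    · intro x _ hx
      exact hx.inv
    · intro x y _ _ hx hy
      exact hx.mul hy
  obtain ⟨t, htS, ht⟩ := exists_isTranscendenceBasis_subset (R := ℤ) (S' : Set K)
  have htfin : t.Finite := S'.finite_toSet.subset htS
  have : Fintype t := htfin.fintype
  obtain ⟨r, ⟨e⟩⟩ : ∃ r, Nonempty (Fin r ≃ t) := ⟨_, ⟨(Fintype.equivFin t).symm⟩⟩
  have hx := ht.comp_equiv e
  set x : Fin r → K := fun i => (e i : K) with hxdef
  have hxi : AlgebraicIndependent ℤ x := hx.1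
  let P := MvPolynomial (Fin r) ℤ
  let _ : Algebra P K := (MvPolynomial.aeval x : P →ₐ[ℤ] K).toRingHom.toAlgebra
  have hinj : Function.Injective (algebraMap P K) := hxi
  have : FaithfulSMul P K := (faithfulSMul_iff_algebraMap_injective P K).2 hinj
  have halgP : Algebra.IsAlgebraic P K := by
    have h1 : Algebra.IsAlgebraic (Algebra.adjoin ℤ (Set.range x)) K := hx.isAlgebraic
    refine Algebra.IsAlgebraic.of_ringHom_of_comp_eq (S := Algebra.adjoin ℤ (Set.range x)) (B := K)
      hxi.aevalEquiv (RingHom.id K) hxi.aevalEquiv.surjective (fun _ _ h => h) ?_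
    apply RingHom.ext
    intro P'
    change ((hxi.aevalEquiv P' : Algebra.adjoin ℤ (Set.range x)) : K) = MvPolynomial.aeval x P'
    exact hxi.algebraMap_aevalEquiv P'
  let Q := FractionRing P
  let _ : Algebra Q K := FractionRing.liftAlgebra P K
  have : IsScalarTower P Q K := FractionRing.isScalarTower_liftAlgebra P K
  have halgQ : Algebra.IsAlgebraic Q K := IsFractionRing.comap_isAlgebraic_iff.1 halgP
  have htop : IntermediateField.adjoin Q (S' : Set K) = ⊤ := by
    rw [eq_top_iff]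
    intro y _
    refine IntermediateField.adjoin_induction ℚ
      (p := fun y _ => y ∈ IntermediateField.adjoin Q (S' : Set K)) ?_ ?_ ?_ ?_ ?_ (hmem y)
    · intro y hy
      exact IntermediateField.subset_adjoin _ _ hy
    · intro q
      rw [eq_ratCast]
      exact SubfieldClass.ratCast_mem _ q
    · intro y z _ _ hy hz
      exact add_mem hy hz
    · intro y _ hy
      exact inv_mem hy
    · intro y z _ _ hy hz
      exact mul_mem hy hz
  have hfin : FiniteDimensional Q K := by
    have h1 : FiniteDimensional Q (IntermediateField.adjoin Q (S' : Set K)) :=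
      IntermediateField.finiteDimensional_adjoin (fun y _ => (halgQ.isAlgebraic y).isIntegral)
    rw [htop] at h1
    exact LinearEquiv.finiteDimensional (IntermediateField.topEquiv (F := Q) (E := K)).toLinearEquiv
  let pb := Field.powerBasisOfFiniteOfSeparable Q K
  set f := minpoly Q pb.gen with hf
  have hfint : IsIntegral Q pb.gen := (halgQ.isAlgebraic pb.gen).isIntegral
  have hfsep : f.Separable := (minpoly.irreducible hfint).separable
  have hfdeg : 0 < f.natDegree := minpoly.natDegree_pos hfint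
  obtain ⟨g, U, V, E, b, hb0, hE, hbez, hgdeg, hg⟩ := exists_clear (P := P) f hfsep hfdeg
  have hq : ∀ c : K, ∃ q : P[X], q ≠ 0 ∧ aeval c q = 0 := fun c => halgP.isAlgebraic c
  choose q hq0 hqc using hq
  set D : P := ∏ c ∈ S, (q c).leadingCoeff with hDdef
  have hD0 : D ≠ 0 := Finset.prod_ne_zero_iff.2 (fun c _ => leadingCoeff_ne_zero.2 (hq0 c))
  obtain ⟨g₀, hg₀, M, hM⟩ := root_int r g (C D * U) (C D * V) (D * E) (mul_ne_zero hD0 hE) (by
    rw [C_mul, ← hbez]; ring) hgdeg
  obtain ⟨p, hpN, hp, hn⟩ := exists_prime_root g₀ hg₀ (N + M)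
  refine ⟨p, by omega, hp, ?_⟩
  have := Fact.mk hp
  obtain ⟨s, hs, hnorm, z, hz⟩ := hM p (by omega) hp hn
  set θ : P →+* ℤ_[p] := MvPolynomial.eval₂Hom (Int.castRingHom ℤ_[p]) s with hθ
  have h4 : (PadicInt.Coe.ringHom (p := p)).comp θ =
      (MvPolynomial.aeval (fun i => (s i : ℚ_[p])) :
      MvPolynomial (Fin r) ℤ →ₐ[ℤ] ℚ_[p]).toRingHom := by
    apply MvPolynomial.ringHom_ext
    · intro c
      simp [hθ]
    · intro i
      have h5 : (PadicInt.Coe.ringHom (p := p)) (s i) = (s i : ℚ_[p]) := rfl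
      simp [hθ, h5]
  have hinj2 : Function.Injective ((PadicInt.Coe.ringHom (p := p)).comp θ) := by
    rw [h4]
    exact hs
  obtain ⟨φ, hφ⟩ := embed_ext pb _ hinj2 z b hb0 g hg hz
  refine ⟨φ, fun c hc => ?_⟩
  have hφP : φ.comp (algebraMap P K) = (PadicInt.Coe.ringHom (p := p)).comp θ := by
    rw [IsScalarTower.algebraMap_eq P Q K, hφ]
  refine norm_le_one_of_root p θ (q c) ?_ (φ c) ?_
  · rw [map_mul, norm_mul] at hnorm
    have h5 : ‖θ D‖ = 1 := by
      refine le_antisymm (PadicInt.norm_le_one _) ?_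
      rw [← hnorm]
      exact mul_le_of_le_one_right (norm_nonneg _) (PadicInt.norm_le_one _)
    rw [hDdef, ← Finset.mul_prod_erase S _ hc, map_mul, norm_mul] at h5
    refine le_antisymm (PadicInt.norm_le_one _) ?_
    rw [← h5]
    exact mul_le_of_le_one_right (norm_nonneg _) (PadicInt.norm_le_one _)
  · rw [← hφP]
    have h6 := hom_eval₂ (q c) (algebraMap P K) φ c
    rw [← h6]
    have h7 : eval₂ (algebraMap P K) c (q c) = 0 := hqc c
    rw [h7, map_zero]

end Pool.Agent.Helper33.SS
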