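import Pool.Agent.Helper33.SS.Stage1
import Pool.Agent.Helper33.SS.Emb
import Pool.Agent.Helper33.SS.Iso
import Pool.Agent.Helper38.Dml.PadicExt

/-!
# Transfer from the complex numbers to the `p`-adic integers
-/

set_option autoImplicit false

namespace Pool.Agent.Helper33.SS

open MvPolynomial

/-- a finite set of complex numbers becomes `p`-adically integral under some isomorphism of `ℂ` with
`ℂ_[p]`, `p ≥ 3` -/
theorem exists_iso_int (S : Finset ℂ) : ∃ p : ℕ, 3 ≤ p ∧ ∃ _hp : Fact p.Prime,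
    ∃ s : ℂ ≃+* ℂ_[p], ∀ c ∈ S, ∃ z : ℤ_[p], s c = io p z := by
  classical
  let K : IntermediateField ℚ ℂ := IntermediateField.adjoin ℚ (S : Set ℂ)
  have hK0 : K.FG := IntermediateField.fg_adjoin_finset S
  have hK : (⊤ : IntermediateField ℚ K).FG :=
    IntermediateField.fg_top_iff.2 (IntermediateField.essFiniteType_iff.2 hK0)
  have hcard : Countable K := Pool.Agent.Helper38.Dml.countable_of_fg K hK0
  let S' : Finset K := S.attach.image fun c => ⟨c.1, IntermediateField.subset_adjoin ℚ _ c.2⟩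
  obtain ⟨p, hp2, hp, φ, hφ⟩ := exists_padic_int hK S' 2
  have : Fact p.Prime := ⟨hp⟩
  obtain ⟨s, hs⟩ := exists_iso_extending p K φ
  refine ⟨p, hp2, ⟨hp⟩, s, fun c hc => ?_⟩
  have h1 : (⟨c, IntermediateField.subset_adjoin ℚ _ hc⟩ : K) ∈ S' :=
    Finset.mem_image.2 ⟨⟨c, hc⟩, Finset.mem_attach _ _, rfl⟩
  refine ⟨⟨φ ⟨c, IntermediateField.subset_adjoin ℚ _ hc⟩, hφ _ h1⟩, ?_⟩
  exact hs ⟨c, IntermediateField.subset_adjoin ℚ _ hc⟩

section
variable {p : ℕ} [Fact p.Prime] {σ : Type}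

theorem exists_lift (s : ℂ ≃+* ℂ_[p]) (P : MvPolynomial σ ℂ)
    (h : ∀ m ∈ P.support, ∃ z : ℤ_[p], s (P.coeff m) = io p z) :
    ∃ Q : MvPolynomial σ ℤ_[p], MvPolynomial.map (io p) Q = MvPolynomial.map (s : ℂ →+* ℂ_[p]) P := by
  classical
  choose! z hz using h
  refine ⟨∑ m ∈ P.support, monomial m (z m), ?_⟩
  conv_rhs => rw [P.as_sum, map_sum]
  rw [map_sum]
  refine Finset.sum_congr rfl fun m hm => ?_
  rw [map_monomial, map_monomial]
  congr 1
  exact (hz m hm).symm

theorem homogeneous_of_map {R S : Type*} [CommRing R] [CommRing S] (f : R →+* S)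
    (hf : Function.Injective f) {P : MvPolynomial σ R} {e : ℕ}
    (h : (MvPolynomial.map f P).IsHomogeneous e) : P.IsHomogeneous e := by
  intro m hm
  apply h
  rw [coeff_map]
  intro h0
  exact hm ((map_eq_zero_iff f hf).1 h0)

theorem rank_map_ringEquiv {K L : Type} [Field K] [Field L] (s : K ≃+* L) [Fintype σ]
    [DecidableEq σ] (A : Matrix σ σ K) : (A.map s).rank = A.rank := by
  have h : ∀ v : σ → K, (A.map s).mulVec (fun i => s (v i)) = fun i => s (A.mulVec v i) := by
    intro v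
    funext i
    simp only [Matrix.mulVec, dotProduct, Matrix.map_apply, map_sum, map_mul]
  let j : (σ → K) ≃+ (σ → L) :=
    { toFun := fun v i => s (v i)
      invFun := fun v i => s.symm (v i)
      left_inv := fun v => by funext i; simp
      right_inv := fun v => by funext i; simp
      map_add' := fun v w => by funext i; simp }
  let j' : LinearMap.range A.mulVecLin ≃+ LinearMap.range (A.map s).mulVecLin :=
    { toFun := fun v => ⟨j v.1, by
        obtain ⟨u, hu⟩ := v.2
        refine ⟨j u, ?_⟩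
        rw [← hu]
        exact h u⟩
      invFun := fun v => ⟨j.symm v.1, by
        obtain ⟨u, hu⟩ := v.2
        refine ⟨j.symm u, ?_⟩
        apply j.injective
        rw [AddEquiv.apply_symm_apply, ← hu]
        have := h (j.symm u)
        have h2 : (fun i => s (j.symm u i)) = u := j.apply_symm_apply u
        rw [h2] at this
        exact this.symm⟩
      left_inv := fun v => by ext1; simp
      right_inv := fun v => by ext1; simp
      map_add' := fun v w => by ext1; simp }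
  have h1 := rank_eq_of_equiv_equiv (R := K) (R' := L) s j' s.bijective (by
    intro r m
    ext i
    simp [j', j])
  rw [Matrix.rank, Matrix.rank, Module.finrank, Module.finrank, h1]

end

theorem inZ_of_span {R : Type*} [CommRing R] {σ : Type*} {V W : Set (MvPolynomial σ R)}
    (h : W ⊆ (Ideal.span V : Ideal (MvPolynomial σ R))) {x : σ → R} (hx : InZ V x) : InZ W x := by
  have h1 : Ideal.span V ≤ RingHom.ker (eval x) := by
    rw [Ideal.span_le]
    intro g hg
    exact hx g hg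
  intro g hg
  exact h1 (h hg)

theorem exists_finset_inZ {σ : Type} [Finite σ] (V : Set (MvPolynomial σ ℂ)) :
    ∃ V₀ : Finset (MvPolynomial σ ℂ), (V₀ : Set (MvPolynomial σ ℂ)) ⊆ V ∧
      ∀ x, InZ V x ↔ InZ (V₀ : Set (MvPolynomial σ ℂ)) x := by
  have h1 : (Submodule.span (MvPolynomial σ ℂ) V).FG := IsNoetherian.noetherian _
  rw [Submodule.fg_span_iff_fg_span_finset_subset] at h1
  obtain ⟨V₀, h2, h3⟩ := h1
  refine ⟨V₀, h2, fun x => ⟨fun h g hg => h g (h2 hg), fun h => inZ_of_span ?_ h⟩⟩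
  intro g hg
  have : g ∈ Submodule.span (MvPolynomial σ ℂ) V := Submodule.subset_span hg
  rw [h3] at this
  exact this

/-- One point, one closed set without positive-dimensional periodic subvarieties. -/
theorem main_one {σ : Type} [Fintype σ] [DecidableEq σ] (F : σ → MvPolynomial σ ℂ) (d : ℕ)
    (hd : 0 < d) (hF : ∀ i, (F i).IsHomogeneous d)
    (hnz : ∀ x : σ → ℂ, (∀ i, eval x (F i) = 0) → x = 0)
    (E : Set (MvPolynomial σ ℂ)) (hE : ∀ g ∈ E, ∃ e : ℕ, g.IsHomogeneous e)
    (hEinv : ∀ x : σ → ℂ, x ≠ 0 → InZ E (ev F x) → InZ E x)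
    (V : Set (MvPolynomial σ ℂ)) (hV : ∀ g ∈ V, ∃ e : ℕ, g.IsHomogeneous e)
    (hfin : ∀ k, 1 ≤ k → ∃ B : Finset (σ → ℂ), ∀ x : σ → ℂ, x ≠ 0 →
      (∀ n, InZ V ((ev F)^[k * n] x)) → ¬ InZ E x → ∃ b ∈ B, ∃ c : ℂ, x = c • b)
    (hrank : ∀ x : σ → ℂ, x ≠ 0 → InZ V x → ¬ InZ E x → ∀ k, 1 ≤ k → ∀ c : ℂ,
      (ev F)^[k] x = c • x → Fintype.card σ ≤ ((jprod F x k) ^ 2).rank + 1)
    (a : σ → ℂ) (ha : a ≠ 0) (haE : ¬ InZ E a)
    (hnp : ∀ n k, 1 ≤ k → ∀ c : ℂ, (ev F)^[n + k] a ≠ c • (ev F)^[n] a) :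
    Sparse {n | InZ V ((ev F)^[n] a)} := by
  classical
  obtain ⟨V₀, hV₀, hVV₀⟩ := exists_finset_inZ V
  obtain ⟨E₀, hE₀, hEE₀⟩ := exists_finset_inZ E
  set E₁ : Finset (MvPolynomial σ ℂ) := (E₀ ×ˢ (Finset.univ : Finset σ)).image
    (fun q => q.1 * X q.2) with hE₁
  have hE₁mem : ∀ g, g ∈ E₁ ↔ ∃ g₀ ∈ E₀, ∃ i : σ, g = g₀ * X i := by
    intro g
    simp only [hE₁, Finset.mem_image, Finset.mem_product, Finset.mem_univ, and_true, Prod.exists]
    constructor
    · rintro ⟨g₀, i, h, rfl⟩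
      exact ⟨g₀, h, i, rfl⟩
    · rintro ⟨g₀, h, i, rfl⟩
      exact ⟨g₀, i, h, rfl⟩
  have hE₁z : ∀ x : σ → ℂ, x ≠ 0 → (InZ (E₁ : Set (MvPolynomial σ ℂ)) x ↔ InZ E x) := by
    intro x hx
    rw [hEE₀]
    constructor
    · intro h g hg
      obtain ⟨i, hi⟩ := Function.ne_iff.1 hx
      have := h (g * X i) ((hE₁mem _).2 ⟨g, hg, i, rfl⟩)
      rw [map_mul, eval_X] at this
      exact (mul_eq_zero.1 this).resolve_right hi
    · intro h g hg
      obtain ⟨g₀, hg₀, i, rfl⟩ := (hE₁mem g).1 hg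
      rw [map_mul, h g₀ hg₀, zero_mul]
  have hE₁0 : ∀ g ∈ E₁, eval (0 : σ → ℂ) g = 0 := by
    intro g hg
    obtain ⟨g₀, hg₀, i, rfl⟩ := (hE₁mem g).1 hg
    rw [map_mul, eval_X, Pi.zero_apply, mul_zero]
  have hE₁hom : ∀ g ∈ E₁, ∃ e : ℕ, g.IsHomogeneous e := by
    intro g hg
    obtain ⟨g₀, hg₀, i, rfl⟩ := (hE₁mem g).1 hg
    obtain ⟨e, he⟩ := hE g₀ (hE₀ hg₀)
    exact ⟨e + 1, he.mul (isHomogeneous_X ℂ i)⟩
  have hev0 : ∀ x : σ → ℂ, ev F x = 0 → x = 0 := fun x h => hnz x fun i => congrFun h i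
  have hE₁inv : ∀ x : σ → ℂ, InZ (E₁ : Set (MvPolynomial σ ℂ)) (ev F x) →
      InZ (E₁ : Set (MvPolynomial σ ℂ)) x := by
    intro x h
    by_cases hx : x = 0
    · subst hx
      exact hE₁0
    · have h1 : ev F x ≠ 0 := fun h0 => hx (hev0 x h0)
      exact (hE₁z x hx).2 (hEinv x hx ((hE₁z _ h1).1 h))
  -- the Nullstellensatz identities
  have hident : ∀ g ∈ E₁, ∃ (n : ℕ) (c : MvPolynomial σ ℂ → MvPolynomial σ ℂ),
      g ^ n = ∑ e ∈ E₁, c e * aeval F e := by
    intro g hg
    have h1 : g ∈ (Ideal.span ((E₁.image (aeval F) : Finset (MvPolynomial σ ℂ)) :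
        Set (MvPolynomial σ ℂ))).radical := by
      rw [← vanishingIdeal_zeroLocus_eq_radical (K := ℂ)]
      intro z hz
      rw [aeval_eq_eval]
      refine hE₁inv z (fun e he => ?_) g hg
      have h2 := hz (aeval F e) (Ideal.subset_span (Finset.mem_coe.2
        (Finset.mem_image_of_mem _ he)))
      rw [aeval_eq_eval] at h2
      rw [← h2]
      exact (eval_comp F z e).symm
    obtain ⟨n, hn⟩ := h1
    have h2 : g ^ n ∈ Submodule.span (MvPolynomial σ ℂ)
        ((fun e => aeval F e) '' (E₁ : Set (MvPolynomial σ ℂ))) := by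
      rw [Finset.coe_image] at hn
      exact hn
    rw [Submodule.mem_span_image_finset_iff_exists_fun] at h2
    obtain ⟨c, hc⟩ := h2
    refine ⟨n, fun e => if h : e ∈ E₁ then c ⟨e, h⟩ else 0, ?_⟩
    rw [← hc, ← Finset.sum_coe_sort E₁]
    refine Finset.sum_congr rfl fun e _ => ?_
    have h3 : (fun e => if h : e ∈ E₁ then c ⟨e, h⟩ else 0 :
        MvPolynomial σ ℂ → MvPolynomial σ ℂ) e.1 = c e := by
      simp only [dif_pos e.2]
    rw [h3]
    rfl
  choose! nn cc hcc using hident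
  -- a unit
  have haE₁ : ¬ InZ (E₁ : Set (MvPolynomial σ ℂ)) a := fun h => haE ((hE₁z a ha).1 h)
  obtain ⟨g₁, hg₁, hg₁a⟩ : ∃ g₁ ∈ E₁, eval a g₁ ≠ 0 := by
    by_contra hcon
    push Not at hcon
    exact haE₁ hcon
  -- the finite set of numbers
  let coeffs : MvPolynomial σ ℂ → Finset ℂ := fun P => P.support.image P.coeff
  let S : Finset ℂ := (Finset.univ.biUnion fun i => coeffs (F i)) ∪ V₀.biUnion coeffs
    ∪ E₁.biUnion coeffs ∪ (E₁.biUnion fun g => E₁.biUnion fun e => coeffs (cc g e))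
    ∪ Finset.univ.image a ∪ {(eval a g₁)⁻¹}
  obtain ⟨p, hp3, hp, s, hs⟩ := exists_iso_int S
  have hlift : ∀ P : MvPolynomial σ ℂ, coeffs P ⊆ S → ∃ Q : MvPolynomial σ ℤ_[p],
      MvPolynomial.map (io p) Q = MvPolynomial.map (s : ℂ →+* ℂ_[p]) P := by
    intro P hP
    apply exists_lift
    intro m hm
    exact hs _ (hP (Finset.mem_image_of_mem _ hm))
  have hSF : ∀ i, coeffs (F i) ⊆ S := fun i => by
    intro c hc
    simp only [S, Finset.mem_union]
    exact Or.inl (Or.inl (Or.inl (Or.inl (Or.inl (Finset.mem_biUnion.2 ⟨i, Finset.mem_univ i, hc⟩)))))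
  have hSV : ∀ g ∈ V₀, coeffs g ⊆ S := fun g hg => by
    intro c hc
    simp only [S, Finset.mem_union]
    exact Or.inl (Or.inl (Or.inl (Or.inl (Or.inr (Finset.mem_biUnion.2 ⟨g, hg, hc⟩)))))
  have hSE : ∀ g ∈ E₁, coeffs g ⊆ S := fun g hg => by
    intro c hc
    simp only [S, Finset.mem_union]
    exact Or.inl (Or.inl (Or.inl (Or.inr (Finset.mem_biUnion.2 ⟨g, hg, hc⟩))))
  have hSc : ∀ g ∈ E₁, ∀ e ∈ E₁, coeffs (cc g e) ⊆ S := fun g hg e he => by
    intro c hc
    simp only [S, Finset.mem_union]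
    exact Or.inl (Or.inl (Or.inr (Finset.mem_biUnion.2 ⟨g, hg, Finset.mem_biUnion.2 ⟨e, he, hc⟩⟩)))
  have hSa : ∀ i, a i ∈ S := fun i => by
    simp only [S, Finset.mem_union]
    exact Or.inl (Or.inr (Finset.mem_image_of_mem _ (Finset.mem_univ i)))
  have hSu : (eval a g₁)⁻¹ ∈ S := by
    simp only [S, Finset.mem_union, Finset.mem_singleton]
    exact Or.inr trivial
  choose F' hF' using fun i => hlift (F i) (hSF i)
  choose α hα using fun i => hs (a i) (hSa i)
  obtain ⟨ui, hui⟩ := hs _ hSu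
  set V' : Set (MvPolynomial σ ℤ_[p]) :=
    {Q | ∃ g ∈ V₀, MvPolynomial.map (io p) Q = MvPolynomial.map (s : ℂ →+* ℂ_[p]) g} with hV'
  set E' : Set (MvPolynomial σ ℤ_[p]) :=
    {Q | ∃ g ∈ E₁, MvPolynomial.map (io p) Q = MvPolynomial.map (s : ℂ →+* ℂ_[p]) g} with hE'
  have hsinj : Function.Injective (s : ℂ →+* ℂ_[p]) := s.injective
  have hmaphom : ∀ (Q : MvPolynomial σ ℤ_[p]) (g : MvPolynomial σ ℂ) (e : ℕ),
      MvPolynomial.map (io p) Q = MvPolynomial.map (s : ℂ →+* ℂ_[p]) g → g.IsHomogeneous e →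
      Q.IsHomogeneous e := by
    intro Q g e h hg
    apply homogeneous_of_map (io p) (io_injective p)
    rw [h]
    exact hg.map _
  have hF'hom : ∀ i, (F' i).IsHomogeneous d := fun i => hmaphom _ _ _ (hF' i) (hF i)
  have hV'hom : ∀ Q ∈ V', ∃ e : ℕ, Q.IsHomogeneous e := by
    rintro Q ⟨g, hg, h⟩
    obtain ⟨e, he⟩ := hV g (hV₀ hg)
    exact ⟨e, hmaphom _ _ _ h he⟩
  have hE'hom : ∀ Q ∈ E', ∃ e : ℕ, Q.IsHomogeneous e := by
    rintro Q ⟨g, hg, h⟩
    obtain ⟨e, he⟩ := hE₁hom g hg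
    exact ⟨e, hmaphom _ _ _ h he⟩
  have hcpF : cp F' = fun i => MvPolynomial.map (s : ℂ →+* ℂ_[p]) (F i) := by
    funext i
    exact hF' i
  have hevs : ∀ (x : σ → ℂ) (g : MvPolynomial σ ℂ),
      eval (fun i => s (x i)) (MvPolynomial.map (s : ℂ →+* ℂ_[p]) g) = s (eval x g) := by
    intro x g
    rw [eval_map]
    exact (MvPolynomial.eval₂_comp (s : ℂ →+* ℂ_[p]) x g).symm
  -- zeros over the three fields
  have hVz : ∀ x : σ → ℂ, InZ (MvPolynomial.map (io p) '' V') (fun i => s (x i)) ↔ InZ V x := by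
    intro x
    rw [hVV₀]
    constructor
    · intro h g hg
      obtain ⟨Q, hQ⟩ := hlift g (hSV g hg)
      have h1 := h (MvPolynomial.map (io p) Q) ⟨Q, ⟨g, hg, hQ⟩, rfl⟩
      rw [hQ, hevs] at h1
      exact (map_eq_zero_iff s s.injective).1 h1
    · rintro h _ ⟨Q, ⟨g, hg, hQ⟩, rfl⟩
      rw [hQ, hevs, h g hg, map_zero]
  have hEz : ∀ x : σ → ℂ, InZ (MvPolynomial.map (io p) '' E') (fun i => s (x i)) ↔
      InZ (E₁ : Set (MvPolynomial σ ℂ)) x := by
    intro x
    constructor
    · intro h g hg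
      obtain ⟨Q, hQ⟩ := hlift g (hSE g hg)
      have h1 := h (MvPolynomial.map (io p) Q) ⟨Q, ⟨g, hg, hQ⟩, rfl⟩
      rw [hQ, hevs] at h1
      exact (map_eq_zero_iff s s.injective).1 h1
    · rintro h _ ⟨Q, ⟨g, hg, hQ⟩, rfl⟩
      rw [hQ, hevs, h g hg, map_zero]
  have hiter : ∀ (n : ℕ) (x : σ → ℂ), (ev (cp F'))^[n] (fun i => s (x i))
      = fun i => s ((ev F)^[n] x i) := by
    intro n x
    rw [hcpF]
    exact ev_iterate_map (s : ℂ →+* ℂ_[p]) F n x
  have hαa : (fun i => io p (α i)) = fun i => s (a i) := by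
    funext i
    exact (hα i).symm
  have horb : ∀ n, (fun i => io p ((ev F')^[n] α i)) = fun i => s ((ev F)^[n] a i) := by
    intro n
    have h1 := ev_iterate_map (io p) F' n α
    rw [← h1, hαa]
    exact hiter n a
  -- units
  have hunit : ∀ n, ∃ g ∈ E', ‖eval ((ev F')^[n] α) g‖ = 1 := by
    intro n
    induction n with
    | zero =>
      obtain ⟨Q, hQ⟩ := hlift g₁ (hSE g₁ hg₁)
      refine ⟨Q, ⟨g₁, hg₁, hQ⟩, ?_⟩
      have h1 : io p (eval α Q) = s (eval a g₁) := by
        rw [← eval_io, hQ, hαa, hevs]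
      have h2 : io p (ui * eval α Q) = 1 := by
        rw [map_mul, h1, ← hui, ← map_mul, inv_mul_cancel₀ hg₁a, map_one]
      have h3 : ui * eval α Q = 1 := io_injective p (by rw [h2, map_one])
      have h4 := congrArg norm h3
      rw [norm_mul, norm_one] at h4
      have h5 := PadicInt.norm_le_one ui
      have h6 := PadicInt.norm_le_one (eval α Q)
      have h7 := norm_nonneg ui
      have h8 := norm_nonneg (eval α Q)
      show ‖eval α Q‖ = 1
      apply le_antisymm h6
      nlinarith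
    | succ n ih =>
      obtain ⟨Q, ⟨g, hg, hQ⟩, hQ1⟩ := ih
      set x := (ev F')^[n] α with hx
      choose Qe hQe using fun e : {e // e ∈ E₁} => hlift e.1 (hSE e.1 e.2)
      choose Qc hQc using fun e : {e // e ∈ E₁} => hlift (cc g e.1) (hSc g hg e.1 e.2)
      have hid : Q ^ (nn g) = ∑ e ∈ E₁.attach, Qc e * aeval F' (Qe e) := by
        apply MvPolynomial.map_injective (io p) (io_injective p)
        rw [map_pow, hQ, ← map_pow, hcc g hg, map_sum, map_sum, ← Finset.sum_attach]
        refine Finset.sum_congr rfl fun e _ => ?_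
        rw [map_mul, map_mul, hQc e]
        congr 1
        have h1 : ∀ (R : Type) [CommRing R] (φ : R →+* ℂ_[p]) (H : σ → MvPolynomial σ R)
            (P : MvPolynomial σ R), MvPolynomial.map φ (aeval H P)
              = aeval (fun i => MvPolynomial.map φ (H i)) (MvPolynomial.map φ P) := by
          intro R _ φ H P
          induction P using MvPolynomial.induction_on with
          | C c => simp
          | add P Q hP hQ => simp only [map_add, hP, hQ]
          | mul_X P i hP => simp only [map_mul, hP, aeval_X, map_X]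
        rw [h1 ℂ (s : ℂ →+* ℂ_[p]), h1 ℤ_[p] (io p), hQe e]
        have h0 : (fun i => MvPolynomial.map (s : ℂ →+* ℂ_[p]) (F i))
            = fun i => MvPolynomial.map (io p) (F' i) := by
          funext i
          exact (hF' i).symm
        rw [h0]
      have h2 : ‖eval x (Q ^ nn g)‖ = 1 := by rw [map_pow, norm_pow, hQ1, one_pow]
      by_contra hcon
      push Not at hcon
      have h3 : ∀ e ∈ E₁.attach, ‖eval x (Qc e * aeval F' (Qe e))‖ < 1 := by
        intro e _
        have h4 := hcon (Qe e) ⟨e.1, e.2, hQe e⟩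
        have h5 : eval x (aeval F' (Qe e)) = eval ((ev F')^[n + 1] α) (Qe e) := by
          rw [Function.iterate_succ_apply', ← hx]
          have h6 : eval x (aeval F' (Qe e)) = eval (ev F' x) (Qe e) := by
            rw [← aeval_eq_eval, ← aeval_eq_eval]
            change (aeval x) (aeval F' (Qe e)) = aeval (ev F' x) (Qe e)
            rw [← AlgHom.comp_apply, MvPolynomial.comp_aeval]
            rfl
          exact h6
        rw [map_mul, norm_mul, h5]
        have h7 : ‖eval ((ev F')^[n + 1] α) (Qe e)‖ < 1 :=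
          lt_of_le_of_ne (PadicInt.norm_le_one _) h4
        calc ‖eval x (Qc e)‖ * ‖eval ((ev F')^[n + 1] α) (Qe e)‖
            ≤ 1 * ‖eval ((ev F')^[n + 1] α) (Qe e)‖ :=
              mul_le_mul_of_nonneg_right (PadicInt.norm_le_one _) (norm_nonneg _)
          _ < 1 := by rwa [one_mul]
      have h8 : ‖∑ e ∈ E₁.attach, eval x (Qc e * aeval F' (Qe e))‖ < 1 := by
        have hgen : ∀ (T : Finset {e // e ∈ E₁}) (u : {e // e ∈ E₁} → ℤ_[p]),
            (∀ e ∈ T, ‖u e‖ < 1) → ‖∑ e ∈ T, u e‖ < 1 := by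
          intro T u
          induction T using Finset.induction_on with
          | empty => intro _; simp
          | insert e T he ih =>
            intro h
            rw [Finset.sum_insert he]
            exact (PadicInt.nonarchimedean _ _).trans_lt
              (max_lt (h e (Finset.mem_insert_self _ _))
                (ih fun e' he' => h e' (Finset.mem_insert_of_mem he')))
        exact hgen _ _ h3
      rw [hid, map_sum] at h2
      exact absurd h2 h8.ne
  have hprim : ∀ n, ∃ i, ‖(ev F')^[n] α i‖ = 1 := by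
    intro n
    obtain ⟨Q, ⟨g, hg, hQ⟩, hQ1⟩ := hunit n
    by_contra hcon
    push Not at hcon
    have h1 : ∀ i, ‖(ev F')^[n] α i - (0 : σ → ℤ_[p]) i‖ < 1 := by
      intro i
      rw [Pi.zero_apply, sub_zero]
      exact lt_of_le_of_ne (PadicInt.norm_le_one _) (hcon i)
    have h2 := eval_congr Q h1
    have h3 : eval (0 : σ → ℤ_[p]) Q = 0 := by
      apply io_injective p
      rw [← eval_io, hQ, map_zero]
      have : (fun i => io p ((0 : σ → ℤ_[p]) i)) = fun i => s ((0 : σ → ℂ) i) := by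
        funext i
        simp
      rw [this, hevs, hE₁0 g hg, map_zero]
    rw [h3, sub_zero] at h2
    exact h2.ne hQ1
  have hmain := stage1 hp3 F' d hd hF'hom V' E' hV'hom hE'hom ?_ ?_ α hunit hprim ?_
  · refine hmain.mono fun n hn => ?_
    show InZ V' _
    rw [← inZ_io, horb n, hVz]
    exact hn
  · -- finiteness
    intro k hk
    obtain ⟨B, hB⟩ := hfin k hk
    refine ⟨B.image fun b i => s (b i), fun z hz h1 h2 => ?_⟩
    obtain ⟨x, rfl⟩ : ∃ x : σ → ℂ, z = fun i => s (x i) :=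
      ⟨fun i => s.symm (z i), by funext i; simp⟩
    have hx : x ≠ 0 := by
      rintro rfl
      apply hz
      funext i
      simp
    obtain ⟨b, hb, c, hc⟩ := hB x hx
      (fun n => (hVz _).1 (by rw [← hiter]; exact h1 n))
      (fun h => h2 ((hEz x).2 ((hE₁z x hx).2 h)))
    refine ⟨_, Finset.mem_image_of_mem _ hb, s c, ?_⟩
    funext i
    rw [hc]
    simp
  · -- the rank condition
    intro z hz h1 h2 k hk c hc
    obtain ⟨x, hx⟩ : ∃ x : σ → ℂ, (fun i => io p (z i)) = fun i => s (x i) :=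
      ⟨fun i => s.symm (io p (z i)), by funext i; simp⟩
    have hx0 : x ≠ 0 := by
      rintro rfl
      apply hz
      funext i
      apply io_injective p
      have := congrFun hx i
      simpa using this
    have h3 : InZ V x := by rw [← hVz, ← hx, inZ_io]; exact h1
    have h4 : ¬ InZ E x := by
      rw [← hE₁z x hx0, ← hEz, ← hx, inZ_io]
      exact h2
    have h5 : (ev F)^[k] x = s.symm (io p c) • x := by
      have h6 := hiter k x
      rw [← hx] at h6
      have h7 := ev_iterate_map (io p) F' k z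
      have h8 : (ev (cp F'))^[k] (fun i => io p (z i)) = fun i => io p (c * z i) := by
        refine h7.trans ?_
        funext i
        rw [hc]
        rfl
      rw [h8] at h6
      funext i
      have h9 := congrFun h6 i
      apply s.injective
      simp only [Pi.smul_apply, smul_eq_mul, map_mul, RingEquiv.apply_symm_apply]
      rw [← h9, map_mul]
      congr 1
      exact congrFun hx i
    have h6 := hrank x hx0 h3 h4 k hk _ h5
    have h7 : (jprod F' z k).map (io p) = (jprod F x k).map s := by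
      rw [← jprod_map (io p) F' z k]
      have h8 := jprod_map (s : ℂ →+* ℂ_[p]) F x k
      have h9 : (fun j => MvPolynomial.map (io p) (F' j))
          = fun j => MvPolynomial.map (s : ℂ →+* ℂ_[p]) (F j) := hcpF
      rw [h9, hx]
      exact h8
    have h8 : ((jprod F x k).map s) ^ 2 = ((jprod F x k) ^ 2).map s := by
      have := Matrix.map_pow (jprod F x k) (s : ℂ →+* ℂ_[p]) 2
      exact this.symm
    rw [h7, h8, rank_map_ringEquiv]
    exact h6
  · -- not preperiodic
    intro n k hk c h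
    apply hnp n k hk (s.symm (io p c))
    funext i
    apply s.injective
    have h1 : io p ((ev F')^[n + k] α i) = s ((ev F)^[n + k] a i) := congrFun (horb (n + k)) i
    have h2 : io p ((ev F')^[n] α i) = s ((ev F)^[n] a i) := congrFun (horb n) i
    rw [← h1, h]
    simp only [Pi.smul_apply, smul_eq_mul, map_mul, RingEquiv.apply_symm_apply]
    rw [← h2]

end Pool.Agent.Helper33.SS
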