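import Pool.Agent.Helper33.SS.Stage2
import Pool.Agent.Helper33.SS.Disc

/-!
# From residue polydiscs to fixed points
-/

set_option autoImplicit false

namespace Pool.Agent.Helper33.SS

open MvPolynomial Filter Topology

section basic
variable {p : ℕ} [Fact p.Prime] {σ : Type}

theorem norm_eval_sub_le (g : MvPolynomial σ ℤ_[p]) {x y : σ → ℤ_[p]} {r : ℝ} (hr : 0 ≤ r)
    (h : ∀ i, ‖x i - y i‖ ≤ r) : ‖eval x g - eval y g‖ ≤ r := by
  induction g using MvPolynomial.induction_on with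
  | C c => simpa using hr
  | add P Q hP hQ =>
    rw [map_add, map_add, add_sub_add_comm]
    exact (PadicInt.nonarchimedean _ _).trans (max_le hP hQ)
  | mul_X P i hP =>
    rw [map_mul, map_mul, eval_X, eval_X]
    have h1 : eval x P * x i - eval y P * y i
        = (eval x P - eval y P) * x i + eval y P * (x i - y i) := by ring
    rw [h1]
    refine (PadicInt.nonarchimedean _ _).trans (max_le ?_ ?_)
    · rw [norm_mul]
      calc ‖eval x P - eval y P‖ * ‖x i‖ ≤ r * 1 :=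
            mul_le_mul hP (PadicInt.norm_le_one _) (norm_nonneg _) hr
        _ = r := mul_one r
    · rw [norm_mul]
      calc ‖eval y P‖ * ‖x i - y i‖ ≤ 1 * r :=
            mul_le_mul (PadicInt.norm_le_one _) (h i) (norm_nonneg _) zero_le_one
        _ = r := one_mul r

theorem norm_lt_one_iff_le (x : ℤ_[p]) : ‖x‖ < 1 ↔ ‖x‖ ≤ (p : ℝ)⁻¹ := by
  have h := PadicInt.norm_le_pow_iff_norm_lt_pow_add_one x (-1)
  rw [zpow_neg_one, neg_add_cancel, zpow_zero] at h
  exact h.symm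

theorem eval_congr (g : MvPolynomial σ ℤ_[p]) {x y : σ → ℤ_[p]}
    (h : ∀ i, ‖x i - y i‖ < 1) : ‖eval x g - eval y g‖ < 1 := by
  have hp0 : (0 : ℝ) < (p : ℝ)⁻¹ := inv_pos.2 (by exact_mod_cast (Fact.out : p.Prime).pos)
  rw [norm_lt_one_iff_le]
  exact norm_eval_sub_le g hp0.le fun i => (norm_lt_one_iff_le _).1 (h i)

theorem ev_iterate_congr (F : σ → MvPolynomial σ ℤ_[p]) {x y : σ → ℤ_[p]}
    (h : ∀ i, ‖x i - y i‖ < 1) (n : ℕ) : ∀ i, ‖(ev F)^[n] x i - (ev F)^[n] y i‖ < 1 := by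
  induction n with
  | zero => exact h
  | succ n ih =>
    intro i
    rw [Function.iterate_succ_apply', Function.iterate_succ_apply']
    exact eval_congr (F i) ih

theorem norm_eq_one_of_congr {a b : ℤ_[p]} (h : ‖a - b‖ < 1) (hb : ‖b‖ = 1) : ‖a‖ = 1 := by
  have h1 : a = (a - b) + b := by ring
  rw [h1]
  rw [PadicInt.norm_add_eq_max_of_ne (by rw [hb]; exact h.ne), hb]
  exact max_eq_right h.le

theorem congr_trans {a b c : ℤ_[p]} (h : ‖a - b‖ < 1) (h' : ‖b - c‖ < 1) : ‖a - c‖ < 1 := by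
  have h1 : a - c = (a - b) + (b - c) := by ring
  rw [h1]
  exact (PadicInt.nonarchimedean _ _).trans_lt (max_lt h h')

theorem congr_symm {a b : ℤ_[p]} (h : ‖a - b‖ < 1) : ‖b - a‖ < 1 := by
  rwa [norm_sub_rev]

theorem exists_mod_period [Finite σ] (y : ℕ → σ → ℤ_[p]) :
    ∃ n₀ k : ℕ, 1 ≤ k ∧ ∀ i, ‖y (n₀ + k) i - y n₀ i‖ < 1 := by
  classical
  have : Fintype σ := Fintype.ofFinite σ
  let r : ℕ → σ → ZMod p := fun n i => PadicInt.toZMod (y n i)
  obtain ⟨a, b, hab, h⟩ := Finite.exists_ne_map_eq_of_infinite r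
  have key : ∀ a b : ℕ, a < b → r a = r b → ∃ n₀ k : ℕ, 1 ≤ k ∧
      ∀ i, ‖y (n₀ + k) i - y n₀ i‖ < 1 := by
    intro a b hab h
    refine ⟨a, b - a, by omega, fun i => ?_⟩
    rw [show a + (b - a) = b by omega]
    have h1 : PadicInt.toZMod (y b i - y a i) = 0 := by
      rw [map_sub]
      have := congrFun h i
      simp only [r] at this
      rw [this, sub_self]
    rwa [← RingHom.mem_ker, PadicInt.ker_toZMod, IsLocalRing.mem_maximalIdeal,
      PadicInt.mem_nonunits] at h1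
  rcases lt_or_gt_of_ne hab with h1 | h1
  · exact key a b h1 h
  · exact key b a h1 h.symm

theorem ev_iterate_smul (F : σ → MvPolynomial σ ℤ_[p]) {d : ℕ}
    (hF : ∀ i, (F i).IsHomogeneous d) (c : ℤ_[p]) (x : σ → ℤ_[p]) (n : ℕ) :
    (ev F)^[n] (c • x) = c ^ (d ^ n) • (ev F)^[n] x := by
  rw [← ev_itp, ← ev_itp]
  funext i
  simp only [ev, Pi.smul_apply, smul_eq_mul]
  exact eval_smul_form (itp_homogeneous hF n i) c x

end basic

/-- the case of a fixed line inside `V` -/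
theorem stage1_fixed {p : ℕ} [Fact p.Prime] (hp3 : 3 ≤ p) {σ : Type} [Fintype σ] [DecidableEq σ]
    (F : σ → MvPolynomial σ ℤ_[p]) (d : ℕ) (hd : 0 < d) (hF : ∀ i, (F i).IsHomogeneous d)
    (V E : Set (MvPolynomial σ ℤ_[p])) (hV : ∀ g ∈ V, ∃ e : ℕ, g.IsHomogeneous e)
    (hE : ∀ g ∈ E, ∃ e : ℕ, g.IsHomogeneous e)
    (hfin : ∀ k, 1 ≤ k → ∃ B : Finset (σ → ℂ_[p]), ∀ z : σ → ℂ_[p], z ≠ 0 →
      (∀ n, InZ (MvPolynomial.map (io p) '' V) ((ev (cp F))^[k * n] z)) →
      ¬ InZ (MvPolynomial.map (io p) '' E) z → ∃ b ∈ B, ∃ c : ℂ_[p], z = c • b)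
    (hrank : ∀ z : σ → ℤ_[p], z ≠ 0 → InZ V z → ¬ InZ E z → ∀ k, 1 ≤ k → ∀ c : ℤ_[p],
      (ev F)^[k] z = c • z → Fintype.card σ ≤ (((jprod F z k).map (io p)) ^ 2).rank + 1)
    (K : ℕ) (hK : 1 ≤ K) (β₁ : σ → ℤ_[p]) (t : ℤ_[p]) (ht : ‖t‖ = 1)
    (hβt : (ev F)^[K] β₁ = t • β₁) (hβV : InZ V β₁) (hβE : ¬ InZ E β₁)
    (hprim : ∃ i, ‖β₁ i‖ = 1)
    (y : ℕ → σ → ℤ_[p]) (hy : ∀ n, y (n + 1) = (ev F)^[K] (y n))
    (hyβ : ∀ n i, ‖y n i - β₁ i‖ < 1)
    (hyf : ∀ n, ∃ s : ℤ_[p], ∀ i, ‖y n i - s * β₁ i‖ ≤ ((p : ℝ)⁻¹) ^ n)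
    (hnp : ∀ n, ∀ c : ℤ_[p], y (n + 1) ≠ c • y n) :
    Sparse {n | InZ V (y n)} := by
  classical
  obtain ⟨i₀, hi₀⟩ := hprim
  obtain ⟨u, hu⟩ : ∃ u : ℤ_[p], u * β₁ i₀ = 1 := by
    obtain ⟨v, hv⟩ := PadicInt.isUnit_iff.2 hi₀
    exact ⟨↑v⁻¹, by rw [← hv, Units.inv_mul]⟩
  have hu1 : ‖u‖ = 1 := by
    have := congrArg norm hu
    rwa [norm_mul, hi₀, mul_one, norm_one] at this
  have hu0 : u ≠ 0 := fun h => by rw [h, norm_zero] at hu1; exact zero_ne_one hu1
  set β : σ → ℤ_[p] := u • β₁ with hβ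
  have hβ₁ : β₁ = β₁ i₀ • β := by
    funext i
    simp only [hβ, Pi.smul_apply, smul_eq_mul]
    rw [← mul_assoc, mul_comm (β₁ i₀) u, hu, one_mul]
  have hβi : β i₀ = 1 := by simp only [hβ, Pi.smul_apply, smul_eq_mul, hu]
  set c : ℤ_[p] := u ^ (d ^ K) * t * β₁ i₀ with hcdef
  have hc1 : ‖c‖ = 1 := by
    rw [hcdef, norm_mul, norm_mul, norm_pow, hu1, ht, hi₀]
    simp
  have hfixv : (ev F)^[K] β = c • β := by
    rw [hβ, ev_iterate_smul F hF, hβt, hcdef]
    funext i
    simp only [Pi.smul_apply, smul_eq_mul]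
    linear_combination -(u ^ (d ^ K) * t * β₁ i) * hu
  have hfix : ∀ i, eval β (itp F K i) = c * β i := by
    intro i
    have h1 := congrFun (ev_itp F K β) i
    rw [hfixv] at h1
    exact h1
  have hβ0 : β ≠ 0 := fun h => by
    have := congrFun h i₀
    rw [hβi] at this
    exact one_ne_zero this
  have hVβ : InZ V β := by
    intro g hg
    obtain ⟨e, he⟩ := hV g hg
    rw [hβ, eval_smul_form he, hβV g hg, mul_zero]
  have hEβ : ¬ InZ E β := by
    intro h
    apply hβE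
    intro g hg
    obtain ⟨e, he⟩ := hE g hg
    have := h g hg
    rw [hβ, eval_smul_form he] at this
    exact (mul_eq_zero.1 this).resolve_left (pow_ne_zero _ hu0)
  have hyu : ∀ n, ‖y n i₀‖ = 1 := fun n => norm_eq_one_of_congr (hyβ n i₀) hi₀
  refine stage2 hp3 (itp F K) (d ^ K) (pow_pos hd K) (itp_homogeneous hF K) β i₀ hβi c hc1 hfix y
    (fun n => by rw [hy, ev_itp]) hyu ⟨1, fun n i => ?_⟩ (fun n h => ?_) V E hV hE hEβ
    (fun k hk => ?_) ?_
  · obtain ⟨s, hs⟩ := hyf n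
    rw [one_mul]
    have h1 : y n i - y n i₀ * β i = (y n i - s * β₁ i) - (y n i₀ - s * β₁ i₀) * β i := by
      have h2 : β₁ i = β₁ i₀ * β i := congrFun hβ₁ i
      rw [h2]
      ring
    rw [h1, sub_eq_add_neg]
    refine (PadicInt.nonarchimedean (y n i - s * β₁ i) (-((y n i₀ - s * β₁ i₀) * β i))).trans ?_
    rw [norm_neg, norm_mul]
    refine max_le (hs i) ?_
    calc ‖y n i₀ - s * β₁ i₀‖ * ‖β i‖ ≤ ((p : ℝ)⁻¹) ^ n * 1 :=
          mul_le_mul (hs i₀) (PadicInt.norm_le_one _) (norm_nonneg _) (by positivity)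
      _ = _ := mul_one _
  · -- the orbit is not on the line
    obtain ⟨v, hv⟩ := PadicInt.isUnit_iff.2 (hyu n)
    obtain ⟨s, hs, hsv⟩ : ∃ s, y n = s • β ∧ ((v⁻¹ : ℤ_[p]ˣ) : ℤ_[p]) * s = 1 :=
      ⟨y n i₀, h, by rw [← hv, Units.inv_mul]⟩
    apply hnp n (s ^ (d ^ K) * c * ↑v⁻¹)
    rw [hy, hs, ev_iterate_smul F hF, hfixv]
    funext i
    simp only [Pi.smul_apply, smul_eq_mul]
    linear_combination -(s ^ (d ^ K) * c * β i) * hsv
  · obtain ⟨B, hB⟩ := hfin (K * k) (Nat.mul_pos hK hk)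
    refine ⟨B, fun z hz h1 h2 => hB z hz (fun n => ?_) h2⟩
    have h3 := h1 n
    have h4 : ev (cp (itp F K)) = (ev (cp F))^[K] := by
      have : cp (itp F K) = itp (cp F) K := by
        funext i
        exact map_itp (io p) F K i
      rw [this]
      funext z
      exact ev_itp _ _ _
    rwa [h4, ← Function.iterate_mul, ← mul_assoc] at h3
  · rw [jac_itp]
    exact hrank β hβ0 hVβ hEβ K hK c hfixv

theorem stage1 {p : ℕ} [Fact p.Prime] (hp3 : 3 ≤ p) {σ : Type} [Fintype σ] [DecidableEq σ]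
    (F : σ → MvPolynomial σ ℤ_[p]) (d : ℕ) (hd : 0 < d) (hF : ∀ i, (F i).IsHomogeneous d)
    (V E : Set (MvPolynomial σ ℤ_[p])) (hV : ∀ g ∈ V, ∃ e : ℕ, g.IsHomogeneous e)
    (hE : ∀ g ∈ E, ∃ e : ℕ, g.IsHomogeneous e)
    (hfin : ∀ k, 1 ≤ k → ∃ B : Finset (σ → ℂ_[p]), ∀ z : σ → ℂ_[p], z ≠ 0 →
      (∀ n, InZ (MvPolynomial.map (io p) '' V) ((ev (cp F))^[k * n] z)) →
      ¬ InZ (MvPolynomial.map (io p) '' E) z → ∃ b ∈ B, ∃ c : ℂ_[p], z = c • b)
    (hrank : ∀ z : σ → ℤ_[p], z ≠ 0 → InZ V z → ¬ InZ E z → ∀ k, 1 ≤ k → ∀ c : ℤ_[p],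
      (ev F)^[k] z = c • z → Fintype.card σ ≤ (((jprod F z k).map (io p)) ^ 2).rank + 1)
    (α : σ → ℤ_[p]) (hαE : ∀ n, ∃ g ∈ E, ‖eval ((ev F)^[n] α) g‖ = 1)
    (hαp : ∀ n, ∃ i, ‖(ev F)^[n] α i‖ = 1)
    (hnp : ∀ n k, 1 ≤ k → ∀ c : ℤ_[p], (ev F)^[n + k] α ≠ c • (ev F)^[n] α) :
    Sparse {n | InZ V ((ev F)^[n] α)} := by
  classical
  have hpp : p.Prime := Fact.out
  have hp0 : (0 : ℝ) < (p : ℝ)⁻¹ := inv_pos.2 (by exact_mod_cast hpp.pos)
  have hp1 : (p : ℝ)⁻¹ < 1 := inv_lt_one_of_one_lt₀ (by exact_mod_cast hpp.one_lt)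
  set y : ℕ → σ → ℤ_[p] := fun n => (ev F)^[n] α with hydef
  have hyadd : ∀ n m, y (n + m) = (ev F)^[m] (y n) := by
    intro n m
    simp only [hydef]
    rw [add_comm, Function.iterate_add_apply]
  obtain ⟨e, he, hdisc⟩ := disc p σ
  obtain ⟨n₀, k, hk, hper⟩ := exists_mod_period y
  set L := k * e with hL
  have hL1 : 1 ≤ L := Nat.mul_pos hk he
  have hperm : ∀ m r, ∀ i, ‖y (n₀ + m + k * r) i - y (n₀ + m) i‖ < 1 := by
    intro m r
    induction r with
    | zero => intro i; simp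
    | succ r ih =>
      intro i
      have h1 : ∀ i, ‖y (n₀ + k + (m + k * r)) i - y (n₀ + (m + k * r)) i‖ < 1 := by
        have h0 := ev_iterate_congr F hper (m + k * r)
        rwa [← hyadd, ← hyadd] at h0
      have h2 := h1 i
      rw [show n₀ + k + (m + k * r) = n₀ + m + k * (r + 1) by ring,
        show n₀ + (m + k * r) = n₀ + m + k * r by ring] at h2
      exact congr_trans h2 (ih i)
  refine Sparse.of_classes n₀ L hL1 fun i hi => ?_
  set b : σ → ℤ_[p] := y (n₀ + i) with hb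
  have hevk : ev (itp F k) = (ev F)^[k] := by
    funext z
    exact ev_itp _ _ _
  have hiter : ∀ n, (ev (itp F k))^[e * n] b = y (n₀ + i + L * n) := by
    intro n
    rw [hevk, ← Function.iterate_mul, ← mul_assoc, ← hL, hb, ← hyadd]
  obtain ⟨f, hf1, hf2, hf3⟩ := hdisc (itp F k) b b
    (by
      intro j
      rw [hevk, hb, ← hyadd]
      have := hperm i 1 j
      rwa [mul_one] at this)
    (by intro j; simp)
  simp only [hiter] at hf2 hf3
  have hcls : ∀ n j, ‖y (n₀ + i + L * n) j - b j‖ < 1 := by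
    intro n j
    have := hperm i (e * n) j
    rwa [← mul_assoc] at this
  -- the limits lie in the same residue class
  have hfb : ∀ m j, ‖f m j - b j‖ < 1 := by
    intro m j
    have h1 := hf3 m j
    rw [Metric.tendsto_atTop] at h1
    obtain ⟨N, hN⟩ := h1 1 zero_lt_one
    have h2 := hN N le_rfl
    rw [dist_eq_norm, norm_sub_rev] at h2
    exact congr_trans h2 (hcls _ j)
  have hfbE : ∀ m, ¬ InZ E (f m) := by
    intro m h
    obtain ⟨g, hg, hg1⟩ := hαE (n₀ + i)
    have h1 := norm_eq_one_of_congr (eval_congr g (hfb m)) hg1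
    rw [h g hg, norm_zero] at h1
    exact zero_ne_one h1
  have hfprim : ∀ m, ∃ j, ‖f m j‖ = 1 := by
    intro m
    obtain ⟨j, hj⟩ := hαp (n₀ + i)
    exact ⟨j, norm_eq_one_of_congr (hfb m j) hj⟩
  -- the limits form an orbit
  have hfstep1 : ∀ m, f (m + 1) = (ev F)^[L] (f m) := by
    intro m
    funext j
    have h1 := hf3 (m + 1) j
    have h2 : Tendsto (fun r => y (n₀ + i + L * (m + 1 + p ^ r)) j) atTop
        (𝓝 ((ev F)^[L] (f m) j)) := by
      have h3 : ∀ r, y (n₀ + i + L * (m + 1 + p ^ r)) j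
          = eval (y (n₀ + i + L * (m + p ^ r))) (itp F L j) := by
        intro r
        rw [show n₀ + i + L * (m + 1 + p ^ r) = n₀ + i + L * (m + p ^ r) + L by ring, hyadd]
        exact (congrFun (ev_itp F L _) j).symm
      simp only [h3]
      have h4 : (ev F)^[L] (f m) j = eval (f m) (itp F L j) :=
        (congrFun (ev_itp F L _) j).symm
      rw [h4]
      have h5 : Continuous fun z : σ → ℤ_[p] => eval z (itp F L j) :=
        MvPolynomial.continuous_eval _
      exact (h5.tendsto (f m)).comp (tendsto_pi_nhds.2 (hf3 m))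
    exact tendsto_nhds_unique h1 h2
  have hfstep : ∀ m r, f (m + r) = (ev F)^[L * r] (f m) := by
    intro m r
    induction r with
    | zero => rfl
    | succ r ih =>
      rw [← add_assoc, hfstep1, ih, ← Function.iterate_add_apply,
        show L + L * r = L * (r + 1) by ring]
  by_cases hall : ∀ m, InZ V (f m)
  swap
  · -- an analytic function which does not vanish identically
    push Not at hall
    obtain ⟨m, hm⟩ := hall
    have hm' : ∃ g ∈ V, eval (f m) g ≠ 0 := by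
      by_contra hcon
      push Not at hcon
      exact hm hcon
    obtain ⟨g, hg, hgm⟩ := hm'
    set f' : ℕ → σ → ℂ_[p] := fun n j => io p (f n j) with hf'
    have hdiff : ∀ (h : ℕ → ℤ_[p]) (r n : ℕ),
        (fwdDiff 1)^[r] (fun n => io p (h n)) n = io p ((fwdDiff 1)^[r] h n) := by
      intro h r
      induction r generalizing h with
      | zero => intro n; rfl
      | succ r ih =>
        intro n
        rw [Function.iterate_succ_apply, Function.iterate_succ_apply]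
        have : fwdDiff 1 (fun n => io p (h n)) = fun n => io p (fwdDiff 1 h n) := by
          funext n
          simp only [fwdDiff, map_sub]
        rw [this, ih]
    have hA : ∀ j, Adic (p : ℝ)⁻¹ (fun n => f' n j) := by
      intro j
      refine ⟨1, fun r n => ?_⟩
      have := hdiff (fun n => f n j) r n
      simp only [hf']
      rw [this, norm_io, one_mul]
      exact hf1 j r n
    have hA2 := Adic.eval hp0.le hA (MvPolynomial.map (io p) g)
    have hs := sparse_of_adic hp3 (norm_p_Cp p) hA2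
      ⟨m, by
        simp only [hf']
        rw [eval_io]
        intro h
        exact hgm ((map_eq_zero_iff _ (io_injective p)).1 h)⟩ (C := 1) hp0 hp1
    refine hs.mono fun n hn => ?_
    have h1 : eval (y (n₀ + i + L * n)) g = 0 := hn g hg
    have h2 := norm_eval_sub_le g (pow_nonneg hp0.le n) (hf2 n)
    rw [h1, zero_sub, norm_neg] at h2
    show ‖eval (f' n) (MvPolynomial.map (io p) g)‖ ≤ 1 * ((p : ℝ)⁻¹) ^ n
    simp only [hf']
    rw [eval_io, norm_io, one_mul]
    exact h2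
  · -- everything lies in `V`: use finiteness
    obtain ⟨B, hB⟩ := hfin L hL1
    have hline : ∀ m, ∃ b' ∈ B, ∃ c : ℂ_[p], (fun j => io p (f m j)) = c • b' := by
      intro m
      apply hB
      · intro h
        obtain ⟨j, hj⟩ := hfprim m
        have := congrFun h j
        simp only [Pi.zero_apply] at this
        rw [(map_eq_zero_iff _ (io_injective p)).1 this, norm_zero] at hj
        exact zero_ne_one hj
      · intro n
        have h1 : (ev (cp F))^[L * n] (fun j => io p (f m j)) = fun j => io p (f (m + n) j) := by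
          rw [hfstep]
          exact ev_iterate_map (io p) F (L * n) (f m)
        rw [h1, inZ_io]
        exact hall _
      · rw [inZ_io]
        exact hfbE m
    choose bb hbB cc hcc using hline
    obtain ⟨m₁, m₂, hm12, hbb⟩ := Finite.exists_ne_map_eq_of_infinite
      (fun m => (⟨bb m, hbB m⟩ : {x // x ∈ B}))
    have key : ∃ n₂ k₂ : ℕ, 1 ≤ k₂ ∧ ∃ t : ℤ_[p], ‖t‖ = 1 ∧ f (n₂ + k₂) = t • f n₂ := by
      have aux : ∀ m₁ m₂ : ℕ, m₁ < m₂ → bb m₁ = bb m₂ →
          ∃ n₂ k₂ : ℕ, 1 ≤ k₂ ∧ ∃ t : ℤ_[p], ‖t‖ = 1 ∧ f (n₂ + k₂) = t • f n₂ := by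
        intro m₁ m₂ h12 hb12
        refine ⟨m₁, m₂ - m₁, by omega, ?_⟩
        rw [show m₁ + (m₂ - m₁) = m₂ by omega]
        obtain ⟨j, hj⟩ := hfprim m₁
        obtain ⟨v, hv⟩ := PadicInt.isUnit_iff.2 hj
        -- cross products vanish
        have hcross : ∀ l, f m₂ l * f m₁ j = f m₂ j * f m₁ l := by
          intro l
          apply io_injective p
          rw [map_mul, map_mul]
          have e1 := congrFun (hcc m₁) l
          have e2 := congrFun (hcc m₁) j
          have e3 := congrFun (hcc m₂) l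
          have e4 := congrFun (hcc m₂) j
          rw [← hb12] at e3 e4
          simp only [Pi.smul_apply, smul_eq_mul] at e1 e2 e3 e4
          rw [e1, e2, e3, e4]
          ring
        have hft : f m₂ = (f m₂ j * ↑v⁻¹) • f m₁ := by
          funext l
          simp only [Pi.smul_apply, smul_eq_mul]
          have hvv : ((v⁻¹ : ℤ_[p]ˣ) : ℤ_[p]) * f m₁ j = 1 := by rw [← hv, Units.inv_mul]
          have := hcross l
          calc f m₂ l = f m₂ l * (((v⁻¹ : ℤ_[p]ˣ) : ℤ_[p]) * f m₁ j) := by rw [hvv, mul_one]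
            _ = (f m₂ l * f m₁ j) * ((v⁻¹ : ℤ_[p]ˣ) : ℤ_[p]) := by ring
            _ = _ := by rw [this]; ring
        refine ⟨_, ?_, hft⟩
        obtain ⟨l, hl⟩ := hfprim m₂
        have h1 := congrFun hft l
        simp only [Pi.smul_apply, smul_eq_mul] at h1
        have h2 := congrArg norm h1
        rw [hl, norm_mul] at h2
        have h3 := PadicInt.norm_le_one (f m₂ j * ((v⁻¹ : ℤ_[p]ˣ) : ℤ_[p]))
        have h4 := PadicInt.norm_le_one (f m₁ l)
        have h5 := norm_nonneg (f m₂ j * ((v⁻¹ : ℤ_[p]ˣ) : ℤ_[p]))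
        have h6 := norm_nonneg (f m₁ l)
        apply le_antisymm h3
        nlinarith
      have hbb' : bb m₁ = bb m₂ := congrArg Subtype.val hbb
      rcases lt_or_gt_of_ne hm12 with h | h
      · exact aux m₁ m₂ h hbb'
      · exact aux m₂ m₁ h hbb'.symm
    obtain ⟨n₂, k₂, hk₂, t, ht, hft⟩ := key
    refine Sparse.of_classes n₂ k₂ hk₂ fun j hj => ?_
    -- powers of the return map
    have hpow : ∀ r, ∃ s : ℤ_[p], f (n₂ + j + k₂ * r) = s • f (n₂ + j) := by
      intro r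
      induction r with
      | zero => exact ⟨1, by simp⟩
      | succ r ih =>
        obtain ⟨s, hs⟩ := ih
        have h1 : f (n₂ + j + k₂ * (r + 1)) = (ev F)^[L * k₂] (f (n₂ + j + k₂ * r)) := by
          rw [← hfstep]
          congr 1
          ring
        have h2 : (ev F)^[L * k₂] (f (n₂ + j)) = t ^ (d ^ (L * j)) • f (n₂ + j) := by
          rw [← hfstep, show n₂ + j + k₂ = n₂ + k₂ + j by ring, hfstep, hft,
            ev_iterate_smul F hF, hfstep]
        refine ⟨s ^ (d ^ (L * k₂)) * t ^ (d ^ (L * j)), ?_⟩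
        rw [h1, hs, ev_iterate_smul F hF, h2, smul_smul]
    have hret : (ev F)^[L * k₂] (f (n₂ + j)) = t ^ (d ^ (L * j)) • f (n₂ + j) := by
      rw [← hfstep, show n₂ + j + k₂ = n₂ + k₂ + j by ring, hfstep, hft,
        ev_iterate_smul F hF, hfstep]
    have hres := stage1_fixed hp3 F d hd hF V E hV hE hfin hrank (L * k₂)
      (Nat.mul_pos hL1 hk₂) (f (n₂ + j)) (t ^ (d ^ (L * j))) (by rw [norm_pow, ht, one_pow]) hret
      (hall _) (hfbE _) (hfprim _) (fun r => y (n₀ + i + L * (n₂ + j + k₂ * r)))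
      (fun r => by
        rw [← hyadd]
        congr 1
        ring)
      (fun r l => congr_trans (hcls _ l) (congr_symm (hfb _ l)))
      (fun r => by
        obtain ⟨s, hs⟩ := hpow r
        refine ⟨s, fun l => ?_⟩
        have h1 : s * f (n₂ + j) l = f (n₂ + j + k₂ * r) l := by rw [hs]; rfl
        rw [h1]
        refine (hf2 _ l).trans (pow_le_pow_of_le_one hp0.le hp1.le ?_)
        nlinarith)
      (fun r c h => by
        have h1 := hnp (n₀ + i + L * (n₂ + j + k₂ * r)) (L * k₂) (Nat.mul_pos hL1 hk₂) c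
        apply h1
        rw [show n₀ + i + L * (n₂ + j + k₂ * r) + L * k₂
          = n₀ + i + L * (n₂ + j + k₂ * (r + 1)) by ring]
        exact h)
    exact hres

end Pool.Agent.Helper33.SS
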