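import Pool.Agent.Helper33.SS.Defs

/-!
# Super-sparse sets: closure properties (SS-2)
-/

set_option autoImplicit false

namespace Pool.Agent.Helper33.SS

theorem Sparse.mono {S T : Set ℕ} (hT : Sparse T) (h : S ⊆ T) : Sparse S := by
  obtain ⟨A, c, R, hA, hc, H⟩ := hT
  refine ⟨A, c, R, hA, hc, fun n m hm => le_trans ?_ (H n m hm)⟩
  exact Set.ncard_le_ncard (Set.inter_subset_inter_left _ h)
    ((Set.finite_Icc n m).subset Set.inter_subset_right)

theorem Sparse.union {S T : Set ℕ} (hS : Sparse S) (hT : Sparse T) : Sparse (S ∪ T) := by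
  obtain ⟨A₁, c₁, R₁, hA₁, hc₁, H₁⟩ := hS
  obtain ⟨A₂, c₂, R₂, hA₂, hc₂, H₂⟩ := hT
  refine ⟨min A₁ A₂, min c₁ c₂, R₁ + R₂, lt_min hA₁ hA₂, lt_min hc₁ hc₂, fun n m hm => ?_⟩
  have h0 : (0 : ℝ) ≤ min A₁ A₂ := le_trans zero_le_one (lt_min hA₁ hA₂).le
  have hp : (0 : ℝ) ≤ (min A₁ A₂) ^ n := pow_nonneg h0 n
  have h1 : (m : ℝ) ≤ c₁ * A₁ ^ n :=
    hm.trans (mul_le_mul (min_le_left _ _) (pow_le_pow_left₀ h0 (min_le_left _ _) n) hp hc₁.le)
  have h2 : (m : ℝ) ≤ c₂ * A₂ ^ n :=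
    hm.trans (mul_le_mul (min_le_right _ _) (pow_le_pow_left₀ h0 (min_le_right _ _) n) hp hc₂.le)
  rw [Set.union_inter_distrib_right]
  exact (Set.ncard_union_le _ _).trans (add_le_add (H₁ n m h1) (H₂ n m h2))

theorem Sparse.of_finite {S : Set ℕ} (hS : S.Finite) : Sparse S := by
  refine ⟨2, 1, S.ncard, one_lt_two, one_pos, fun n m _ => ?_⟩
  exact Set.ncard_le_ncard Set.inter_subset_left hS

theorem Sparse.iUnion {ι : Type*} [Finite ι] {S : ι → Set ℕ} (hS : ∀ i, Sparse (S i)) :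
    Sparse (⋃ i, S i) := by
  classical
  have := Fintype.ofFinite ι
  have key : ∀ s : Finset ι, Sparse (⋃ i ∈ s, S i) := by
    intro s
    induction s using Finset.induction_on with
    | empty => exact Sparse.of_finite (by simp)
    | insert a s ha ih =>
      rw [Finset.set_biUnion_insert]
      exact (hS a).union ih
  refine (key Finset.univ).mono ?_
  intro x hx
  obtain ⟨i, hi⟩ := Set.mem_iUnion.1 hx
  exact Set.mem_biUnion (Finset.mem_coe.2 (Finset.mem_univ i)) hi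

/-- The image of a super-sparse set under an affine map. -/
private theorem sparse_affine {T : Set ℕ} (hT : Sparse T) (a k : ℕ) (hk : 0 < k) :
    Sparse ((fun m => a + k * m) '' T) := by
  obtain ⟨A, c, R, hA, hc, H⟩ := hT
  have hA0 : (0 : ℝ) < A := zero_lt_one.trans hA
  obtain ⟨B, hB1, hBk⟩ : ∃ B : ℝ, 1 < B ∧ B ^ k = A := by
    refine ⟨A ^ ((k : ℝ)⁻¹), ?_, ?_⟩
    · exact Real.one_lt_rpow hA (by positivity)
    · exact Real.rpow_inv_natCast_pow hA0.le hk.ne'
  have hB0 : (0 : ℝ) < B := zero_lt_one.trans hB1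
  have hBa : (0 : ℝ) < B ^ (a + k) := pow_pos hB0 _
  refine ⟨B, c / B ^ (a + k), R, hB1, by positivity, fun n m hm => ?_⟩
  have hn : n ≤ k * ((n - a) / k) + (a + k) := by
    have h1 := Nat.div_add_mod (n - a) k
    have h2 := Nat.mod_lt (n - a) hk
    omega
  have hm' : (m : ℝ) ≤ c * A ^ ((n - a) / k) := by
    refine hm.trans ?_
    have h3 : B ^ n ≤ A ^ ((n - a) / k) * B ^ (a + k) := by
      rw [← hBk, ← pow_mul, ← pow_add]
      exact pow_le_pow_right₀ hB1.le hn
    calc c / B ^ (a + k) * B ^ n ≤ c / B ^ (a + k) * (A ^ ((n - a) / k) * B ^ (a + k)) :=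
          mul_le_mul_of_nonneg_left h3 (by positivity)
      _ = c * A ^ ((n - a) / k) := by
          field_simp
  have hsub : (fun m => a + k * m) '' T ∩ Set.Icc n m ⊆
      (fun m => a + k * m) '' (T ∩ Set.Icc ((n - a) / k) m) := by
    rintro x ⟨⟨t, ht, rfl⟩, hx1, hx2⟩
    refine ⟨t, ⟨ht, ?_, ?_⟩, rfl⟩
    · dsimp only at hx1
      rw [Nat.div_le_iff_le_mul_add_pred hk]
      omega
    · dsimp only at hx2
      have : t ≤ k * t := Nat.le_mul_of_pos_left t hk
      omega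
  have hfin : (T ∩ Set.Icc ((n - a) / k) m).Finite :=
    (Set.finite_Icc _ _).subset Set.inter_subset_right
  exact (Set.ncard_le_ncard hsub (hfin.image _)).trans
    ((Set.ncard_image_le hfin).trans (H _ _ hm'))

/-- a set which is super-sparse in every residue class modulo `k` (from `n₀` on) is
super-sparse -/
theorem Sparse.of_classes {S : Set ℕ} (n₀ k : ℕ) (hk : 0 < k)
    (h : ∀ i < k, Sparse {m | n₀ + i + k * m ∈ S}) : Sparse S := by
  have h1 : Sparse (⋃ i : Fin k, (fun m => n₀ + (i : ℕ) + k * m) '' {m | n₀ + (i : ℕ) + k * m ∈ S}) :=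
    Sparse.iUnion fun i => sparse_affine (h i i.2) _ k hk
  refine ((Sparse.of_finite (Set.finite_Iio n₀)).union h1).mono ?_
  intro s hs
  rcases lt_or_ge s n₀ with hlt | hge
  · exact Or.inl hlt
  · right
    rw [Set.mem_iUnion]
    refine ⟨⟨(s - n₀) % k, Nat.mod_lt _ hk⟩, (s - n₀) / k, ?_, ?_⟩
    · have h2 : n₀ + (s - n₀) % k + k * ((s - n₀) / k) = s := by
        have := Nat.mod_add_div (s - n₀) k
        omega
      change n₀ + (s - n₀) % k + k * ((s - n₀) / k) ∈ S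
      rw [h2]
      exact hs
    · change n₀ + (s - n₀) % k + k * ((s - n₀) / k) = s
      have := Nat.mod_add_div (s - n₀) k
      omega

end Pool.Agent.Helper33.SS
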