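import Pool.Agent.Helper33.SS.Defs

/-!
# Near zeros of analytic functions are super-sparse (SS-3)
-/

set_option autoImplicit false

namespace Pool.Agent.Helper33.SS

open Polynomial in
/-- Divided differences. With `c k = (Δ^k f) 0` and `b k = c k / k !`, if `b R ≠ 0` is the last
coefficient of maximal norm, then for every set `s` of `R + 1` naturals some `j ∈ s` satisfies
`‖b R‖ * ∏_{i ∈ s, i ≠ j} ‖(j : K) - i‖ ≤ ‖f j‖`. Proof: on `s` the function `f` agrees with the
polynomial `∑_{k ≤ max s} b k * descPochhammer k`; reduce it modulo the monic integral polynomial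
`∏_{i ∈ s} (X - i)` (the coefficient of `X ^ R` of the remainder has norm `‖b R‖`) and use Lagrange
interpolation for this coefficient. -/
theorem divided_difference {K : Type*} [NormedField K] [IsUltrametricDist K] [CharZero K]
    (f : ℕ → K) (R : ℕ)
    (h1 : ∀ k, ‖(fwdDiff 1)^[k] f 0 / (k.factorial : K)‖
      ≤ ‖(fwdDiff 1)^[R] f 0 / (R.factorial : K)‖)
    (s : Finset ℕ) (hs : s.card = R + 1)
    (h2 : ∀ k, R < k → ‖(fwdDiff 1)^[k] f 0 / (k.factorial : K)‖
      < ‖(fwdDiff 1)^[R] f 0 / (R.factorial : K)‖) :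
    ∃ j ∈ s, ‖(fwdDiff 1)^[R] f 0 / (R.factorial : K)‖ * ∏ i ∈ s.erase j, ‖(j : K) - i‖
      ≤ ‖f j‖ := by
  classical
  set b : ℕ → K := fun k => (fwdDiff 1)^[k] f 0 / (k.factorial : K) with hb
  change ∃ j ∈ s, ‖b R‖ * ∏ i ∈ s.erase j, ‖(j : K) - i‖ ≤ ‖f j‖
  have hb2 : ∀ k, R < k → ‖b k‖ < ‖b R‖ := h2
  have hbR : 0 < ‖b R‖ := lt_of_le_of_lt (norm_nonneg _) (hb2 (R + 1) (Nat.lt_succ_self R))
  set N := s.sup id with hN
  have hsN : ∀ j ∈ s, j ≤ N := fun j hj => Finset.le_sup (f := id) hj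
  have hRN : R ≤ N := by
    have : s ⊆ Finset.range (N + 1) := fun j hj => Finset.mem_range.2 (Nat.lt_succ_of_le (hsN j hj))
    have := Finset.card_le_card this
    rw [hs, Finset.card_range] at this
    omega
  set W : ℤ[X] := ∏ i ∈ s, (X - C (i : ℤ)) with hW
  have hWm : W.Monic := monic_prod_of_monic _ _ (fun i _ => monic_X_sub_C _)
  have hWd : W.natDegree = R + 1 := by
    rw [hW, natDegree_prod_of_monic _ _ (fun i _ => monic_X_sub_C _)]
    calc ∑ i ∈ s, (X - C (i : ℤ)).natDegree = ∑ i ∈ s, 1 :=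
          Finset.sum_congr rfl (fun i _ => natDegree_X_sub_C (i : ℤ))
      _ = R + 1 := by rw [Finset.sum_const, hs, smul_eq_mul, mul_one]
  have hWdeg : W.degree = ((R + 1 : ℕ) : WithBot ℕ) := by
    rw [degree_eq_natDegree hWm.ne_zero, hWd]
  have hWe : ∀ j ∈ s, W.eval (j : ℤ) = 0 := by
    intro j hj
    rw [hW, eval_prod]
    exact Finset.prod_eq_zero hj (by simp)
  set q : ℕ → ℤ[X] := fun k => descPochhammer ℤ k %ₘ W with hq
  have hqd : ∀ k, (q k).degree < ((R + 1 : ℕ) : WithBot ℕ) := fun k =>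
    hWdeg ▸ degree_modByMonic_lt _ hWm
  have hqe : ∀ k, ∀ j ∈ s, (q k).eval (j : ℤ) = (descPochhammer ℤ k).eval (j : ℤ) := by
    intro k j hj
    have h := congrArg (Polynomial.eval (j : ℤ)) (modByMonic_add_div (descPochhammer ℤ k) W)
    rw [eval_add, eval_mul, hWe j hj, zero_mul, add_zero] at h
    exact h
  have hqlow : ∀ k, k ≤ R → q k = descPochhammer ℤ k := by
    intro k hk
    refine (modByMonic_eq_self_iff hWm).2 ?_
    rw [hWdeg, degree_eq_natDegree (monic_descPochhammer ℤ k).ne_zero, descPochhammer_natDegree]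
    exact_mod_cast Nat.lt_succ_of_le hk
  have hqc1 : ∀ k, k < R → (q k).coeff R = 0 := by
    intro k hk
    rw [hqlow k hk.le]
    exact coeff_eq_zero_of_natDegree_lt (by rw [descPochhammer_natDegree]; exact hk)
  have hqc2 : (q R).coeff R = 1 := by
    rw [hqlow R le_rfl]
    have h := monic_descPochhammer ℤ R
    rw [Monic, leadingCoeff, descPochhammer_natDegree] at h
    exact h
  set Q : K[X] := ∑ k ∈ Finset.range (N + 1), C (b k) * (q k).map (Int.castRingHom K) with hQ
  have hQd : Q.degree < (s.card : WithBot ℕ) := by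
    rw [hs]
    refine lt_of_le_of_lt (degree_sum_le _ _) ?_
    rw [Finset.sup_lt_iff (WithBot.bot_lt_coe _)]
    intro k _
    refine lt_of_le_of_lt (degree_mul_le _ _) ?_
    refine lt_of_le_of_lt (add_le_add degree_C_le (degree_map_le)) ?_
    rw [zero_add]
    exact hqd k
  have hQe : ∀ j ∈ s, Q.eval (j : K) = f j := by
    intro j hj
    rw [hQ, eval_finsetSum]
    have h3 : f j = ∑ k ∈ Finset.range (j + 1), j.choose k • (fwdDiff 1)^[k] f 0 := by
      have := shift_eq_sum_fwdDiff_iter (1 : ℕ) f j 0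
      simpa using this
    have h4 : ∀ k, (C (b k) * (q k).map (Int.castRingHom K)).eval (j : K)
        = j.choose k • (fwdDiff 1)^[k] f 0 := by
      intro k
      rw [eval_mul, eval_C, eval_map]
      have h5 : (q k).eval₂ (Int.castRingHom K) (j : K) = (((q k).eval (j : ℤ) : ℤ) : K) := by
        have := (q k).eval₂_at_apply (Int.castRingHom K) (j : ℤ)
        simpa using this
      rw [h5, hqe k j hj]
      have h6 : (descPochhammer ℤ k).eval (j : ℤ) = ((j.descFactorial k : ℕ) : ℤ) := by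
        rw [descPochhammer_eval_eq_descFactorial]
      rw [h6, Nat.descFactorial_eq_factorial_mul_choose, nsmul_eq_mul, hb]
      have hk0 : (k.factorial : K) ≠ 0 := by exact_mod_cast k.factorial_ne_zero
      push_cast
      field_simp
    rw [Finset.sum_congr rfl (fun k _ => h4 k), h3]
    symm
    refine Finset.sum_subset ?_ ?_
    · intro k hk
      rw [Finset.mem_range] at hk ⊢
      have := hsN j hj
      omega
    · intro k _ hk
      rw [Finset.mem_range, not_lt] at hk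
      rw [Nat.choose_eq_zero_of_lt (by omega), zero_smul]
  have hinj : Set.InjOn (fun i : ℕ => (i : K)) s := fun a _ c _ h => Nat.cast_injective h
  have hco := Lagrange.coeff_eq_sum hinj hQd
  rw [hs, Nat.add_sub_cancel] at hco
  have hint : ∀ z : ℤ, ‖(z : K)‖ ≤ 1 := fun z => IsUltrametricDist.norm_intCast_le_one K z
  have hQc : ‖Q.coeff R‖ = ‖b R‖ := by
    have h7 : Q.coeff R = ∑ k ∈ Finset.range (N + 1), b k * (((q k).coeff R : ℤ) : K) := by
      rw [hQ, finsetSum_coeff]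
      refine Finset.sum_congr rfl fun k _ => ?_
      rw [coeff_C_mul, coeff_map]
      rfl
    rw [h7, ← Finset.add_sum_erase _ _ (Finset.mem_range.2 (Nat.lt_succ_of_le hRN)), hqc2]
    have h8 : ‖∑ k ∈ (Finset.range (N + 1)).erase R, b k * (((q k).coeff R : ℤ) : K)‖
        < ‖b R‖ := by
      rcases ((Finset.range (N + 1)).erase R).eq_empty_or_nonempty with he | hne
      · rw [he]; simpa using hbR
      · obtain ⟨k, hk, hle⟩ := IsUltrametricDist.exists_norm_finsetSum_le_of_nonempty hne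
          (fun k => b k * (((q k).coeff R : ℤ) : K))
        refine lt_of_le_of_lt hle ?_
        rw [Finset.mem_erase] at hk
        rcases lt_or_gt_of_ne hk.1 with hlt | hgt
        · rw [hqc1 k hlt]; simpa using hbR
        · rw [norm_mul]
          calc ‖b k‖ * ‖(((q k).coeff R : ℤ) : K)‖ ≤ ‖b k‖ * 1 :=
                mul_le_mul_of_nonneg_left (hint _) (norm_nonneg _)
            _ = ‖b k‖ := mul_one _
            _ < ‖b R‖ := hb2 k hgt
    rw [Int.cast_one, mul_one, IsUltrametricDist.norm_add_eq_max_of_norm_ne_norm h8.ne',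
      max_eq_left h8.le]
  have hne : s.Nonempty := by
    rw [← Finset.card_pos, hs]; omega
  obtain ⟨j, hj, hle⟩ := IsUltrametricDist.exists_norm_finsetSum_le_of_nonempty hne
    (fun i => Q.eval ((i : ℕ) : K) / ∏ l ∈ s.erase i, ((i : K) - (l : K)))
  refine ⟨j, hj, ?_⟩
  have h9 : ‖b R‖ ≤ ‖Q.eval (j : K) / ∏ l ∈ s.erase j, ((j : K) - (l : K))‖ := by
    rw [← hQc, hco]
    exact hle
  rw [hQe j hj] at h9
  rw [norm_div (f j), norm_prod] at h9
  have hpos : 0 < ∏ l ∈ s.erase j, ‖(j : K) - (l : K)‖ := by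
    refine Finset.prod_pos fun l hl => ?_
    rw [norm_pos_iff, sub_ne_zero]
    have := (Finset.mem_erase.1 hl).1
    exact fun h => this (by exact_mod_cast h.symm)
  exact (le_div_iff₀ hpos).1 h9

section aux

variable {p : ℕ} [Fact p.Prime] {K : Type*} [NormedField K] [IsUltrametricDist K] [CharZero K]

/-- Norm one for integers prime to `p`. -/
theorem norm_cast_eq_one_of_coprime (hp : ‖(p : K)‖ = (p : ℝ)⁻¹) {n : ℕ} (hn : n.Coprime p) :
    ‖(n : K)‖ = 1 := by
  have hp1 : 1 < (p : ℝ) := by exact_mod_cast (Fact.out : p.Prime).one_lt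
  have hint : ∀ z : ℤ, ‖(z : K)‖ ≤ 1 := fun z => IsUltrametricDist.norm_intCast_le_one K z
  refine le_antisymm (by simpa using hint (n : ℤ)) ?_
  by_contra hlt
  rw [not_le] at hlt
  have hb := Nat.gcd_eq_gcd_ab n p
  rw [Nat.Coprime] at hn
  rw [hn] at hb
  have h1 : (1 : K) = (n : K) * ((n.gcdA p : ℤ) : K) + (p : K) * ((n.gcdB p : ℤ) : K) := by
    have := congrArg (Int.cast : ℤ → K) hb
    push_cast at this
    exact this
  have h2 : ‖(n : K) * ((n.gcdA p : ℤ) : K)‖ < 1 := by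
    rw [norm_mul]
    calc ‖(n : K)‖ * ‖((n.gcdA p : ℤ) : K)‖ ≤ ‖(n : K)‖ * 1 :=
          mul_le_mul_of_nonneg_left (hint _) (norm_nonneg _)
      _ < 1 := by rw [mul_one]; exact hlt
  have h3 : ‖(p : K) * ((n.gcdB p : ℤ) : K)‖ < 1 := by
    rw [norm_mul, hp]
    calc (p : ℝ)⁻¹ * ‖((n.gcdB p : ℤ) : K)‖ ≤ (p : ℝ)⁻¹ * 1 :=
          mul_le_mul_of_nonneg_left (hint _) (by positivity)
      _ < 1 := by rw [mul_one]; exact inv_lt_one_of_one_lt₀ hp1
  have h4 : ‖(1 : K)‖ < 1 := by
    rw [h1]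
    exact lt_of_le_of_lt (IsUltrametricDist.norm_add_le_max _ _) (max_lt h2 h3)
  rw [norm_one] at h4
  exact lt_irrefl _ h4

/-- The norm of a positive integer. -/
theorem norm_cast_eq (hp : ‖(p : K)‖ = (p : ℝ)⁻¹) {n : ℕ} (hn : n ≠ 0) :
    ‖(n : K)‖ = ((p : ℝ)⁻¹) ^ (padicValNat p n) := by
  have hpp : p.Prime := Fact.out
  obtain ⟨m, hm⟩ : p ^ padicValNat p n ∣ n := pow_padicValNat_dvd
  have hcop : m.Coprime p := by
    rw [Nat.coprime_comm, hpp.coprime_iff_not_dvd]
    rintro ⟨c, hc⟩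
    have : p ^ (padicValNat p n + 1) ∣ n := ⟨c, by rw [pow_succ, mul_assoc, ← hc]; exact hm⟩
    exact (pow_succ_padicValNat_not_dvd hn) this
  have : (n : K) = (p : K) ^ padicValNat p n * (m : K) := by
    conv_lhs => rw [hm]
    push_cast
    rfl
  rw [this, norm_mul, norm_pow, hp, norm_cast_eq_one_of_coprime hp hcop, mul_one]

/-- Lower bound for the norm of a positive integer. -/
theorem inv_le_norm_cast (hp : ‖(p : K)‖ = (p : ℝ)⁻¹) {n : ℕ} (hn : n ≠ 0) :
    ((n : ℝ))⁻¹ ≤ ‖(n : K)‖ := by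
  have hpp : p.Prime := Fact.out
  rw [norm_cast_eq hp hn, inv_pow]
  have h1 : p ^ padicValNat p n ≤ n := Nat.le_of_dvd (Nat.pos_of_ne_zero hn) pow_padicValNat_dvd
  have h2 : 0 < p ^ padicValNat p n := pow_pos hpp.pos _
  exact inv_anti₀ (by exact_mod_cast h2) (by exact_mod_cast h1)

/-- `‖b k‖` tends to zero. -/
theorem coeff_tendsto (hp3 : 3 ≤ p) (hp : ‖(p : K)‖ = (p : ℝ)⁻¹) {f : ℕ → K}
    (hf : Adic (p : ℝ)⁻¹ f) :
    Filter.Tendsto (fun k => ‖(fwdDiff 1)^[k] f 0 / (k.factorial : K)‖) Filter.atTop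
      (nhds 0) := by
  obtain ⟨C, hC⟩ := hf
  have hpp : p.Prime := Fact.out
  have hp1 : (1 : ℝ) < p := by exact_mod_cast hpp.one_lt
  have hp0 : (0 : ℝ) < p := by linarith
  have hC0 : 0 ≤ C := by
    have := hC 0 0
    simp only [pow_zero, mul_one] at this
    exact (norm_nonneg _).trans this
  -- valuation of the factorial is at most `k / 2`
  have hval : ∀ k : ℕ, 2 * padicValNat p k.factorial ≤ k := by
    intro k
    have h := sub_one_mul_padicValNat_factorial (p := p) k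
    have h2 : 2 * padicValNat p k.factorial ≤ (p - 1) * padicValNat p k.factorial :=
      Nat.mul_le_mul_right _ (by omega)
    omega
  set r : ℝ := Real.sqrt ((p : ℝ)⁻¹) with hr
  have hr0 : 0 ≤ r := Real.sqrt_nonneg _
  have hinv1 : (p : ℝ)⁻¹ < 1 := inv_lt_one_of_one_lt₀ hp1
  have hr1 : r < 1 := by
    rw [hr]
    calc Real.sqrt ((p : ℝ)⁻¹) < Real.sqrt 1 := Real.sqrt_lt_sqrt (by positivity) hinv1
      _ = 1 := Real.sqrt_one
  have hrr : r ^ 2 = (p : ℝ)⁻¹ := Real.sq_sqrt (by positivity)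
  have hrpos : 0 < r := Real.sqrt_pos.2 (by positivity)
  have hbound : ∀ k, ‖(fwdDiff 1)^[k] f 0 / (k.factorial : K)‖ ≤ C * r ^ k := by
    intro k
    rw [norm_div, norm_cast_eq hp k.factorial_ne_zero, div_le_iff₀ (by positivity)]
    refine (hC k 0).trans ?_
    rw [← hrr, ← pow_mul, ← pow_mul, mul_assoc, ← pow_add]
    refine mul_le_mul_of_nonneg_left ?_ hC0
    exact pow_le_pow_of_le_one hr0 hr1.le (by have := hval k; omega)
  refine squeeze_zero (fun k => norm_nonneg _) hbound ?_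
  have := (tendsto_pow_atTop_nhds_zero_of_lt_one hr0 hr1).const_mul C
  simpa using this

end aux

/-- For `p ≥ 3` the points where a non-zero analytic function is exponentially small form a
super-sparse set. -/
theorem sparse_of_adic {p : ℕ} [Fact p.Prime] (hp3 : 3 ≤ p) {K : Type*} [NormedField K]
    [IsUltrametricDist K] [CharZero K] (hp : ‖(p : K)‖ = (p : ℝ)⁻¹) {f : ℕ → K}
    (hf : Adic (p : ℝ)⁻¹ f) (hne : ∃ n, f n ≠ 0) {C η : ℝ} (hη0 : 0 < η) (hη : η < 1) :
    Sparse {n | ‖f n‖ ≤ C * η ^ n} := by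
  classical
  set b : ℕ → K := fun k => (fwdDiff 1)^[k] f 0 / (k.factorial : K) with hb
  have htend : Filter.Tendsto (fun k => ‖b k‖) Filter.atTop (nhds 0) := coeff_tendsto hp3 hp hf
  -- some coefficient is non-zero
  obtain ⟨k0, hk0⟩ : ∃ k, b k ≠ 0 := by
    by_contra hall
    push Not at hall
    obtain ⟨n, hn⟩ := hne
    apply hn
    have h3 : f n = ∑ k ∈ Finset.range (n + 1), n.choose k • (fwdDiff 1)^[k] f 0 := by
      have := shift_eq_sum_fwdDiff_iter (1 : ℕ) f n 0
      simpa using this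
    rw [h3]
    refine Finset.sum_eq_zero fun k _ => ?_
    have h4 := hall k
    rw [hb] at h4
    have hk : (k.factorial : K) ≠ 0 := by exact_mod_cast k.factorial_ne_zero
    have h5 : (fwdDiff 1)^[k] f 0 = 0 := (div_eq_zero_iff.1 h4).resolve_right hk
    rw [h5, smul_zero]
  -- the last index of maximal norm
  obtain ⟨R, hR1, hR2⟩ : ∃ R, (∀ k, ‖b k‖ ≤ ‖b R‖) ∧ ∀ k, R < k → ‖b k‖ < ‖b R‖ := by
    have hpos : 0 < ‖b k0‖ := norm_pos_iff.2 hk0
    obtain ⟨N, hN⟩ : ∃ N, ∀ k, N ≤ k → ‖b k‖ < ‖b k0‖ := by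
      have := (htend.eventually (gt_mem_nhds hpos))
      exact Filter.eventually_atTop.1 this
    have hk0N : k0 < N := by
      by_contra h
      exact lt_irrefl _ (hN k0 (not_lt.1 h))
    obtain ⟨R0, hR0m, hR0⟩ := Finset.exists_max_image (Finset.range N) (fun k => ‖b k‖)
      ⟨k0, Finset.mem_range.2 hk0N⟩
    set T := (Finset.range N).filter (fun k => ‖b k‖ = ‖b R0‖) with hT
    have hTne : T.Nonempty := ⟨R0, Finset.mem_filter.2 ⟨hR0m, rfl⟩⟩
    refine ⟨T.max' hTne, ?_, ?_⟩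
    · have hmem : ‖b (T.max' hTne)‖ = ‖b R0‖ := (Finset.mem_filter.1 (Finset.max'_mem T hTne)).2
      rw [hmem]
      intro k
      rcases lt_or_ge k N with h | h
      · exact hR0 k (Finset.mem_range.2 h)
      · exact (hN k h).le.trans (hR0 k0 (Finset.mem_range.2 hk0N))
    · have hmem : ‖b (T.max' hTne)‖ = ‖b R0‖ := (Finset.mem_filter.1 (Finset.max'_mem T hTne)).2
      rw [hmem]
      intro k hk
      rcases lt_or_ge k N with h | h
      · refine lt_of_le_of_ne (hR0 k (Finset.mem_range.2 h)) fun he => ?_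
        have hkT : k ∈ T := Finset.mem_filter.2 ⟨Finset.mem_range.2 h, he⟩
        exact absurd (Finset.le_max' T k hkT) (not_le.2 hk)
      · exact lt_of_lt_of_le (hN k h) (hR0 k0 (Finset.mem_range.2 hk0N))
  have hβ : 0 < ‖b R‖ := lt_of_le_of_lt (norm_nonneg _) (hR2 (R + 1) (Nat.lt_succ_self R))
  set β := ‖b R‖ with hβdef
  set C' := max C 1 with hC'
  have hC'1 : 1 ≤ C' := le_max_right _ _
  have hC'0 : 0 < C' := by linarith
  -- the growth rate
  set A : ℝ := (η⁻¹) ^ ((1 : ℝ) / (R + 1 : ℕ)) with hA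
  have hηi : 1 < η⁻¹ := (one_lt_inv₀ hη0).2 hη
  have hA1 : 1 < A := Real.one_lt_rpow hηi (by positivity)
  have hApow : A ^ (R + 1) = η⁻¹ := by
    rw [hA, ← Real.rpow_natCast, ← Real.rpow_mul (by positivity)]
    rw [one_div_mul_cancel (by positivity), Real.rpow_one]
  have hA0 : 0 < A := by linarith
  set c : ℝ := min 1 (β / (2 * C')) with hc
  have hc0 : 0 < c := lt_min one_pos (by positivity)
  have hc1 : c ≤ 1 := min_le_left _ _
  have hcβ : C' * c < β := by
    have : c ≤ β / (2 * C') := min_le_right _ _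
    calc C' * c ≤ C' * (β / (2 * C')) := mul_le_mul_of_nonneg_left this hC'0.le
      _ = β / 2 := by field_simp
      _ < β := by linarith
  refine ⟨A, c, R + 1, hA1, hc0, ?_⟩
  intro n m hm
  by_contra hcard
  rw [not_le] at hcard
  -- `m ≥ 1`
  have hm1 : 1 ≤ m := by
    by_contra h
    have hm0 : m = 0 := by omega
    have hsub : ({n | ‖f n‖ ≤ C * η ^ n} ∩ Set.Icc n m : Set ℕ) ⊆ {0} := by
      rintro x ⟨_, hx⟩
      rw [hm0] at hx
      have := hx.2
      simp only [Set.mem_singleton_iff]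
      omega
    have := Set.ncard_le_ncard hsub (Set.finite_singleton 0)
    rw [Set.ncard_singleton] at this
    omega
  have hfin : ({n | ‖f n‖ ≤ C * η ^ n} ∩ Set.Icc n m : Set ℕ).Finite :=
    (Set.finite_Icc n m).inter_of_right _
  set F := hfin.toFinset with hF
  have hFcard : R + 1 ≤ F.card := by
    rw [← Set.ncard_eq_toFinset_card _ hfin]; omega
  obtain ⟨s, hsF, hs⟩ := Finset.exists_subset_card_eq hFcard
  obtain ⟨j, hj, hle⟩ := divided_difference f R hR1 s hs hR2
  have hmemF : ∀ x ∈ s, ‖f x‖ ≤ C * η ^ x ∧ n ≤ x ∧ x ≤ m := by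
    intro x hx
    have := (Set.Finite.mem_toFinset hfin).1 (hsF hx)
    exact ⟨this.1, this.2.1, this.2.2⟩
  obtain ⟨hfj, hnj, hjm⟩ := hmemF j hj
  have hmR : (0 : ℝ) < m := by exact_mod_cast hm1
  -- lower bound for the product
  have hprod : ((m : ℝ)⁻¹) ^ R ≤ ∏ i ∈ s.erase j, ‖(j : K) - i‖ := by
    have hcard2 : (s.erase j).card = R := by rw [Finset.card_erase_of_mem hj, hs]; rfl
    rw [← hcard2, ← Finset.prod_const]
    refine Finset.prod_le_prod (fun i _ => by positivity) fun i hi => ?_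
    obtain ⟨hij, his⟩ := Finset.mem_erase.1 hi
    obtain ⟨_, _, him⟩ := hmemF i his
    rcases lt_or_gt_of_ne hij with hlt | hgt
    · have h1 : (j : K) - i = ((j - i : ℕ) : K) := by rw [Nat.cast_sub hlt.le]
      rw [h1]
      refine le_trans ?_ (inv_le_norm_cast hp (by omega))
      exact inv_anti₀ (by exact_mod_cast (by omega : 0 < j - i)) (by exact_mod_cast (by omega))
    · have h1 : (j : K) - i = -((i - j : ℕ) : K) := by rw [Nat.cast_sub hgt.le]; ring
      rw [h1, norm_neg]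
      refine le_trans ?_ (inv_le_norm_cast hp (by omega))
      exact inv_anti₀ (by exact_mod_cast (by omega : 0 < i - j)) (by exact_mod_cast (by omega))
  have h10 : β * ((m : ℝ)⁻¹) ^ R ≤ C' * η ^ n := by
    calc β * ((m : ℝ)⁻¹) ^ R ≤ β * ∏ i ∈ s.erase j, ‖(j : K) - i‖ :=
          mul_le_mul_of_nonneg_left hprod hβ.le
      _ ≤ ‖f j‖ := hle
      _ ≤ C * η ^ j := hfj
      _ ≤ C' * η ^ j := mul_le_mul_of_nonneg_right (le_max_left _ _) (by positivity)
      _ ≤ C' * η ^ n := mul_le_mul_of_nonneg_left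
          (pow_le_pow_of_le_one hη0.le hη.le hnj) hC'0.le
  have h11 : β ≤ C' * η ^ n * (m : ℝ) ^ R := by
    rw [inv_pow, ← div_eq_mul_inv, div_le_iff₀ (by positivity)] at h10
    exact h10
  have h12 : C' * η ^ n * (m : ℝ) ^ R ≤ C' * c := by
    have hcA1 : 1 ≤ c * A ^ n := le_trans (by exact_mod_cast hm1) hm
    have hcA0 : 0 < c * A ^ n := by positivity
    have hη' : η ^ n * (A ^ n) ^ (R + 1) = 1 := by
      rw [← pow_mul, mul_comm n (R + 1), pow_mul, hApow, ← mul_pow, mul_inv_cancel₀ hη0.ne',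
        one_pow]
    rw [mul_assoc]
    refine mul_le_mul_of_nonneg_left ?_ hC'0.le
    calc η ^ n * (m : ℝ) ^ R ≤ η ^ n * (c * A ^ n) ^ R :=
          mul_le_mul_of_nonneg_left (pow_le_pow_left₀ hmR.le hm R) (by positivity)
      _ ≤ η ^ n * (c * A ^ n) ^ (R + 1) := by
          refine mul_le_mul_of_nonneg_left ?_ (by positivity)
          exact pow_le_pow_right₀ hcA1 (Nat.le_succ R)
      _ = (η ^ n * (A ^ n) ^ (R + 1)) * c ^ (R + 1) := by rw [mul_pow]; ring
      _ = c ^ (R + 1) := by rw [hη', one_mul]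
      _ ≤ c ^ 1 := pow_le_pow_of_le_one hc0.le hc1 (by omega)
      _ = c := pow_one c
  linarith

end Pool.Agent.Helper33.SS
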