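import Pool.Agent.Helper33.SS.ExpOps
import Pool.Agent.Helper33.SS.Window
import Pool.Agent.Helper33.SS.SparseOps

/-!
# The dominant block (SS-7)
-/

set_option autoImplicit false

namespace Pool.Agent.Helper33.SS

/-- A sequence with expansions to every order has a super-sparse set of zeros or decays faster than
every power of `‖w‖ ^ n`. If some `f_j` in some expansion is not identically zero, take the least
such `j`: at a zero `n` of `a` one has `‖f_j n‖ ≤ C ‖w‖ ^ n`; use `sparse_of_adic`. -/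
theorem HasExp.dichotomy {p : ℕ} [Fact p.Prime] (hp3 : 3 ≤ p) {K : Type*} [NormedField K]
    [IsUltrametricDist K] [CharZero K] (hp : ‖(p : K)‖ = (p : ℝ)⁻¹) {w : K} (hw0 : w ≠ 0)
    (hw : ‖w‖ < 1) {a : ℕ → K} (h : ∀ M, HasExp (p : ℝ)⁻¹ w M a) :
    Sparse {n | a n = 0} ∨ Flat (fun n => ‖w‖ ^ n) a := by
  classical
  have hw0' : 0 < ‖w‖ := norm_pos_iff.2 hw0
  choose f hf using h
  by_cases hall : ∀ M, ∀ j < M, ∀ n, f M j n = 0
  · right
    intro e
    obtain ⟨_, C, hC⟩ := hf e
    refine ⟨C, fun n => ?_⟩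
    have h1 := hC n
    have h2 : ∑ j ∈ Finset.range e, w ^ (j * n) * f e j n = 0 := by
      apply Finset.sum_eq_zero
      intro j hj
      rw [hall e j (Finset.mem_range.1 hj) n, mul_zero]
    rw [h2, sub_zero, mul_comm e n, pow_mul] at h1
    exact h1
  · left
    push Not at hall
    obtain ⟨M, hM⟩ := hall
    obtain ⟨hjM, hjne⟩ := Nat.find_spec hM
    set j := Nat.find hM with hjdef
    have hlt : ∀ i < j, ∀ n, f M i n = 0 := by
      intro i hi n
      by_contra hne
      exact Nat.find_min hM hi ⟨hi.trans hjM, n, hne⟩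
    obtain ⟨hA, C, hC⟩ := hf M
    choose c hc using hA
    have hc0 : ∀ i n, ‖f M i n‖ ≤ c i := by
      intro i n
      have h1 := hc i 0 n
      rwa [pow_zero, mul_one, Function.iterate_zero, id] at h1
    refine (sparse_of_adic hp3 hp (⟨c j, hc j⟩ : Adic (p : ℝ)⁻¹ (f M j)) hjne
      (C := |C| + ∑ i ∈ Finset.range M, |c i|) hw0' hw).mono ?_
    intro n hn
    rw [Set.mem_setOf_eq] at hn ⊢
    have h1 := hC n
    rw [hn, zero_sub, norm_neg, ← Finset.add_sum_erase _ _ (Finset.mem_range.2 hjM)] at h1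
    have hpw : ∀ i, j < i → ‖w‖ ^ (i * n) ≤ ‖w‖ ^ ((j + 1) * n) := by
      intro i hi
      exact pow_le_pow_of_le_one hw0'.le hw.le (Nat.mul_le_mul_right n hi)
    have h2 : ‖∑ i ∈ (Finset.range M).erase j, w ^ (i * n) * f M i n‖
        ≤ (∑ i ∈ Finset.range M, |c i|) * ‖w‖ ^ ((j + 1) * n) := by
      rw [Finset.sum_mul]
      refine (norm_sum_le _ _).trans ?_
      refine (Finset.sum_le_sum ?_).trans
        (Finset.sum_le_sum_of_subset_of_nonneg (Finset.erase_subset j _)
          (fun i _ _ => by positivity))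
      intro i hi
      rcases lt_or_gt_of_ne (Finset.ne_of_mem_erase hi) with h3 | h3
      · rw [hlt i h3 n, mul_zero, norm_zero]
        positivity
      · rw [norm_mul, norm_pow, mul_comm]
        exact mul_le_mul ((hc0 i n).trans (le_abs_self _)) (hpw i h3) (by positivity)
          (abs_nonneg _)
    have h4 : ‖w ^ (j * n) * f M j n‖
        ≤ (|C| + ∑ i ∈ Finset.range M, |c i|) * ‖w‖ ^ ((j + 1) * n) := by
      have h5 : w ^ (j * n) * f M j n = (w ^ (j * n) * f M j n +
          ∑ i ∈ (Finset.range M).erase j, w ^ (i * n) * f M i n) -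
          ∑ i ∈ (Finset.range M).erase j, w ^ (i * n) * f M i n := by ring
      have h6 : C * ‖w‖ ^ (M * n) ≤ |C| * ‖w‖ ^ ((j + 1) * n) := by
        apply mul_le_mul (le_abs_self _) _ (by positivity) (abs_nonneg _)
        exact hpw M hjM
      rw [h5, add_mul]
      exact (norm_sub_le _ _).trans (add_le_add (h1.trans h6) h2)
    have h7 : ‖w‖ ^ ((j + 1) * n) = ‖w‖ ^ (j * n) * ‖w‖ ^ n := by
      rw [← pow_add]
      congr 1
      ring
    rw [norm_mul, norm_pow, h7] at h4
    have h8 : 0 < ‖w‖ ^ (j * n) := pow_pos hw0' _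
    have h9 : ‖w‖ ^ (j * n) * ‖f M j n‖
        ≤ ‖w‖ ^ (j * n) * ((|C| + ∑ i ∈ Finset.range M, |c i|) * ‖w‖ ^ n) := by
      refine h4.trans (le_of_eq ?_)
      ring
    exact le_of_mul_le_mul_left h9 h8

end Pool.Agent.Helper33.SS
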