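import Pool.Agent.Helper33.SS.Defs

/-!
# Normal form of eigenvalues of integral matrices (SS-9)
-/

set_option autoImplicit false

namespace Pool.Agent.Helper33.SS

private theorem io_norm (p : ℕ) [Fact p.Prime] (a : ℤ_[p]) : ‖io p a‖ = ‖a‖ := by
  show ‖((a : ℚ_[p]) : ℂ_[p])‖ = ‖a‖
  rw [PadicComplex.norm_extends', PadicInt.norm_def]

private theorem norm_nat_p (p : ℕ) [Fact p.Prime] : ‖(p : ℂ_[p])‖ = (p : ℝ)⁻¹ := by
  calc ‖(p : ℂ_[p])‖ = ‖algebraMap ℚ_[p] ℂ_[p] (p : ℚ_[p])‖ := by rw [map_natCast]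
    _ = ‖(p : ℚ_[p])‖ := norm_algebraMap' _ _
    _ = (p : ℝ)⁻¹ := Padic.norm_p

private theorem root_sum {p : ℕ} [Fact p.Prime] {P : Polynomial ℤ_[p]} {μ : ℂ_[p]}
    (hμ : (P.map (io p)).IsRoot μ) :
    ∑ i ∈ Finset.range (P.natDegree + 1), io p (P.coeff i) * μ ^ i = 0 := by
  have h : Polynomial.eval μ (P.map (io p)) = 0 := hμ
  rw [Polynomial.eval_map, Polynomial.eval₂_eq_sum_range] at h
  exact h

private theorem root_le_one {p : ℕ} [Fact p.Prime] {P : Polynomial ℤ_[p]} (hP : P.Monic)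
    {μ : ℂ_[p]} (hμ : (P.map (io p)).IsRoot μ) : ‖μ‖ ≤ 1 := by
  by_contra hlt
  push Not at hlt
  have hs := root_sum hμ
  rw [Finset.sum_range_succ, hP.coeff_natDegree, map_one, one_mul] at hs
  have hn : μ ^ P.natDegree = -∑ i ∈ Finset.range P.natDegree, io p (P.coeff i) * μ ^ i :=
    eq_neg_of_add_eq_zero_right hs
  have hμ0 : μ ≠ 0 := by
    rintro rfl
    rw [norm_zero] at hlt
    linarith
  by_cases h0 : P.natDegree = 0
  · rw [h0] at hn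
    simp at hn
  · obtain ⟨j, hj, hle⟩ := IsUltrametricDist.exists_norm_finsetSum_le
      (Finset.range P.natDegree) (fun i => io p (P.coeff i) * μ ^ i)
    have hj' := hj ⟨0, Finset.mem_range.2 (Nat.pos_of_ne_zero h0)⟩
    rw [Finset.mem_range] at hj'
    have h1 : ‖μ‖ ^ P.natDegree ≤ ‖μ‖ ^ j := by
      calc ‖μ‖ ^ P.natDegree = ‖μ ^ P.natDegree‖ := (norm_pow _ _).symm
        _ = ‖∑ i ∈ Finset.range P.natDegree, io p (P.coeff i) * μ ^ i‖ := by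
            rw [hn, norm_neg]
        _ ≤ ‖io p (P.coeff j) * μ ^ j‖ := hle
        _ = ‖P.coeff j‖ * ‖μ‖ ^ j := by rw [norm_mul, norm_pow, io_norm]
        _ ≤ 1 * ‖μ‖ ^ j := by
            apply mul_le_mul_of_nonneg_right (PadicInt.norm_le_one _) (by positivity)
        _ = ‖μ‖ ^ j := one_mul _
    exact absurd h1 (not_le.2 (pow_lt_pow_right₀ hlt hj'))

private theorem root_norm {p : ℕ} [Fact p.Prime] {P : Polynomial ℤ_[p]} (hP : P.Monic)
    {μ : ℂ_[p]} (hμ : (P.map (io p)).IsRoot μ) (hμ0 : μ ≠ 0) :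
    ∃ e m : ℕ, 1 ≤ e ∧ ‖μ‖ ^ e = ((p : ℝ)⁻¹) ^ m := by
  have hp1 : (1 : ℝ) < p := by exact_mod_cast (Fact.out : p.Prime).one_lt
  have hp0 : (0 : ℝ) < p := by linarith
  have hle1 := root_le_one hP hμ
  have hpos : 0 < ‖μ‖ := norm_pos_iff.2 hμ0
  have hs := root_sum hμ
  set f : ℕ → ℂ_[p] := fun i => io p (P.coeff i) * μ ^ i with hf
  have hfn : ∀ i, ‖f i‖ = ‖P.coeff i‖ * ‖μ‖ ^ i := by
    intro i
    rw [hf]
    simp only
    rw [norm_mul, norm_pow, io_norm]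
  obtain ⟨i0, hi0, hmax⟩ := Finset.exists_max_image (Finset.range (P.natDegree + 1))
    (fun i => ‖f i‖) ⟨0, Finset.mem_range.2 (Nat.succ_pos _)⟩
  have htop : 0 < ‖f P.natDegree‖ := by
    rw [hfn, hP.coeff_natDegree, norm_one, one_mul]
    positivity
  have h0 : 0 < ‖f i0‖ := lt_of_lt_of_le htop (hmax _ (Finset.mem_range.2 (Nat.lt_succ_self _)))
  have hsum : f i0 + ∑ i ∈ (Finset.range (P.natDegree + 1)).erase i0, f i = 0 := by
    rw [Finset.add_sum_erase _ _ hi0]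
    exact hs
  obtain ⟨j, hj, hle⟩ := IsUltrametricDist.exists_norm_finsetSum_le
    ((Finset.range (P.natDegree + 1)).erase i0) f
  have hne : ((Finset.range (P.natDegree + 1)).erase i0).Nonempty := by
    rw [Finset.nonempty_iff_ne_empty]
    intro hem
    rw [hem, Finset.sum_empty, add_zero] at hsum
    rw [hsum, norm_zero] at h0
    exact lt_irrefl _ h0
  have hj' := Finset.mem_erase.1 (hj hne)
  have h1 : ‖f i0‖ ≤ ‖f j‖ := by
    rw [eq_neg_of_add_eq_zero_left hsum, norm_neg]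
    exact hle
  have heq : ‖f i0‖ = ‖f j‖ := le_antisymm h1 (hmax j hj'.2)
  have key : ∀ i k : ℕ, i < k → 0 < ‖f i‖ → ‖f i‖ = ‖f k‖ →
      ∃ e m : ℕ, 1 ≤ e ∧ ‖μ‖ ^ e = ((p : ℝ)⁻¹) ^ m := by
    intro i k hik hipos hikeq
    have hci : P.coeff i ≠ 0 := by
      intro hc
      rw [hfn, hc, norm_zero, zero_mul] at hipos
      exact lt_irrefl _ hipos
    have hck : P.coeff k ≠ 0 := by
      intro hc
      rw [hikeq, hfn, hc, norm_zero, zero_mul] at hipos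
      exact lt_irrefl _ hipos
    rw [hfn, hfn, PadicInt.norm_eq_zpow_neg_valuation hci,
      PadicInt.norm_eq_zpow_neg_valuation hck] at hikeq
    obtain ⟨e, rfl⟩ := Nat.exists_eq_add_of_lt hik
    have h2 : ‖μ‖ ^ (e + 1) =
        (p : ℝ) ^ (((P.coeff (i + e + 1)).valuation : ℤ) - ((P.coeff i).valuation : ℤ)) := by
      have h3 : ‖μ‖ ^ (i + e + 1) = ‖μ‖ ^ i * ‖μ‖ ^ (e + 1) := by ring
      rw [h3] at hikeq
      have hi' : ‖μ‖ ^ i ≠ 0 := by positivity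
      have hk' : (p : ℝ) ^ (-((P.coeff (i + e + 1)).valuation : ℤ)) ≠ 0 := by positivity
      rw [zpow_sub₀ hp0.ne']
      rw [zpow_neg, zpow_neg] at hikeq
      have hA : (p : ℝ) ^ ((P.coeff (i + e + 1)).valuation : ℤ) ≠ 0 := by positivity
      have hB : (p : ℝ) ^ ((P.coeff i).valuation : ℤ) ≠ 0 := by positivity
      field_simp at hikeq ⊢
      linarith
    set z : ℤ := ((P.coeff (i + e + 1)).valuation : ℤ) - ((P.coeff i).valuation : ℤ) with hz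
    have hzle : z ≤ 0 := by
      by_contra hz0
      push Not at hz0
      have h4 : (1 : ℝ) < (p : ℝ) ^ z := one_lt_zpow₀ hp1 hz0
      rw [← h2] at h4
      exact absurd (pow_le_one₀ hpos.le hle1) (not_le.2 h4)
    obtain ⟨m, hm⟩ := Int.eq_ofNat_of_zero_le (neg_nonneg.2 hzle)
    refine ⟨e + 1, m, by omega, ?_⟩
    rw [h2, inv_pow, ← zpow_natCast, ← zpow_neg]
    congr 1
    have : (m : ℤ) = -z := hm.symm
    omega
  rcases lt_or_gt_of_ne hj'.1 with hlt | hlt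
  · exact key j i0 hlt (heq ▸ h0) heq.symm
  · exact key i0 j hlt h0 heq

/-- Some power of an algebraic unit is close to one. -/
private theorem unit_pow {p : ℕ} [Fact p.Prime] {ν : ℂ_[p]} (halg : IsIntegral ℚ_[p] ν)
    (hν : ‖ν‖ = 1) : ∃ k : ℕ, 1 ≤ k ∧ ‖ν ^ k - 1‖ ≤ (p : ℝ)⁻¹ := by
  have hp0 : (0 : ℝ) < (p : ℝ)⁻¹ := by
    have : (0 : ℝ) < p := by exact_mod_cast (Fact.out : p.Prime).pos
    positivity
  set E : Submodule ℚ_[p] ℂ_[p] := Subalgebra.toSubmodule (Algebra.adjoin ℚ_[p] {ν}) with hE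
  have : FiniteDimensional ℚ_[p] E :=
    Module.Finite.iff_fg.2 halg.fg_adjoin_singleton
  have : ProperSpace E := FiniteDimensional.proper ℚ_[p] E
  have hmem : ∀ k : ℕ, ν ^ k ∈ E := by
    intro k
    show ν ^ k ∈ Algebra.adjoin ℚ_[p] {ν}
    exact Subalgebra.pow_mem _ (Algebra.self_mem_adjoin_singleton _ _) k
  have hball : ∀ k : ℕ, (⟨ν ^ k, hmem k⟩ : E) ∈ Metric.closedBall (0 : E) 1 := by
    intro k
    rw [mem_closedBall_zero_iff]
    show ‖ν ^ k‖ ≤ 1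
    rw [norm_pow, hν, one_pow]
  obtain ⟨a, -, φ, hφ, hlim⟩ := (isCompact_closedBall (0 : E) 1).tendsto_subseq hball
  have hc := hlim.cauchySeq
  obtain ⟨N, hN⟩ := Metric.cauchySeq_iff.1 hc _ hp0
  have h1 := hN (N + 1) (by omega) N le_rfl
  have hlt : φ N < φ (N + 1) := hφ (Nat.lt_succ_self N)
  refine ⟨φ (N + 1) - φ N, by omega, ?_⟩
  have h2 : ‖ν ^ φ (N + 1) - ν ^ φ N‖ < (p : ℝ)⁻¹ := by
    rw [dist_eq_norm] at h1
    exact h1
  have h3 : ν ^ φ (N + 1) - ν ^ φ N = ν ^ φ N * (ν ^ (φ (N + 1) - φ N) - 1) := by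
    rw [mul_sub, ← pow_add, mul_one]
    congr 2
    omega
  rw [h3, norm_mul, norm_pow, hν, one_pow, one_mul] at h2
  exact h2.le

private theorem pow_close {p : ℕ} [Fact p.Prime] {ν : ℂ_[p]} (hν : ‖ν‖ = 1) {k : ℕ}
    (hk : ‖ν ^ k - 1‖ ≤ (p : ℝ)⁻¹) {l : ℕ} (hl : k ∣ l) : ‖ν ^ l - 1‖ ≤ (p : ℝ)⁻¹ := by
  obtain ⟨c, rfl⟩ := hl
  have h1 : ν ^ (k * c) - 1 = (∑ i ∈ Finset.range c, (ν ^ k) ^ i) * (ν ^ k - 1) := by
    rw [geom_sum_mul, pow_mul]
  rw [h1, norm_mul]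
  have h2 : ‖∑ i ∈ Finset.range c, (ν ^ k) ^ i‖ ≤ 1 := by
    apply IsUltrametricDist.norm_sum_le_of_forall_le_of_nonneg zero_le_one
    intro i _
    rw [norm_pow, norm_pow, hν, one_pow, one_pow]
  calc _ ≤ 1 * ‖ν ^ k - 1‖ := mul_le_mul_of_nonneg_right h2 (norm_nonneg _)
    _ ≤ _ := by rw [one_mul]; exact hk

/-- Let `P` be a monic polynomial over the `p`-adic integers. There are `w` in `ℂ_[p]`, `w ≠ 0`,
`‖w‖ < 1`, `‖p‖ ≤ ‖w‖`, and `k ≥ 1` such that the `k`-th power of every root of `P` is `0` or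
`w ^ m * ν` with `‖ν - 1‖ ≤ 1 / p`. Proof: a root `μ ≠ 0` is algebraic, so a power of `‖μ‖` is an
integral power of `p`; let `w` be a suitable root of `p`, `μ = w ^ m * ν` with `‖ν‖ = 1`, `ν` integral
over the `p`-adic integers; two powers of `ν` agree modulo `p` by the pigeonhole principle. -/
theorem exists_good (p : ℕ) [Fact p.Prime] (P : Polynomial ℤ_[p]) (hP : P.Monic) :
    ∃ (w : ℂ_[p]) (k : ℕ), w ≠ 0 ∧ ‖w‖ < 1 ∧ (p : ℝ)⁻¹ ≤ ‖w‖ ∧ 1 ≤ k ∧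
      ∀ μ : ℂ_[p], (P.map (io p)).IsRoot μ → GoodEig (p : ℝ)⁻¹ w (μ ^ k) := by
  classical
  have hp1 : (1 : ℝ) < p := by exact_mod_cast (Fact.out : p.Prime).one_lt
  have hp0 : (0 : ℝ) < p := by linarith
  have hinv0 : (0 : ℝ) < (p : ℝ)⁻¹ := by positivity
  have hinv1 : (p : ℝ)⁻¹ < 1 := inv_lt_one_of_one_lt₀ hp1
  have hPm : (P.map (io p)).Monic := hP.map _
  set R : Finset ℂ_[p] := (P.map (io p)).roots.toFinset.erase 0 with hR
  have hmemR : ∀ μ, μ ∈ R ↔ μ ≠ 0 ∧ (P.map (io p)).IsRoot μ := by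
    intro μ
    rw [hR, Finset.mem_erase, Multiset.mem_toFinset, Polynomial.mem_roots hPm.ne_zero]
  have hch : ∀ μ : R, ∃ e m : ℕ, 1 ≤ e ∧ ‖(μ : ℂ_[p])‖ ^ e = ((p : ℝ)⁻¹) ^ m := by
    intro μ
    obtain ⟨h1, h2⟩ := (hmemR μ).1 μ.2
    exact root_norm hP h2 h1
  choose e m he hem using hch
  set E : ℕ := ∏ μ : R, e μ with hE
  have hEpos : 0 < E := Finset.prod_pos fun μ _ => he μ
  obtain ⟨w, hw⟩ := IsAlgClosed.exists_pow_nat_eq (p : ℂ_[p]) hEpos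
  have hwE : ‖w‖ ^ E = (p : ℝ)⁻¹ := by rw [← norm_pow, hw, norm_nat_p]
  have hw0 : w ≠ 0 := by
    rintro rfl
    rw [norm_zero, zero_pow hEpos.ne'] at hwE
    linarith
  have hwpos : 0 < ‖w‖ := norm_pos_iff.2 hw0
  have hw1 : ‖w‖ < 1 := by
    by_contra h
    push Not at h
    have := one_le_pow₀ (n := E) h
    rw [hwE] at this
    linarith
  have hwp : (p : ℝ)⁻¹ ≤ ‖w‖ := by
    rw [← hwE]
    exact pow_le_of_le_one hwpos.le hw1.le hEpos.ne'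
  have hexp : ∀ μ : R, ∃ l : ℕ, ‖(μ : ℂ_[p])‖ = ‖w‖ ^ l := by
    intro μ
    obtain ⟨c, hc⟩ := Finset.dvd_prod_of_mem e (Finset.mem_univ μ)
    refine ⟨m μ * c, ?_⟩
    have h1 : ‖(μ : ℂ_[p])‖ ^ E = (‖w‖ ^ (m μ * c)) ^ E := by
      calc ‖(μ : ℂ_[p])‖ ^ E = (‖(μ : ℂ_[p])‖ ^ e μ) ^ c := by
            rw [← pow_mul, hE, hc]
        _ = (((p : ℝ)⁻¹) ^ m μ) ^ c := by rw [hem]
        _ = ((p : ℝ)⁻¹) ^ (m μ * c) := by rw [← pow_mul]
        _ = (‖w‖ ^ E) ^ (m μ * c) := by rw [hwE]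
        _ = (‖w‖ ^ (m μ * c)) ^ E := by rw [← pow_mul, ← pow_mul, Nat.mul_comm]
    exact (pow_left_inj₀ (norm_nonneg _) (by positivity) hEpos.ne').1 h1
  choose l hl using hexp
  have hunit : ∀ μ : R, ∃ k : ℕ, 1 ≤ k ∧ ‖((μ : ℂ_[p]) / w ^ l μ) ^ k - 1‖ ≤ (p : ℝ)⁻¹ := by
    intro μ
    apply unit_pow
    · have h1 : IsIntegral ℚ_[p] (μ : ℂ_[p]) := by
        refine ⟨P.map PadicInt.Coe.ringHom, hP.map _, ?_⟩
        have h2 := ((hmemR μ).1 μ.2).2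
        have h3 : Polynomial.eval (μ : ℂ_[p]) (P.map (io p)) = 0 := h2
        rw [Polynomial.eval_map] at h3
        rw [Polynomial.eval₂_map]
        exact h3
      have h2 : IsIntegral ℚ_[p] w := by
        refine IsIntegral.of_pow hEpos ?_
        rw [hw, ← map_natCast (algebraMap ℚ_[p] ℂ_[p])]
        exact isIntegral_algebraMap
      rw [div_eq_mul_inv]
      exact h1.mul (h2.pow _).inv
    · rw [norm_div, norm_pow, hl μ, div_self (by positivity)]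
  choose k hk hkn using hunit
  set K : ℕ := ∏ μ : R, k μ with hK
  refine ⟨w, K, hw0, hw1, hwp, Nat.succ_le_of_lt (Finset.prod_pos fun μ _ => hk μ), ?_⟩
  intro μ hμ
  by_cases hμ0 : μ = 0
  · left
    rw [hμ0, zero_pow]
    exact (Finset.prod_pos fun μ _ => hk μ : 0 < K).ne'
  · right
    have hμR : μ ∈ R := (hmemR μ).2 ⟨hμ0, hμ⟩
    set μ' : R := ⟨μ, hμR⟩ with hμ'
    refine ⟨l μ' * K, (μ / w ^ l μ') ^ K, ?_, ?_⟩
    · refine pow_close ?_ (hkn μ') (Finset.dvd_prod_of_mem k (Finset.mem_univ μ'))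
      rw [norm_div, norm_pow, ← hl μ', div_self]
      exact (norm_pos_iff.2 hμ0).ne'
    · rw [div_pow, ← pow_mul, mul_div_cancel₀]
      exact pow_ne_zero _ hw0

end Pool.Agent.Helper33.SS
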