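import Pool.Agent.Helper33.SS.Chart

/-!
# The tangent map when zero is at most a simple eigenvalue (SS-14)
-/

set_option autoImplicit false

namespace Pool.Agent.Helper33.SS

open Matrix

private theorem extz_self {K : Type*} [Field K] {σ : Type*} [DecidableEq σ] (i₀ : σ)
    (x : {j : σ // j ≠ i₀} → K) : extz i₀ x i₀ = 0 := by simp [extz]

private theorem extz_coe {K : Type*} [Field K] {σ : Type*} [DecidableEq σ] (i₀ : σ)
    (x : {j : σ // j ≠ i₀} → K) (j : {j : σ // j ≠ i₀}) : extz i₀ x j = x j := by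
  simp [extz, j.2]

private theorem extz_inj {K : Type*} [Field K] {σ : Type*} [DecidableEq σ] (i₀ : σ)
    (x y : {j : σ // j ≠ i₀} → K) (h : extz i₀ x = extz i₀ y) : x = y := by
  funext j
  rw [← extz_coe i₀ x j, ← extz_coe i₀ y j, h]

private theorem extz_smul {K : Type*} [Field K] {σ : Type*} [DecidableEq σ] (i₀ : σ)
    (a : K) (x : {j : σ // j ≠ i₀} → K) : extz i₀ (a • x) = a • extz i₀ x := by
  funext j
  by_cases h : j = i₀
  · subst h
    simp [extz]
  · simp [extz, h]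

private theorem sum_extz {K : Type*} [Field K] {σ : Type*} [Fintype σ] [DecidableEq σ] (i₀ : σ)
    (f : σ → K) (x : {j : σ // j ≠ i₀} → K) :
    ∑ l, f l * extz i₀ x l = ∑ l : {j : σ // j ≠ i₀}, f l * x l := by
  have h1 : ∀ l : {j : σ // j ≠ i₀}, f l * x l = f l * extz i₀ x l := by
    intro l
    rw [extz_coe]
  rw [Finset.sum_congr rfl fun l _ => h1 l]
  have h3 := Finset.add_sum_erase Finset.univ (fun l => f l * extz i₀ x l) (Finset.mem_univ i₀)
  have h2 : ∑ l ∈ Finset.univ.erase i₀, f l * extz i₀ x l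
      = ∑ l : {j : σ // j ≠ i₀}, f l * extz i₀ x l :=
    Finset.sum_subtype (Finset.univ.erase i₀) (by intro l; simp) (fun l => f l * extz i₀ x l)
  rw [← h3, extz_self, mul_zero, zero_add, h2]

private theorem extz_tmat {K : Type*} [Field K] {σ : Type*} [Fintype σ] [DecidableEq σ]
    (J : Matrix σ σ K) (β : σ → K) (i₀ : σ) (hβ : β i₀ = 1) (c : K)
    (x : {j : σ // j ≠ i₀} → K) :
    extz i₀ (tmat J β i₀ c *ᵥ x)
      = c⁻¹ • (J *ᵥ extz i₀ x - (J *ᵥ extz i₀ x) i₀ • β) := by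
  funext j
  by_cases h : j = i₀
  · subst h
    rw [extz_self]
    simp [hβ]
  · have e := extz_coe i₀ (tmat J β i₀ c *ᵥ x) ⟨j, h⟩
    simp only at e
    rw [e]
    simp only [tmat, Matrix.mulVec, dotProduct, Matrix.of_apply, Pi.smul_apply, Pi.sub_apply,
      smul_eq_mul]
    rw [sum_extz, sum_extz, Finset.sum_mul, ← Finset.sum_sub_distrib, Finset.mul_sum]
    refine Finset.sum_congr rfl fun l _ => ?_
    ring

/-- Let `J β = D c β`, `β i₀ = 1`, `D c ≠ 0`, `rank (J ^ 2) ≥ #σ - 1`, `T = tmat J β i₀ c`. Then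
`T` has a left inverse, or there are `κ`, `ℓ` with `ℓ κ = 1`, `ℓ T = 0`, `T κ = 0`, `Θ T = 1 - κ ℓ`. Proof:
`c T x` is `J X - (J X)_{i₀} β` for `X = extz x`; if `T ^ 2 x = 0` then `J ^ 2 X` is a multiple of `β`,
so `J ^ 2 (X - t β) = 0` for some `t`; hence `dim ker T ^ 2 ≤ 1`; if `T` is not injective then
`ker T = ker T ^ 2 = K κ`, `κ` is not in the range of `T`, and `1 - κ ℓ` factors through `T`. -/
theorem linalg {K : Type*} [Field K] {σ : Type*} [Fintype σ] [DecidableEq σ] (J : Matrix σ σ K)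
    (β : σ → K) (i₀ : σ) (hβ : β i₀ = 1) (c D : K) (hc : c ≠ 0) (hD : D ≠ 0)
    (hJ : J *ᵥ β = (D * c) • β) (hrank : Fintype.card σ ≤ (J ^ 2).rank + 1) :
    (∃ Θ : Matrix {j : σ // j ≠ i₀} {j : σ // j ≠ i₀} K, Θ * tmat J β i₀ c = 1) ∨
    ∃ (Θ : Matrix {j : σ // j ≠ i₀} {j : σ // j ≠ i₀} K) (κ ℓ : {j : σ // j ≠ i₀} → K),
      ℓ ⬝ᵥ κ = 1 ∧ ℓ ᵥ* tmat J β i₀ c = 0 ∧ tmat J β i₀ c *ᵥ κ = 0 ∧
        Θ * tmat J β i₀ c = 1 - vecMulVec κ ℓ := by
  set T := tmat J β i₀ c with hTdef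
  -- the kernel of the square of `J`
  have hk : Module.finrank K (LinearMap.ker (J ^ 2).mulVecLin) ≤ 1 := by
    have h1 := LinearMap.finrank_range_add_finrank_ker (J ^ 2).mulVecLin
    have h2 : Module.finrank K (LinearMap.range (J ^ 2).mulVecLin) = (J ^ 2).rank := rfl
    rw [h2, Module.finrank_fintype_fun_eq_card] at h1
    omega
  obtain ⟨⟨v, hv⟩, hv1⟩ := finrank_le_one_iff.1 hk
  have hv2 : ∀ w : σ → K, (J ^ 2) *ᵥ w = 0 → ∃ a : K, w = a • v := by
    intro w hw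
    obtain ⟨a, ha⟩ := hv1 ⟨w, by simpa using hw⟩
    exact ⟨a, (congrArg Subtype.val ha).symm⟩
  -- the kernel of the square of `T`
  have hDc : D * c ≠ 0 := mul_ne_zero hD hc
  have hTT : ∀ x, T *ᵥ (T *ᵥ x) = 0 → ∃ t a : K, extz i₀ x - t • β = a • v := by
    intro x hx
    have h0 : extz i₀ (T *ᵥ (T *ᵥ x)) = 0 := by
      rw [hx]
      funext j
      by_cases h : j = i₀ <;> simp [extz, h]
    rw [hTdef, extz_tmat J β i₀ hβ c, extz_tmat J β i₀ hβ c] at h0
    set Y := J *ᵥ extz i₀ x with hY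
    have h1 : J *ᵥ (c⁻¹ • (Y - Y i₀ • β)) = c⁻¹ • (J *ᵥ Y - (Y i₀ * (D * c)) • β) := by
      rw [Matrix.mulVec_smul, Matrix.mulVec_sub, Matrix.mulVec_smul, hJ, smul_smul]
    rw [h1] at h0
    have h2 : J *ᵥ Y = (J *ᵥ Y) i₀ • β := by
      have h3 := (smul_eq_zero.1 h0).resolve_left (inv_ne_zero hc)
      funext j
      have h4 := congrFun h3 j
      simp only [Pi.sub_apply, Pi.smul_apply, smul_eq_mul, Pi.zero_apply, hβ, mul_one] at h4 ⊢
      have h5 := (mul_eq_zero.1 (show c⁻¹ * ((J *ᵥ Y) j - (J *ᵥ Y) i₀ * β j) = 0 by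
        linear_combination h4)).resolve_left (inv_ne_zero hc)
      linear_combination h5
    set s := (J *ᵥ Y) i₀ with hs
    obtain ⟨a, ha⟩ := hv2 (extz i₀ x - (s * ((D * c) * (D * c))⁻¹) • β) (by
      rw [pow_two, ← Matrix.mulVec_mulVec, Matrix.mulVec_sub, Matrix.mulVec_smul, hJ, ← hY,
        smul_smul, Matrix.mulVec_sub, Matrix.mulVec_smul, hJ, smul_smul, h2, ← sub_smul]
      have : s - s * (D * c * (D * c))⁻¹ * (D * c) * (D * c) = 0 := by
        field_simp
        ring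
      rw [this, zero_smul])
    exact ⟨_, a, ha⟩
  have hpar : ∀ x y, T *ᵥ (T *ᵥ x) = 0 → T *ᵥ (T *ᵥ y) = 0 → x ≠ 0 → ∃ b : K, y = b • x := by
    intro x y hx hy hx0
    obtain ⟨t, a, hta⟩ := hTT x hx
    obtain ⟨s, b, hsb⟩ := hTT y hy
    have ha0 : a ≠ 0 := by
      intro ha
      rw [ha, zero_smul] at hta
      have h1 := congrFun hta i₀
      simp only [Pi.sub_apply, extz_self, Pi.smul_apply, hβ, smul_eq_mul, mul_one,
        Pi.zero_apply] at h1
      have ht : t = 0 := by linear_combination -h1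
      rw [ht, zero_smul, sub_zero] at hta
      apply hx0
      funext j
      rw [← extz_coe i₀ x j, hta]
      rfl
    refine ⟨b / a, extz_inj i₀ _ _ ?_⟩
    rw [extz_smul]
    have h1 : extz i₀ y - s • β = (b / a) • (extz i₀ x - t • β) := by
      rw [hta, hsb, smul_smul, div_mul_cancel₀ b ha0]
    have h2 := congrFun h1 i₀
    simp only [Pi.sub_apply, extz_self, Pi.smul_apply, hβ, smul_eq_mul, mul_one] at h2
    funext j
    have h3 := congrFun h1 j
    simp only [Pi.sub_apply, Pi.smul_apply, smul_eq_mul] at h3 ⊢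
    linear_combination h3 - β j * h2
  by_cases hinj : Function.Injective T.mulVec
  · left
    have hu := Matrix.mulVec_injective_iff_isUnit.1 hinj
    exact ⟨T⁻¹, Matrix.nonsing_inv_mul T ((Matrix.isUnit_iff_isUnit_det T).1 hu)⟩
  · right
    obtain ⟨κ, hκ0, hκ⟩ : ∃ κ, κ ≠ 0 ∧ T *ᵥ κ = 0 := by
      rw [Function.Injective] at hinj
      push Not at hinj
      obtain ⟨x, y, hxy, hne⟩ := hinj
      exact ⟨x - y, sub_ne_zero.2 hne, by rw [Matrix.mulVec_sub, hxy, sub_self]⟩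
    have hnr : κ ∉ LinearMap.range T.mulVecLin := by
      rintro ⟨y, hy⟩
      have hy' : T *ᵥ y = κ := by simpa using hy
      obtain ⟨b, hb⟩ := hpar κ y (by rw [hκ, Matrix.mulVec_zero]) (by rw [hy', hκ]) hκ0
      apply hκ0
      rw [← hy', hb, Matrix.mulVec_smul, hκ, smul_zero]
    obtain ⟨f, hf1, hf2⟩ := Submodule.exists_dual_map_eq_bot_of_notMem hnr inferInstance
    set ℓ : {j : σ // j ≠ i₀} → K := fun j => (f κ)⁻¹ * f (Pi.single j 1) with hℓ
    have hfe : ∀ x : {j : σ // j ≠ i₀} → K, ℓ ⬝ᵥ x = (f κ)⁻¹ * f x := by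
      intro x
      have h1 : x = ∑ j, x j • (Pi.single j (1 : K) : {j : σ // j ≠ i₀} → K) := by
        funext j
        simp [Finset.sum_apply, Pi.single_apply]
      conv_rhs => rw [h1]
      rw [map_sum, dotProduct, Finset.mul_sum]
      refine Finset.sum_congr rfl fun j _ => ?_
      rw [map_smul, hℓ, smul_eq_mul]
      ring
    have h1 : ℓ ⬝ᵥ κ = 1 := by
      rw [hfe, inv_mul_cancel₀ hf1]
    have h2 : ∀ x, ℓ ⬝ᵥ (T *ᵥ x) = 0 := by
      intro x
      have h3 : f (T.mulVecLin x) ∈ (LinearMap.range T.mulVecLin).map f :=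
        Submodule.mem_map_of_mem ⟨x, rfl⟩
      rw [hf2, Submodule.mem_bot] at h3
      rw [hfe]
      have h4 : f (T *ᵥ x) = 0 := h3
      rw [h4, mul_zero]
    have h3 : ℓ ᵥ* T = 0 := by
      funext j
      have h4 := h2 (Pi.single j 1)
      rw [Matrix.dotProduct_mulVec] at h4
      simpa using h4
    have hinj2 : Function.Injective (T + vecMulVec κ ℓ).mulVec := by
      have key : ∀ x, (T + vecMulVec κ ℓ) *ᵥ x = 0 → x = 0 := by
        intro x hx
        have h5 : T *ᵥ x + (ℓ ⬝ᵥ x) • κ = 0 := by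
          rw [← hx, Matrix.add_mulVec, Matrix.vecMulVec_mulVec]
          simp
        have h6 : ℓ ⬝ᵥ x = 0 := by
          have h7 := congrArg (fun y => ℓ ⬝ᵥ y) h5
          simp only [dotProduct_add, h2, dotProduct_smul, h1, dotProduct_zero, zero_add,
            smul_eq_mul, mul_one] at h7
          exact h7
        rw [h6, zero_smul, add_zero] at h5
        obtain ⟨b, hb⟩ := hpar κ x (by rw [hκ, Matrix.mulVec_zero])
          (by rw [h5, Matrix.mulVec_zero]) hκ0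
        rw [hb, dotProduct_smul, h1, smul_eq_mul, mul_one] at h6
        rw [hb, h6, zero_smul]
      intro x y hxy
      have h8 := key (x - y) (by rw [Matrix.mulVec_sub]; exact sub_eq_zero.2 hxy)
      exact sub_eq_zero.1 h8
    have hu := Matrix.mulVec_injective_iff_isUnit.1 hinj2
    set Θ := (T + vecMulVec κ ℓ)⁻¹ with hΘ
    have h9 : Θ * (T + vecMulVec κ ℓ) = 1 :=
      Matrix.nonsing_inv_mul _ ((Matrix.isUnit_iff_isUnit_det _).1 hu)
    have h10 : Θ *ᵥ κ = κ := by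
      have h11 : (T + vecMulVec κ ℓ) *ᵥ κ = κ := by
        rw [Matrix.add_mulVec, hκ, Matrix.vecMulVec_mulVec, h1]
        simp
      calc Θ *ᵥ κ = Θ *ᵥ ((T + vecMulVec κ ℓ) *ᵥ κ) := by rw [h11]
        _ = κ := by rw [Matrix.mulVec_mulVec, h9, Matrix.one_mulVec]
    refine ⟨Θ, κ, ℓ, h1, h3, hκ, ?_⟩
    have h12 : Θ * vecMulVec κ ℓ = vecMulVec κ ℓ := by
      rw [Matrix.mul_vecMulVec, h10]
    rw [Matrix.mul_add, h12] at h9
    exact eq_sub_of_add_eq h9

end Pool.Agent.Helper33.SS
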