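import Pool.Agent.Helper33.SS.Defs

/-!
# The Nullstellensatz argument (SS-16)
-/

set_option autoImplicit false

namespace Pool.Agent.Helper33.SS

open MvPolynomial Filter Topology

section aux

variable {K : Type*} [NormedField K]

theorem Flat.add {γ : ℕ → ℝ} {a b : ℕ → K} (ha : Flat γ a) (hb : Flat γ b) :
    Flat γ (fun n => a n + b n) := by
  intro e
  obtain ⟨C, hC⟩ := ha e
  obtain ⟨D, hD⟩ := hb e
  refine ⟨C + D, fun n => ?_⟩
  calc ‖a n + b n‖ ≤ ‖a n‖ + ‖b n‖ := norm_add_le _ _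
    _ ≤ C * γ n ^ e + D * γ n ^ e := add_le_add (hC n) (hD n)
    _ = (C + D) * γ n ^ e := by ring

theorem Flat.bmul {γ : ℕ → ℝ} {a b : ℕ → K} {B : ℝ} (hb : ∀ n, ‖b n‖ ≤ B) (ha : Flat γ a) :
    Flat γ (fun n => b n * a n) := by
  intro e
  obtain ⟨C, hC⟩ := ha e
  refine ⟨B * C, fun n => ?_⟩
  have hB : 0 ≤ B := le_trans (norm_nonneg _) (hb 0)
  calc ‖b n * a n‖ = ‖b n‖ * ‖a n‖ := norm_mul _ _
    _ ≤ B * (C * γ n ^ e) := mul_le_mul (hb n) (hC n) (norm_nonneg _) hB
    _ = B * C * γ n ^ e := by ring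

theorem Flat.shift {γ : ℕ → ℝ} (hγ : ∀ n, 0 < γ n) (hγ1 : ∃ C : ℝ, ∀ n, γ (n + 1) ≤ C * γ n)
    {a : ℕ → K} (ha : Flat γ a) : Flat γ (fun n => a (n + 1)) := by
  intro e
  obtain ⟨C, hC⟩ := ha e
  obtain ⟨D, hD⟩ := hγ1
  refine ⟨|C| * |D| ^ e, fun n => ?_⟩
  calc ‖a (n + 1)‖ ≤ C * γ (n + 1) ^ e := hC _
    _ ≤ |C| * γ (n + 1) ^ e :=
        mul_le_mul_of_nonneg_right (le_abs_self _) (pow_nonneg (hγ _).le _)
    _ ≤ |C| * (|D| * γ n) ^ e := by
        refine mul_le_mul_of_nonneg_left (pow_le_pow_left₀ (hγ _).le ?_ _) (abs_nonneg _)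
        exact (hD n).trans (mul_le_mul_of_nonneg_right (le_abs_self _) (hγ n).le)
    _ = |C| * |D| ^ e * γ n ^ e := by rw [mul_pow]; ring

/-- Flatness may be checked for large `n`. -/
theorem flat_of_eventually {γ : ℕ → ℝ} (hγ : ∀ n, 0 < γ n) {a : ℕ → K} {N : ℕ}
    (h : ∀ e : ℕ, ∃ C : ℝ, ∀ n, N ≤ n → ‖a n‖ ≤ C * γ n ^ e) : Flat γ a := by
  intro e
  obtain ⟨C, hC⟩ := h e
  refine ⟨|C| + ∑ m ∈ Finset.range N, ‖a m‖ / γ m ^ e, fun n => ?_⟩
  have hnn : ∀ m ∈ Finset.range N, 0 ≤ ‖a m‖ / γ m ^ e := fun m _ =>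
    div_nonneg (norm_nonneg _) (pow_nonneg (hγ m).le _)
  have hp : 0 < γ n ^ e := pow_pos (hγ n) e
  by_cases hn : N ≤ n
  · calc ‖a n‖ ≤ C * γ n ^ e := hC n hn
      _ ≤ (|C| + ∑ m ∈ Finset.range N, ‖a m‖ / γ m ^ e) * γ n ^ e := by
          refine mul_le_mul_of_nonneg_right ?_ hp.le
          have := Finset.sum_nonneg hnn
          have := le_abs_self C
          linarith
  · have hm : n ∈ Finset.range N := Finset.mem_range.2 (by omega)
    have h1 := Finset.single_le_sum hnn hm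
    calc ‖a n‖ = ‖a n‖ / γ n ^ e * γ n ^ e := by field_simp
      _ ≤ (|C| + ∑ m ∈ Finset.range N, ‖a m‖ / γ m ^ e) * γ n ^ e := by
          refine mul_le_mul_of_nonneg_right ?_ hp.le
          have := abs_nonneg C
          linarith

end aux

section aux2

variable {K : Type*} [NormedField K] {σ : Type*}

theorem eval_smul_homog {P : MvPolynomial σ K} {d : ℕ} (hP : P.IsHomogeneous d) (μ : K)
    (v : σ → K) : eval (μ • v) P = μ ^ d * eval v P := by
  rw [eval_eq, eval_eq, Finset.mul_sum]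
  refine Finset.sum_congr rfl fun m hm => ?_
  have h1 : m.degree = d := by
    have h0 := hP (mem_support_iff.mp hm)
    rw [Finsupp.degree_eq_weight_one (R := ℕ)]
    exact h0
  have h2 : (∏ i ∈ m.support, μ ^ m i) = μ ^ d := by
    rw [Finset.prod_pow_eq_pow_sum, ← h1]
    rfl
  simp only [Pi.smul_apply, smul_eq_mul, mul_pow]
  rw [Finset.prod_mul_distrib, h2]
  ring

theorem eval_comp (G : σ → MvPolynomial σ K) (z : σ → K) (h : MvPolynomial σ K) :
    eval z (aeval G h) = eval (ev G z) h := by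
  induction h using MvPolynomial.induction_on with
  | C a => simp
  | add p q hp hq => rw [map_add, map_add, map_add, hp, hq]
  | mul_X p i hp => rw [map_mul, map_mul, map_mul, hp, aeval_X, eval_X]; rfl

theorem eval_bdd (g : MvPolynomial σ K) {y : ℕ → σ → K}
    (hy : ∀ i, ∃ B : ℝ, ∀ n, ‖y n i‖ ≤ B) : ∃ B : ℝ, ∀ n, ‖eval (y n) g‖ ≤ B := by
  induction g using MvPolynomial.induction_on with
  | C a => exact ⟨‖a‖, fun n => by rw [eval_C]⟩
  | add p q hp hq =>
    obtain ⟨B, hB⟩ := hp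
    obtain ⟨C, hC⟩ := hq
    exact ⟨B + C, fun n => by rw [map_add]; exact (norm_add_le _ _).trans (add_le_add (hB n) (hC n))⟩
  | mul_X p i hp =>
    obtain ⟨B, hB⟩ := hp
    obtain ⟨C, hC⟩ := hy i
    refine ⟨B * C, fun n => ?_⟩
    rw [map_mul, eval_X, norm_mul]
    exact mul_le_mul (hB n) (hC n) (norm_nonneg _) (le_trans (norm_nonneg _) (hB n))

end aux2


/-- Let `y (n + 1) = G (y n)`, `y n = μ n • (β + x n)`, `‖μ n‖ = 1`, `x n → 0`, `β ∉ Z(E)`. Suppose that
outside `Z(E)` the set of points whose whole `G`-orbit lies in `Z(V)` is a finite union of lines,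
and that `g (y n)` is flat for all `g` in `V`. Then `x n` is flat. Proof: the ideal
`J = {h | n ↦ h (y n) is flat}` is stable under composition with `G`, so its zeros lie in `{0}`, `Z(E)`
or the lines; `P = (X i - β i X i₀) * ∏ L_b * e` with linear forms `L_b` vanishing at those `b` in `B`
which are not proportional to `β` and not at `β`, and `e` in `E` with `e (β) ≠ 0`, vanishes there, so a
power of `P` lies in `J` (`MvPolynomial.vanishingIdeal_zeroLocus_eq_radical`), and
`P (y n) = x n i * (factors bounded below)`. -/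
theorem nul {K : Type*} [NormedField K] [IsUltrametricDist K] [IsAlgClosed K] {σ : Type*}
    [Fintype σ] [DecidableEq σ] (G : σ → MvPolynomial σ K) (V E : Set (MvPolynomial σ K))
    (hE : ∀ g ∈ E, ∃ e : ℕ, g.IsHomogeneous e) (B : Finset (σ → K))
    (hB : ∀ z : σ → K, z ≠ 0 → (∀ n, InZ V ((ev G)^[n] z)) → ¬ InZ E z → ∃ b ∈ B, ∃ c : K, z = c • b)
    (y : ℕ → σ → K) (hy : ∀ n, y (n + 1) = ev G (y n)) (β : σ → K) (i₀ : σ) (hβ : β i₀ = 1)
    (hβE : ¬ InZ E β) (μ : ℕ → K) (hμ : ∀ n, ‖μ n‖ = 1) (x : ℕ → σ → K) (hx : ∀ n, x n i₀ = 0)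
    (hyx : ∀ n, y n = μ n • (β + x n)) (hx0 : Tendsto x atTop (𝓝 0)) (γ : ℕ → ℝ)
    (hγ : ∀ n, 0 < γ n) (hγ1 : ∃ C : ℝ, ∀ n, γ (n + 1) ≤ C * γ n)
    (hV : ∀ g ∈ V, Flat γ (fun n => eval (y n) g)) (i : σ) : Flat γ (fun n => x n i) := by
  classical
  -- the orbit is bounded
  have hbdx : ∀ j, ∃ C : ℝ, ∀ n, ‖x n j‖ ≤ C := by
    intro j
    have h1 : Tendsto (fun n => x n j) atTop (𝓝 0) := (tendsto_pi_nhds.1 hx0) j
    obtain ⟨C, hC⟩ := h1.norm.bddAbove_range
    exact ⟨C, fun n => hC ⟨n, rfl⟩⟩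
  have hbdy : ∀ j, ∃ C : ℝ, ∀ n, ‖y n j‖ ≤ C := by
    intro j
    obtain ⟨C, hC⟩ := hbdx j
    refine ⟨‖β j‖ + C, fun n => ?_⟩
    rw [hyx n, Pi.smul_apply, smul_eq_mul, norm_mul, hμ, one_mul, Pi.add_apply]
    exact (norm_add_le _ _).trans (add_le_add le_rfl (hC n))
  -- the ideal
  let J : Ideal (MvPolynomial σ K) :=
    { carrier := {h | Flat γ (fun n => eval (y n) h)}
      zero_mem' := by
        intro e
        exact ⟨0, fun n => by simp⟩
      add_mem' := by
        intro a b ha hb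
        have := Flat.add ha hb
        simpa only [Set.mem_ofPred_eq, map_add] using this
      smul_mem' := by
        intro c a ha
        obtain ⟨C, hC⟩ := eval_bdd c hbdy
        have := Flat.bmul hC ha
        simpa only [Set.mem_ofPred_eq, smul_eq_mul, map_mul] using this }
  have memJ : ∀ h, h ∈ J ↔ Flat γ (fun n => eval (y n) h) := fun h => Iff.rfl
  have hVJ : ∀ g ∈ V, g ∈ J := hV
  have hJG : ∀ h ∈ J, aeval G h ∈ J := by
    intro h hh
    rw [memJ] at hh ⊢
    have := Flat.shift hγ hγ1 hh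
    refine fun e => ?_
    obtain ⟨C, hC⟩ := this e
    refine ⟨C, fun n => ?_⟩
    show ‖eval (y n) (aeval G h)‖ ≤ _
    rw [eval_comp, ← hy n]
    exact hC n
  -- the zeros of the ideal
  have hZ : ∀ z : σ → K, (∀ h ∈ J, eval z h = 0) → z = 0 ∨ InZ E z ∨ ∃ b ∈ B, ∃ c : K, z = c • b := by
    intro z hz
    by_cases h0 : z = 0
    · exact Or.inl h0
    · by_cases hEz : InZ E z
      · exact Or.inr (Or.inl hEz)
      · refine Or.inr (Or.inr (hB z h0 ?_ hEz))
        have key : ∀ n (h : MvPolynomial σ K), h ∈ J → eval ((ev G)^[n] z) h = 0 := by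
          intro n
          induction n with
          | zero => exact fun h hh => hz h hh
          | succ n ih =>
            intro h hh
            rw [Function.iterate_succ_apply', ← eval_comp]
            exact ih _ (hJG h hh)
        exact fun n g hg => key n g (hVJ g hg)
  -- the polynomial
  obtain ⟨e, heE, heβ⟩ : ∃ e ∈ E, eval β e ≠ 0 := by
    by_contra hcon
    push Not at hcon
    exact hβE hcon
  obtain ⟨de, hde⟩ := hE e heE
  let L : (σ → K) → MvPolynomial σ K := fun b =>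
    if h : ∃ j, b i₀ * β j - b j ≠ 0 then C (b i₀) * X h.choose - C (b h.choose) * X i₀ else 1
  have hLhom : ∀ b, ∃ d, (L b).IsHomogeneous d := by
    intro b
    by_cases h : ∃ j, b i₀ * β j - b j ≠ 0
    · refine ⟨1, ?_⟩
      simp only [L, dif_pos h]
      have h1 : ∀ (a : K) (j : σ), (C a * X j : MvPolynomial σ K).IsHomogeneous 1 := by
        intro a j
        have := (isHomogeneous_C σ a).mul (isHomogeneous_X K j)
        simpa using this
      exact (h1 _ _).sub (h1 _ _)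
    · refine ⟨0, ?_⟩
      simp only [L, dif_neg h]
      exact isHomogeneous_one σ K
  have hLβ : ∀ b, eval β (L b) ≠ 0 := by
    intro b
    by_cases h : ∃ j, b i₀ * β j - b j ≠ 0
    · simp only [L, dif_pos h, map_sub, map_mul, eval_C, eval_X, hβ, mul_one]
      exact h.choose_spec
    · simp only [L, dif_neg h, map_one]
      exact one_ne_zero
  let Q : MvPolynomial σ K := (∏ b ∈ B, L b) * e
  have hQhom : ∃ d, Q.IsHomogeneous d := by
    choose dL hdL using hLhom
    exact ⟨_, (IsHomogeneous.prod B L dL fun b _ => hdL b).mul hde⟩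
  obtain ⟨dQ, hdQ⟩ := hQhom
  have hQβ : eval β Q ≠ 0 := by
    simp only [Q, map_mul, map_prod]
    exact mul_ne_zero (Finset.prod_ne_zero_iff.2 fun b _ => hLβ b) heβ
  let P : MvPolynomial σ K := (X i - C (β i) * X i₀) * Q
  have hPz : ∀ z : σ → K, (∀ h ∈ J, eval z h = 0) → eval z P = 0 := by
    intro z hz
    rcases hZ z hz with rfl | hEz | ⟨b, hb, c, rfl⟩
    · simp [P]
    · have : eval z Q = 0 := by
        simp only [Q, map_mul]
        rw [hEz e heE, mul_zero]
      simp only [P, map_mul, this, mul_zero]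
    · by_cases h : ∃ j, b i₀ * β j - b j ≠ 0
      · have h1 : eval (c • b) (L b) = 0 := by
          simp only [L, dif_pos h, map_sub, map_mul, eval_C, eval_X, Pi.smul_apply, smul_eq_mul]
          ring
        have h2 : eval (c • b) (∏ b ∈ B, L b) = 0 := by
          rw [map_prod]
          exact Finset.prod_eq_zero hb h1
        simp only [P, Q, map_mul, h2, zero_mul, mul_zero]
      · push Not at h
        have h1 : eval (c • b) (X i - C (β i) * X i₀ : MvPolynomial σ K) = 0 := by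
          simp only [map_sub, map_mul, eval_C, eval_X, Pi.smul_apply, smul_eq_mul]
          have := h i
          linear_combination (-c) * this
        simp only [P, map_mul] at h1 ⊢
        rw [h1, zero_mul]
  have hPrad : P ∈ J.radical := by
    rw [← vanishingIdeal_zeroLocus_eq_radical (K := K) J]
    intro z hz
    rw [aeval_eq_eval]
    refine hPz z fun h hh => ?_
    have := hz h hh
    rwa [aeval_eq_eval] at this
  obtain ⟨k, hk⟩ := hPrad
  have hk' : P ^ (k + 1) ∈ J := by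
    rw [pow_succ]
    exact J.mul_mem_right _ hk
  rw [memJ] at hk'
  -- lower bound of the factor
  have hQlow : ∃ δ : ℝ, 0 < δ ∧ ∃ N : ℕ, ∀ n, N ≤ n → δ ≤ ‖eval (y n) Q‖ := by
    have h1 : Tendsto (fun n => eval (β + x n) Q) atTop (𝓝 (eval β Q)) := by
      have hc : Continuous fun v : σ → K => eval v Q := MvPolynomial.continuous_eval Q
      have h2 : Tendsto (fun n => β + x n) atTop (𝓝 (β + 0)) := tendsto_const_nhds.add hx0
      rw [add_zero] at h2
      exact (hc.tendsto β).comp h2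
    have h3 := h1.norm
    have h4 : 0 < ‖eval β Q‖ := norm_pos_iff.2 hQβ
    have h5 : ∀ᶠ n in atTop, ‖eval β Q‖ / 2 < ‖eval (β + x n) Q‖ :=
      h3.eventually (lt_mem_nhds (by linarith))
    obtain ⟨N, hN⟩ := eventually_atTop.1 h5
    refine ⟨‖eval β Q‖ / 2, by linarith, N, fun n hn => ?_⟩
    rw [hyx n, eval_smul_homog hdQ, norm_mul, norm_pow, hμ, one_pow, one_mul]
    exact (hN n hn).le
  obtain ⟨δ, hδ, N, hN⟩ := hQlow
  have hPy : ∀ n, ‖eval (y n) P‖ = ‖x n i‖ * ‖eval (y n) Q‖ := by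
    intro n
    have h1 : eval (y n) (X i - C (β i) * X i₀ : MvPolynomial σ K) = μ n * x n i := by
      simp only [map_sub, map_mul, eval_C, eval_X, hyx n, Pi.smul_apply, smul_eq_mul,
        Pi.add_apply, hβ, hx n]
      ring
    simp only [P]
    rw [map_mul, h1, norm_mul, norm_mul, hμ, one_mul]
  refine flat_of_eventually hγ (N := N) fun e' => ?_
  obtain ⟨C, hC⟩ := hk' (e' * (k + 1))
  refine ⟨max 1 C / δ, fun n hn => ?_⟩
  have h1 : ‖eval (y n) (P ^ (k + 1))‖ ≤ C * γ n ^ (e' * (k + 1)) := hC n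
  rw [map_pow, norm_pow, hPy n, pow_mul] at h1
  have hge : 0 ≤ γ n ^ e' := pow_nonneg (hγ n).le _
  have hm1 : (1 : ℝ) ≤ max 1 C := le_max_left _ _
  have h2 : (‖x n i‖ * ‖eval (y n) Q‖) ^ (k + 1) ≤ (max 1 C * γ n ^ e') ^ (k + 1) := by
    refine h1.trans ?_
    rw [mul_pow]
    refine mul_le_mul_of_nonneg_right ?_ (pow_nonneg hge _)
    exact (le_max_right 1 C).trans (le_self_pow₀ hm1 (Nat.succ_ne_zero k))
  have h3 : ‖x n i‖ * ‖eval (y n) Q‖ ≤ max 1 C * γ n ^ e' :=
    le_of_pow_le_pow_left₀ (Nat.succ_ne_zero k) (by positivity) h2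
  have h4 : ‖x n i‖ * δ ≤ max 1 C * γ n ^ e' :=
    (mul_le_mul_of_nonneg_left (hN n hn) (norm_nonneg _)).trans h3
  rw [div_mul_eq_mul_div, le_div_iff₀ hδ]
  exact h4

end Pool.Agent.Helper33.SS
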