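import Pool.Agent.Helper33.SS.Defs

/-!
# Super-attracted orbits (SS-15)
-/

set_option autoImplicit false

namespace Pool.Agent.Helper33.SS

open Matrix Filter Topology

section gen
open Asymptotics
variable {K : Type*} [NormedField K]

theorem sa_pow_mono {g : ℕ → ℝ} (hg : Tendsto g atTop (𝓝 0)) {a b : ℕ} (h : a ≤ b) :
    (fun n => g n ^ b) =O[atTop] fun n => g n ^ a := by
  obtain ⟨c, rfl⟩ := Nat.exists_eq_add_of_le h
  have h1 : (fun n => g n ^ c) =O[atTop] fun _ => (1 : ℝ) := (hg.pow c).isBigO_one ℝ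
  simpa [pow_add] using (isBigO_refl (fun n => g n ^ a) atTop).mul h1

/-- sequences with an expansion to order `e` in the powers of `W n` -/
def SaW (W : ℕ → K) (g : ℕ → ℝ) (e : ℕ) (b : ℕ → K) : Prop :=
  ∃ P : Polynomial K, (fun n => b n - P.eval (W n)) =O[atTop] fun n => g n ^ e

theorem SaW.congr {W : ℕ → K} {g : ℕ → ℝ} {e : ℕ} {a b : ℕ → K} (h : SaW W g e a)
    (hab : ∀ n, a n = b n) : SaW W g e b := by
  have : a = b := funext hab
  rwa [← this]

theorem SaW.const (W : ℕ → K) (g : ℕ → ℝ) (e : ℕ) (c : K) : SaW W g e (fun _ => c) :=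
  ⟨Polynomial.C c, by simpa using isBigO_zero _ _⟩

theorem SaW.self (W : ℕ → K) (g : ℕ → ℝ) (e : ℕ) : SaW W g e W :=
  ⟨Polynomial.X, by simpa using isBigO_zero _ _⟩

theorem SaW.of_bigO {W : ℕ → K} {g : ℕ → ℝ} {e : ℕ} {b : ℕ → K}
    (h : b =O[atTop] fun n => g n ^ e) : SaW W g e b :=
  ⟨0, by simpa using h⟩

theorem SaW.add {W : ℕ → K} {g : ℕ → ℝ} {e : ℕ} {a b : ℕ → K} (ha : SaW W g e a)
    (hb : SaW W g e b) : SaW W g e (fun n => a n + b n) := by
  obtain ⟨P, hP⟩ := ha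
  obtain ⟨R, hR⟩ := hb
  refine ⟨P + R, (hP.add hR).congr_left fun n => ?_⟩
  simp only [Polynomial.eval_add]
  ring

theorem sa_eval_bdd {W : ℕ → K} (hW : Tendsto W atTop (𝓝 0)) (P : Polynomial K) :
    (fun n => P.eval (W n)) =O[atTop] fun _ => (1 : ℝ) :=
  ((P.continuous.tendsto 0).comp hW).isBigO_one ℝ

theorem SaW.bdd {W : ℕ → K} {g : ℕ → ℝ} {e : ℕ} {b : ℕ → K} (hW : Tendsto W atTop (𝓝 0))
    (hg : Tendsto g atTop (𝓝 0)) (hb : SaW W g e b) : b =O[atTop] fun _ => (1 : ℝ) := by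
  obtain ⟨R, hR⟩ := hb
  have h1 : (fun n => g n ^ e) =O[atTop] fun _ => (1 : ℝ) := by
    simpa using sa_pow_mono hg (Nat.zero_le e)
  have h2 := (hR.trans h1).add (sa_eval_bdd hW R)
  refine h2.congr_left fun n => ?_
  ring

theorem SaW.mul {W : ℕ → K} {g : ℕ → ℝ} {e : ℕ} {a b : ℕ → K} (hW : Tendsto W atTop (𝓝 0))
    (hg : Tendsto g atTop (𝓝 0)) (ha : SaW W g e a)
    (hb : SaW W g e b) : SaW W g e (fun n => a n * b n) := by
  have hbb := hb.bdd hW hg
  obtain ⟨P, hP⟩ := ha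
  obtain ⟨R, hR⟩ := hb
  refine ⟨P * R, ?_⟩
  have h1 := hP.mul hbb
  have h2 := (sa_eval_bdd hW P).mul hR
  simp only [mul_one] at h1
  simp only [one_mul] at h2
  refine (h1.add h2).congr_left fun n => ?_
  simp only [Polynomial.eval_mul]
  ring

/-- the product lemma -/
theorem SaW.mul_succ {W : ℕ → K} {g : ℕ → ℝ} {e : ℕ} {a b : ℕ → K} (he : 1 ≤ e)
    (hg : Tendsto g atTop (𝓝 0)) (ha : SaW W g e a) (ha1 : a =O[atTop] g)
    (hb : SaW W g e b) (hb1 : b =O[atTop] g) : SaW W g (e + 1) (fun n => a n * b n) := by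
  obtain ⟨P, hP⟩ := ha
  obtain ⟨R, hR⟩ := hb
  refine ⟨P * R, ?_⟩
  have hPg : (fun n => P.eval (W n)) =O[atTop] g := by
    have h0 : (fun n => g n ^ e) =O[atTop] g := by
      simpa using sa_pow_mono hg he
    refine (ha1.sub (hP.trans h0)).congr_left fun n => ?_
    ring
  have h1 := hP.mul hb1
  have h2 := hPg.mul hR
  have h1' : (fun n => (a n - P.eval (W n)) * b n) =O[atTop] fun n => g n ^ (e + 1) := by
    refine h1.congr_right fun n => ?_
    ring
  have h2' : (fun n => P.eval (W n) * (b n - R.eval (W n))) =O[atTop] fun n => g n ^ (e + 1) := by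
    refine h2.congr_right fun n => ?_
    ring
  refine (h1'.add h2').congr_left fun n => ?_
  simp only [Polynomial.eval_mul]
  ring

theorem SaW.mvEval {σ : Type*} {W : ℕ → K} {g : ℕ → ℝ} {e : ℕ} (hW : Tendsto W atTop (𝓝 0))
    (hg : Tendsto g atTop (𝓝 0)) {y : ℕ → σ → K} (hy : ∀ s, SaW W g e fun n => y n s)
    (p : MvPolynomial σ K) : SaW W g e fun n => MvPolynomial.eval (y n) p := by
  induction p using MvPolynomial.induction_on with
  | C a => simpa using SaW.const W g e a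
  | add p q hp hq => simpa using hp.add hq
  | mul_X p i hp => simpa using hp.mul hW hg (hy i)

theorem SaW.eval {W : ℕ → K} {g : ℕ → ℝ} {e : ℕ} (hW : Tendsto W atTop (𝓝 0))
    (hg : Tendsto g atTop (𝓝 0)) {y : ℕ → K} (hy : SaW W g e y)
    (p : Polynomial K) : SaW W g e fun n => p.eval (y n) := by
  induction p using Polynomial.induction_on' with
  | add p q hp hq => simpa using hp.add hq
  | monomial k a =>
    induction k with
    | zero => simpa using SaW.const W g e a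
    | succ k ih =>
      refine (ih.mul hW hg hy).imp fun P hP => hP.congr_left fun n => ?_
      simp [pow_succ, mul_assoc]

theorem SaW.sum {α : Type*} {W : ℕ → K} {g : ℕ → ℝ} {e : ℕ} (s : Finset α) {a : α → ℕ → K}
    (h : ∀ i ∈ s, SaW W g e (a i)) : SaW W g e fun n => ∑ i ∈ s, a i n := by
  classical
  induction s using Finset.induction_on with
  | empty => simpa using SaW.const W g e (0 : K)
  | insert i s hi ih =>
    have := (h i (Finset.mem_insert_self i s)).add (ih fun j hj => h j (Finset.mem_insert_of_mem hj))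
    simpa [Finset.sum_insert hi] using this

/-- elements of the ideal of the variables -/
theorem sa_ideal {σ : Type*} {W : ℕ → K} {g : ℕ → ℝ} {e : ℕ} (hW : Tendsto W atTop (𝓝 0))
    (hg : Tendsto g atTop (𝓝 0)) {y : ℕ → σ → K} (hy : ∀ s, SaW W g e fun n => y n s)
    (hy1 : ∀ s, (fun n => y n s) =O[atTop] g) {p : MvPolynomial σ K}
    (hp : p ∈ Ideal.span (Set.range (MvPolynomial.X : σ → MvPolynomial σ K))) :
    (SaW W g e fun n => MvPolynomial.eval (y n) p) ∧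
      (fun n => MvPolynomial.eval (y n) p) =O[atTop] g := by
  refine ⟨SaW.mvEval hW hg hy p, ?_⟩
  refine Submodule.span_induction (p := fun p _ => (fun n => MvPolynomial.eval (y n) p) =O[atTop] g)
    ?_ ?_ ?_ ?_ hp
  · rintro _ ⟨s, rfl⟩
    simpa using hy1 s
  · simpa using isBigO_zero _ _
  · intro p q _ _ hp hq
    simpa using hp.add hq
  · intro a p _ hp
    have h1 := ((SaW.mvEval hW hg hy a).bdd hW hg).mul hp
    simpa using h1

/-- elements of the square of the ideal of the variables -/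
theorem sa_sq {σ : Type*} {W : ℕ → K} {g : ℕ → ℝ} {e : ℕ} (he : 1 ≤ e) (hW : Tendsto W atTop (𝓝 0))
    (hg : Tendsto g atTop (𝓝 0)) {y : ℕ → σ → K} (hy : ∀ s, SaW W g e fun n => y n s)
    (hy1 : ∀ s, (fun n => y n s) =O[atTop] g) {p : MvPolynomial σ K} (hp : p ∈ Sq σ K) :
    (SaW W g (e + 1) fun n => MvPolynomial.eval (y n) p) ∧
      (fun n => MvPolynomial.eval (y n) p) =O[atTop] fun n => g n ^ 2 := by
  rw [Sq, pow_two] at hp
  refine Submodule.mul_induction_on hp ?_ ?_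
  · intro a ha b hb
    obtain ⟨ha1, ha2⟩ := sa_ideal hW hg hy hy1 ha
    obtain ⟨hb1, hb2⟩ := sa_ideal hW hg hy hy1 hb
    constructor
    · simpa using ha1.mul_succ he hg ha2 hb1 hb2
    · refine (ha2.mul hb2).congr (fun n => by simp) fun n => ?_
      ring
  · rintro a b ⟨ha1, ha2⟩ ⟨hb1, hb2⟩
    exact ⟨by simpa using ha1.add hb1, by simpa using ha2.add hb2⟩

theorem sa_sq' {σ : Type*} {g : ℕ → ℝ}
    (hg : Tendsto g atTop (𝓝 0)) {y : ℕ → σ → K}
    (hy1 : ∀ s, (fun n => y n s) =O[atTop] g) {p : MvPolynomial σ K} (hp : p ∈ Sq σ K) :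
    (fun n => MvPolynomial.eval (y n) p) =O[atTop] fun n => g n ^ 2 := by
  have hW : Tendsto (fun _ : ℕ => (0 : K)) atTop (𝓝 0) := tendsto_const_nhds
  refine (sa_sq (e := 1) le_rfl hW hg (fun s => ?_) hy1 hp).2
  exact SaW.of_bigO (by simpa using hy1 s)

end gen

variable {K : Type*} [NormedField K] [IsUltrametricDist K] {ι : Type*} [Fintype ι] [DecidableEq ι]

omit [IsUltrametricDist K] [DecidableEq ι] in
theorem sa_mulVec_le (T : Matrix ι ι K) : ∃ C : ℝ, 0 < C ∧ ∀ v : ι → K, ‖T *ᵥ v‖ ≤ C * ‖v‖ := by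
  refine ⟨1 + ∑ i, ∑ j, ‖T i j‖, by positivity, fun v => ?_⟩
  rw [pi_norm_le_iff_of_nonneg (by positivity)]
  intro i
  have h1 : ‖(T *ᵥ v) i‖ ≤ ∑ j, ‖T i j‖ * ‖v‖ := by
    refine (norm_sum_le _ _).trans (Finset.sum_le_sum fun j _ => ?_)
    rw [norm_mul]
    exact mul_le_mul_of_nonneg_left (norm_le_pi_norm v j) (norm_nonneg _)
  refine h1.trans ?_
  rw [← Finset.sum_mul]
  refine mul_le_mul_of_nonneg_right ?_ (norm_nonneg _)
  have h2 : ∑ j, ‖T i j‖ ≤ ∑ i, ∑ j, ‖T i j‖ :=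
    Finset.single_le_sum (f := fun i => ∑ j, ‖T i j‖) (fun i _ => by positivity) (Finset.mem_univ i)
  linarith


omit [IsUltrametricDist K] [DecidableEq ι] in
/-- flat sequences do not have geometric lower bounds -/
theorem sa_no_lower (x : ℕ → ι → K) {w : K} (hw : ‖w‖ < 1)
    (hflat : ∀ i, Flat (fun n => ‖w‖ ^ n) (fun n => x n i)) {C : ℝ} (hC : 0 < C) (N : ℕ)
    (hN : x N ≠ 0) (h : ∀ n, N ≤ n → ‖x n‖ ≤ C * ‖x (n + 1)‖) : False := by
  obtain ⟨e, he⟩ := exists_pow_lt_of_lt_one (inv_pos.2 hC) hw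
  choose D hD using fun i => hflat i e
  have hD1 : ∀ n, ‖x n‖ ≤ (∑ i, |D i|) * (‖w‖ ^ e) ^ n := by
    intro n
    rw [pi_norm_le_iff_of_nonneg (by positivity)]
    intro i
    have h1 := hD i n
    have h2 : (‖w‖ ^ n) ^ e = (‖w‖ ^ e) ^ n := by
      rw [← pow_mul, ← pow_mul, mul_comm]
    simp only at h1
    rw [h2] at h1
    refine h1.trans (mul_le_mul_of_nonneg_right ?_ (by positivity))
    exact (le_abs_self _).trans
      (Finset.single_le_sum (f := fun i => |D i|) (fun i _ => abs_nonneg _) (Finset.mem_univ i))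
  have h1 : ∀ j, ‖x N‖ ≤ C ^ j * ‖x (N + j)‖ := by
    intro j
    induction j with
    | zero => simp
    | succ j ih =>
      refine ih.trans ?_
      have h2 := h (N + j) (Nat.le_add_right _ _)
      have h3 : C ^ j * ‖x (N + j)‖ ≤ C ^ j * (C * ‖x (N + j + 1)‖) :=
        mul_le_mul_of_nonneg_left h2 (by positivity)
      refine h3.trans (le_of_eq ?_)
      rw [pow_succ, Nat.add_assoc]
      ring
  have h2 : ∀ j, ‖x N‖ ≤ ((∑ i, |D i|) * (‖w‖ ^ e) ^ N) * (C * ‖w‖ ^ e) ^ j := by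
    intro j
    refine (h1 j).trans ((mul_le_mul_of_nonneg_left (hD1 (N + j)) (by positivity)).trans
      (le_of_eq ?_))
    rw [mul_pow, pow_add]
    ring
  have h3 : C * ‖w‖ ^ e < 1 := by
    have := mul_lt_mul_of_pos_left he hC
    rwa [mul_inv_cancel₀ hC.ne'] at this
  have h4 : Tendsto (fun j => ((∑ i, |D i|) * (‖w‖ ^ e) ^ N) * (C * ‖w‖ ^ e) ^ j) atTop (𝓝 0) := by
    have := (tendsto_pow_atTop_nhds_zero_of_lt_one (by positivity) h3).const_mul
      ((∑ i, |D i|) * (‖w‖ ^ e) ^ N)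
    simpa using this
  have h5 : ‖x N‖ ≤ 0 := ge_of_tendsto' h4 h2
  exact hN (norm_le_zero_iff.1 h5)

omit [IsUltrametricDist K] [DecidableEq ι] in
theorem sa_tendsto (x : ℕ → ι → K) {w : K} (hw : ‖w‖ < 1)
    (hflat : ∀ i, Flat (fun n => ‖w‖ ^ n) (fun n => x n i)) : Tendsto x atTop (𝓝 0) := by
  rw [tendsto_pi_nhds]
  intro i
  obtain ⟨C, hC⟩ := hflat i 1
  have h1 : Tendsto (fun n : ℕ => C * (‖w‖ ^ n) ^ 1) atTop (𝓝 0) := by
    have := (tendsto_pow_atTop_nhds_zero_of_lt_one (norm_nonneg w) hw).const_mul C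
    simpa using this
  exact squeeze_zero_norm hC h1

theorem sa_step_ev (T : Matrix ι ι K) (Q : ι → MvPolynomial (ι ⊕ ι) K)
    (hQ : ∀ i, Q i ∈ Sq (ι ⊕ ι) K) (x : ℕ → ι → K)
    (hrec : ∀ n, x (n + 1) = T *ᵥ x n + fun i => MvPolynomial.eval (Sum.elim (x n) (x (n + 1))) (Q i))
    (hx : Tendsto x atTop (𝓝 0)) :
    ∃ C : ℝ, 0 < C ∧ ∀ᶠ n in atTop, ‖x (n + 1)‖ ≤ C * ‖x n‖ := by
  obtain ⟨CT, hCT0, hCT⟩ := sa_mulVec_le T
  obtain ⟨g, hgdef⟩ : ∃ g : ℕ → ℝ, g = fun n => max ‖x n‖ ‖x (n + 1)‖ := ⟨_, rfl⟩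
  have hgn : ∀ n, g n = max ‖x n‖ ‖x (n + 1)‖ := fun n => by rw [hgdef]
  have hg : Tendsto g atTop (𝓝 0) := by
    have h1 : Tendsto (fun n => ‖x n‖) atTop (𝓝 0) := by simpa using hx.norm
    have h2 := h1.comp (tendsto_add_atTop_nat 1)
    rw [hgdef]
    simpa using h1.max h2
  have hg0 : ∀ n, 0 ≤ g n := fun n => by
    rw [hgn]
    exact (norm_nonneg _).trans (le_max_left _ _)
  have hy : ∀ s : ι ⊕ ι, (fun n => Sum.elim (x n) (x (n + 1)) s) =O[atTop] g := by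
    rintro (s | s)
    · refine Asymptotics.IsBigO.of_bound 1 (Eventually.of_forall fun n => ?_)
      rw [one_mul, Real.norm_of_nonneg (hg0 n), hgn]
      exact (norm_le_pi_norm (x n) s).trans (le_max_left _ _)
    · refine Asymptotics.IsBigO.of_bound 1 (Eventually.of_forall fun n => ?_)
      rw [one_mul, Real.norm_of_nonneg (hg0 n), hgn]
      exact (norm_le_pi_norm (x (n + 1)) s).trans (le_max_right _ _)
  have hQb : (fun n => fun i => MvPolynomial.eval (Sum.elim (x n) (x (n + 1))) (Q i))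
      =O[atTop] fun n => g n ^ 2 :=
    Asymptotics.isBigO_pi.2 fun i => sa_sq' hg hy (hQ i)
  obtain ⟨C, hC0, hC⟩ := hQb.exists_pos
  have hsm : ∀ᶠ n in atTop, C * g n < 1 := by
    have h1 : Tendsto (fun n => C * g n) atTop (𝓝 0) := by simpa using hg.const_mul C
    exact h1.eventually_lt_const one_pos
  refine ⟨max 1 CT, lt_max_of_lt_left one_pos, ?_⟩
  filter_upwards [hC.bound, hsm] with n h1 h2
  by_contra hcon
  rw [not_le] at hcon
  have h3 : ‖x n‖ < ‖x (n + 1)‖ :=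
    lt_of_le_of_lt (le_mul_of_one_le_left (norm_nonneg _) (le_max_left _ _)) hcon
  have h4 : g n = ‖x (n + 1)‖ := by rw [hgn]; exact max_eq_right h3.le
  have h5 : 0 < ‖x (n + 1)‖ := lt_of_le_of_lt (norm_nonneg _) h3
  have h6 : ‖fun i => MvPolynomial.eval (Sum.elim (x n) (x (n + 1))) (Q i)‖ < ‖x (n + 1)‖ := by
    refine lt_of_le_of_lt h1 ?_
    rw [Real.norm_of_nonneg (by positivity), pow_two, ← mul_assoc]
    rw [h4] at h2 ⊢
    exact mul_lt_of_lt_one_left h5 h2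
  have h7 : ‖x (n + 1)‖ ≤ max ‖T *ᵥ x n‖
      ‖fun i => MvPolynomial.eval (Sum.elim (x n) (x (n + 1))) (Q i)‖ := by
    conv_lhs => rw [hrec n]
    exact IsUltrametricDist.norm_add_le_max _ _
  have h8 : ‖x (n + 1)‖ ≤ ‖T *ᵥ x n‖ := by
    rcases le_max_iff.1 h7 with h | h
    · exact h
    · exact absurd h (not_le.2 h6)
  have h9 : ‖x (n + 1)‖ ≤ max 1 CT * ‖x n‖ :=
    (h8.trans (hCT _)).trans (mul_le_mul_of_nonneg_right (le_max_right _ _) (norm_nonneg _))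
  exact absurd h9 (not_le.2 hcon)

/-- `x (n + 1) = O (x n)` -/
theorem step_le (T : Matrix ι ι K) (Q : ι → MvPolynomial (ι ⊕ ι) K)
    (hQ : ∀ i, Q i ∈ Sq (ι ⊕ ι) K) (x : ℕ → ι → K)
    (hrec : ∀ n, x (n + 1) = T *ᵥ x n + fun i => MvPolynomial.eval (Sum.elim (x n) (x (n + 1))) (Q i))
    (hx0 : ∀ n, x n ≠ 0) (hx : Tendsto x atTop (𝓝 0)) : ∃ C : ℝ, ∀ n, ‖x (n + 1)‖ ≤ C * ‖x n‖ := by
  obtain ⟨C, _, hC⟩ := sa_step_ev T Q hQ x hrec hx
  have h1 : (fun n => x (n + 1)) =O[atTop] x := Asymptotics.IsBigO.of_bound C hC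
  obtain ⟨D, _, hD⟩ := Asymptotics.bound_of_isBigO_nat_atTop h1
  exact ⟨D, fun n => hD (hx0 n)⟩

/-- the quadratic part of the recurrence -/
theorem sa_quad (T : Matrix ι ι K) (Q : ι → MvPolynomial (ι ⊕ ι) K)
    (hQ : ∀ i, Q i ∈ Sq (ι ⊕ ι) K) (x : ℕ → ι → K)
    (hrec : ∀ n, x (n + 1) = T *ᵥ x n + fun i => MvPolynomial.eval (Sum.elim (x n) (x (n + 1))) (Q i))
    (hx : Tendsto x atTop (𝓝 0)) :
    (fun n => x (n + 1)) =O[atTop] (fun n => ‖x n‖) ∧
    (fun n => fun i => MvPolynomial.eval (Sum.elim (x n) (x (n + 1))) (Q i))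
      =O[atTop] fun n => ‖x n‖ ^ 2 := by
  obtain ⟨C, _, hC⟩ := sa_step_ev T Q hQ x hrec hx
  have hg : Tendsto (fun n => ‖x n‖) atTop (𝓝 0) := by simpa using hx.norm
  have h1 : (fun n => x (n + 1)) =O[atTop] (fun n => ‖x n‖) :=
    Asymptotics.IsBigO.of_bound C (by simpa using hC)
  have h0 : x =O[atTop] (fun n => ‖x n‖) := Asymptotics.isBigO_norm_right.2 (Asymptotics.isBigO_refl _ _)
  refine ⟨h1, Asymptotics.isBigO_pi.2 fun i => sa_sq' hg ?_ (hQ i)⟩
  rintro (s | s)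
  · exact Asymptotics.isBigO_pi.1 h0 s
  · exact Asymptotics.isBigO_pi.1 h1 s

/-- if `T` is invertible then no orbit is super-attracted -/
theorem not_flat (T : Matrix ι ι K) (Q : ι → MvPolynomial (ι ⊕ ι) K)
    (hQ : ∀ i, Q i ∈ Sq (ι ⊕ ι) K) (x : ℕ → ι → K)
    (hrec : ∀ n, x (n + 1) = T *ᵥ x n + fun i => MvPolynomial.eval (Sum.elim (x n) (x (n + 1))) (Q i))
    (hx0 : ∀ n, x n ≠ 0) {w : K} (hw0 : w ≠ 0) (hw : ‖w‖ < 1)
    (hflat : ∀ i, Flat (fun n => ‖w‖ ^ n) (fun n => x n i)) (Θ : Matrix ι ι K) (hΘ : Θ * T = 1) :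
    False := by
  have hx := sa_tendsto x hw hflat
  obtain ⟨h1, h2⟩ := sa_quad T Q hQ x hrec hx
  have hg : Tendsto (fun n => ‖x n‖) atTop (𝓝 0) := by simpa using hx.norm
  obtain ⟨CΘ, hCΘ0, hCΘ⟩ := sa_mulVec_le Θ
  obtain ⟨CQ, hCQ0, hCQ⟩ := h2.exists_pos
  have hsm : ∀ᶠ n in atTop, CΘ * CQ * ‖x n‖ < 1 := by
    have h1 : Tendsto (fun n => CΘ * CQ * ‖x n‖) atTop (𝓝 0) := by simpa using hg.const_mul (CΘ * CQ)
    exact h1.eventually_lt_const one_pos
  obtain ⟨N, hN⟩ := eventually_atTop.1 (hCQ.bound.and hsm)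
  refine sa_no_lower x hw hflat hCΘ0 N (hx0 N) fun n hn => ?_
  obtain ⟨h3, h4⟩ := hN n hn
  obtain ⟨q, hq⟩ : ∃ q : ι → K, q = fun i => MvPolynomial.eval (Sum.elim (x n) (x (n + 1))) (Q i) :=
    ⟨_, rfl⟩
  have hr := hrec n
  rw [← hq] at h3 hr
  rw [Real.norm_of_nonneg (by positivity)] at h3
  have h5 : x n = Θ *ᵥ (x (n + 1) - q) := by
    have : x (n + 1) - q = T *ᵥ x n := by rw [hr]; abel
    rw [this, Matrix.mulVec_mulVec, hΘ, Matrix.one_mulVec]
  have h6 : ‖x n‖ ≤ CΘ * max ‖x (n + 1)‖ ‖q‖ := by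
    conv_lhs => rw [h5]
    refine (hCΘ _).trans (mul_le_mul_of_nonneg_left ?_ hCΘ0.le)
    rw [sub_eq_add_neg]
    refine (IsUltrametricDist.norm_add_le_max _ _).trans ?_
    rw [norm_neg]
  have hpos : 0 < ‖x n‖ := norm_pos_iff.2 (hx0 n)
  have h7 : CΘ * ‖q‖ < ‖x n‖ := by
    calc CΘ * ‖q‖ ≤ CΘ * (CQ * ‖x n‖ ^ 2) := mul_le_mul_of_nonneg_left h3 hCΘ0.le
      _ = (CΘ * CQ * ‖x n‖) * ‖x n‖ := by ring
      _ < ‖x n‖ := mul_lt_of_lt_one_left hpos h4
  rw [mul_max_of_nonneg _ _ hCΘ0.le] at h6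
  rcases le_max_iff.1 h6 with h | h
  · exact h
  · exact absurd h (not_le.2 h7)

/-- step (1): `v = O (x ^ 2)` -/
theorem sa_curve_one (T : Matrix ι ι K) (Q : ι → MvPolynomial (ι ⊕ ι) K)
    (hQ : ∀ i, Q i ∈ Sq (ι ⊕ ι) K) (x : ℕ → ι → K)
    (hrec : ∀ n, x (n + 1) = T *ᵥ x n + fun i => MvPolynomial.eval (Sum.elim (x n) (x (n + 1))) (Q i))
    (hx0 : ∀ n, x n ≠ 0) {w : K} (hw : ‖w‖ < 1)
    (hflat : ∀ i, Flat (fun n => ‖w‖ ^ n) (fun n => x n i)) (Θ : Matrix ι ι K) (κ ℓ : ι → K)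
    (h2 : ℓ ᵥ* T = 0) (h4 : Θ * T = 1 - vecMulVec κ ℓ) :
    (fun n => x n - (ℓ ⬝ᵥ x n) • κ) =O[atTop] fun n => ‖x n‖ ^ 2 := by
  have hx := sa_tendsto x hw hflat
  obtain ⟨hb1, hb2⟩ := sa_quad T Q hQ x hrec hx
  have hg : Tendsto (fun n => ‖x n‖) atTop (𝓝 0) := by simpa using hx.norm
  obtain ⟨q, hq⟩ : ∃ q : ℕ → ι → K,
      q = fun n => fun i => MvPolynomial.eval (Sum.elim (x n) (x (n + 1))) (Q i) := ⟨_, rfl⟩
  have hr : ∀ n, x (n + 1) = T *ᵥ x n + q n := fun n => by rw [hq]; exact hrec n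
  rw [← hq] at hb2
  obtain ⟨CΘ, hCΘ0, hCΘ⟩ := sa_mulVec_le Θ
  obtain ⟨CQ, hCQ0, hCQ⟩ := hb2.exists_pos
  obtain ⟨Cκ, hCκ0, hCκ⟩ := sa_mulVec_le (vecMulVec κ ℓ)
  have hvm : ∀ u : ι → K, vecMulVec κ ℓ *ᵥ u = (ℓ ⬝ᵥ u) • κ := by
    intro u
    rw [Matrix.vecMulVec_mulVec]
    ext i
    simp [mul_comm]
  have hv : ∀ n, x n - (ℓ ⬝ᵥ x n) • κ = Θ *ᵥ (x (n + 1) - q n) := by
    intro n
    have h5 : x (n + 1) - q n = T *ᵥ x n := by rw [hr]; abel
    rw [h5, Matrix.mulVec_mulVec, h4, Matrix.sub_mulVec, Matrix.one_mulVec, hvm]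
  have hW : ∀ n, ℓ ⬝ᵥ x (n + 1) = ℓ ⬝ᵥ q n := by
    intro n
    rw [hr, dotProduct_add, Matrix.dotProduct_mulVec, h2, zero_dotProduct, zero_add]
  obtain ⟨C, hCdef⟩ : ∃ C : ℝ, C = CΘ * CQ * (1 + Cκ) := ⟨_, rfl⟩
  have hC0 : 0 < C := by rw [hCdef]; positivity
  have hsm : ∀ᶠ n in atTop, C * ‖x n‖ < 1 := by
    have h1 : Tendsto (fun n => C * ‖x n‖) atTop (𝓝 0) := by simpa using hg.const_mul C
    exact h1.eventually_lt_const one_pos
  obtain ⟨N, hN⟩ := eventually_atTop.1 (hCQ.bound.and hsm)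
  by_cases hall : ∀ n, N ≤ n → ‖x n - (ℓ ⬝ᵥ x n) • κ‖ ≤ C * ‖x n‖ ^ 2
  · refine Asymptotics.IsBigO.of_bound C (eventually_atTop.2 ⟨N, fun n hn => ?_⟩)
    rw [Real.norm_of_nonneg (by positivity)]
    exact hall n hn
  · exfalso
    push Not at hall
    obtain ⟨m, hm, hbad⟩ := hall
    have key : ∀ n, N ≤ n → C * ‖x n‖ ^ 2 < ‖x n - (ℓ ⬝ᵥ x n) • κ‖ →
        ‖x n - (ℓ ⬝ᵥ x n) • κ‖ ≤ CΘ * ‖x (n + 1)‖ ∧
        ‖x (n + 1) - (ℓ ⬝ᵥ x (n + 1)) • κ‖ = ‖x (n + 1)‖ ∧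
        C * ‖x (n + 1)‖ ^ 2 < ‖x (n + 1) - (ℓ ⬝ᵥ x (n + 1)) • κ‖ := by
      intro n hn hb
      obtain ⟨h5, _⟩ := hN n hn
      obtain ⟨_, h6⟩ := hN (n + 1) (by omega)
      rw [Real.norm_of_nonneg (by positivity)] at h5
      have h7 : ‖x n - (ℓ ⬝ᵥ x n) • κ‖ ≤ CΘ * max ‖x (n + 1)‖ ‖q n‖ := by
        rw [hv n]
        refine (hCΘ _).trans (mul_le_mul_of_nonneg_left ?_ hCΘ0.le)
        rw [sub_eq_add_neg]
        refine (IsUltrametricDist.norm_add_le_max _ _).trans ?_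
        rw [norm_neg]
      have h8 : CΘ * ‖q n‖ ≤ C * ‖x n‖ ^ 2 := by
        calc CΘ * ‖q n‖ ≤ CΘ * (CQ * ‖x n‖ ^ 2) := mul_le_mul_of_nonneg_left h5 hCΘ0.le
          _ = (CΘ * CQ) * ‖x n‖ ^ 2 := by ring
          _ ≤ C * ‖x n‖ ^ 2 := by
            refine mul_le_mul_of_nonneg_right ?_ (by positivity)
            rw [hCdef]
            have : 0 < CΘ * CQ * Cκ := by positivity
            linarith
      have h9 : ‖x n - (ℓ ⬝ᵥ x n) • κ‖ ≤ CΘ * ‖x (n + 1)‖ := by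
        rw [mul_max_of_nonneg _ _ hCΘ0.le] at h7
        rcases le_max_iff.1 h7 with h | h
        · exact h
        · exact absurd (h.trans h8) (not_le.2 hb)
      have h10 : ‖(ℓ ⬝ᵥ x (n + 1)) • κ‖ < ‖x (n + 1)‖ := by
        have h11 : ‖(ℓ ⬝ᵥ x (n + 1)) • κ‖ ≤ Cκ * (CQ * ‖x n‖ ^ 2) := by
          rw [hW, ← hvm]
          exact (hCκ _).trans (mul_le_mul_of_nonneg_left h5 hCκ0.le)
        have h12 : CΘ * (Cκ * (CQ * ‖x n‖ ^ 2)) < CΘ * ‖x (n + 1)‖ := by
          refine lt_of_le_of_lt ?_ (lt_of_lt_of_le hb h9)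
          calc CΘ * (Cκ * (CQ * ‖x n‖ ^ 2)) = (CΘ * CQ * Cκ) * ‖x n‖ ^ 2 := by ring
            _ ≤ C * ‖x n‖ ^ 2 := by
              refine mul_le_mul_of_nonneg_right ?_ (by positivity)
              rw [hCdef]
              have : 0 < CΘ * CQ := by positivity
              linarith
        exact lt_of_le_of_lt h11 (lt_of_mul_lt_mul_left h12 hCΘ0.le)
      have h13 : ‖x (n + 1) - (ℓ ⬝ᵥ x (n + 1)) • κ‖ = ‖x (n + 1)‖ := by
        rw [sub_eq_add_neg, IsUltrametricDist.norm_add_eq_max_of_norm_ne_norm, norm_neg,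
          max_eq_left h10.le]
        rw [norm_neg]
        exact h10.ne'
      refine ⟨h9, h13, ?_⟩
      rw [h13, pow_two, ← mul_assoc]
      exact mul_lt_of_lt_one_left (norm_pos_iff.2 (hx0 _)) h6
    have hB : ∀ j, C * ‖x (m + j)‖ ^ 2 < ‖x (m + j) - (ℓ ⬝ᵥ x (m + j)) • κ‖ := by
      intro j
      induction j with
      | zero => exact hbad
      | succ j ih => exact (key (m + j) (by omega) ih).2.2
    refine sa_no_lower x hw hflat hCΘ0 (m + 1) (hx0 _) fun n hn => ?_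
    obtain ⟨j, rfl⟩ := Nat.exists_eq_add_of_le hn
    have h5 := (key (m + j) (by omega) (hB j)).2.1
    have h6 := (key (m + (j + 1)) (by omega) (hB (j + 1))).1
    have h7 : m + 1 + j = m + j + 1 := by omega
    rw [h7, ← h5]
    exact h6

omit [IsUltrametricDist K] [DecidableEq ι] in
theorem sa_big_mulVec {g : ℕ → ℝ} {e : ℕ} {W : ℕ → K} (A : Matrix ι ι K) {u : ℕ → ι → K}
    (hu : ∀ i, SaW W g e fun n => u n i) (i : ι) : SaW W g e fun n => (A *ᵥ u n) i := by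
  have h1 : ∀ j ∈ (Finset.univ : Finset ι), SaW W g e fun n => A i j * u n j := by
    intro j _
    obtain ⟨P, hP⟩ := hu j
    refine ⟨Polynomial.C (A i j) * P, (hP.const_mul_left (A i j)).congr_left fun n => ?_⟩
    simp only [Polynomial.eval_mul, Polynomial.eval_C]
    ring
  exact SaW.sum Finset.univ h1

omit [IsUltrametricDist K] in
theorem SaW.const_mul {g : ℕ → ℝ} {e : ℕ} {W : ℕ → K} (c : K) {u : ℕ → K}
    (hu : SaW W g e u) : SaW W g e fun n => c * u n := by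
  obtain ⟨P, hP⟩ := hu
  refine ⟨Polynomial.C c * P, (hP.const_mul_left c).congr_left fun n => ?_⟩
  simp only [Polynomial.eval_mul, Polynomial.eval_C]
  ring

omit [IsUltrametricDist K] in
/-- the final dichotomy -/
theorem sa_final {g : ℕ → ℝ} (hg : Tendsto g atTop (𝓝 0)) (hg0 : ∀ n, 0 < g n) {W : ℕ → K}
    (hW : Tendsto W atTop (𝓝 0)) (hWg : W =O[atTop] g) (hgW : g =O[atTop] W) {a : ℕ → K}
    (ha : ∀ e, SaW W g e a) : (∃ n₀, ∀ n, n₀ ≤ n → a n ≠ 0) ∨ Flat g a := by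
  by_cases h : ∃ (e : ℕ) (R : Polynomial K), ((fun n => a n - R.eval (W n)) =O[atTop] fun n => g n ^ e) ∧
      ¬ (Polynomial.X : Polynomial K) ^ e ∣ R
  · left
    obtain ⟨e, R, hR, hnd⟩ := h
    have hR0 : R ≠ 0 := by
      rintro rfl
      exact hnd (dvd_zero _)
    obtain ⟨S, hS1, hS2⟩ := Polynomial.exists_eq_pow_rootMultiplicity_mul_and_not_dvd R hR0 0
    obtain ⟨k, hk⟩ : ∃ k, k = Polynomial.rootMultiplicity 0 R := ⟨_, rfl⟩
    rw [← hk] at hS1
    simp only [Polynomial.C_0, sub_zero] at hS1 hS2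
    have hke : k < e := by
      by_contra hcon
      rw [not_lt] at hcon
      exact hnd (hS1 ▸ (pow_dvd_pow _ hcon).mul_right S)
    have hS0 : S.eval 0 ≠ 0 := by
      intro h0
      exact hS2 (by simpa using Polynomial.dvd_iff_isRoot.2 (show S.IsRoot 0 from h0))
    have h1 : Tendsto (fun n => S.eval (W n)) atTop (𝓝 (S.eval 0)) := (S.continuous.tendsto 0).comp hW
    have h2 : (fun _ : ℕ => (1 : ℝ)) =O[atTop] fun n => S.eval (W n) := by
      have h3 := h1.norm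
      have h4 : ∀ᶠ n in atTop, ‖S.eval 0‖ / 2 < ‖S.eval (W n)‖ :=
        h3.eventually_const_lt (half_lt_self (norm_pos_iff.2 hS0))
      refine Asymptotics.IsBigO.of_bound (‖S.eval 0‖ / 2)⁻¹ ?_
      filter_upwards [h4] with n hn
      have h5 : 0 < ‖S.eval 0‖ / 2 := half_pos (norm_pos_iff.2 hS0)
      rw [norm_one, ← div_eq_inv_mul, le_div_iff₀ h5, one_mul]
      exact hn.le
    have h3 : (fun n => g n ^ k) =O[atTop] fun n => R.eval (W n) := by
      refine ((hgW.pow k).mul h2).congr (fun n => by simp) fun n => ?_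
      rw [hS1, Polynomial.eval_mul, Polynomial.eval_pow, Polynomial.eval_X]
    obtain ⟨C1, hC1, hb1⟩ := h3.exists_pos
    obtain ⟨C2, hC2, hb2⟩ := hR.exists_pos
    have hsm : ∀ᶠ n in atTop, C2 * C1 * g n ^ (e - k) < 1 := by
      have h4 : Tendsto (fun n => C2 * C1 * g n ^ (e - k)) atTop (𝓝 0) := by
        have h5 := (hg.pow (e - k)).const_mul (C2 * C1)
        rwa [zero_pow (by omega), mul_zero] at h5
      exact h4.eventually_lt_const one_pos
    obtain ⟨N, hN⟩ := eventually_atTop.1 ((hb1.bound.and hb2.bound).and hsm)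
    refine ⟨N, fun n hn h0 => ?_⟩
    obtain ⟨⟨h5, h6⟩, h7⟩ := hN n hn
    have hgn := hg0 n
    rw [Real.norm_of_nonneg (by positivity)] at h5 h6
    rw [h0, zero_sub, norm_neg] at h6
    have h8 : g n ^ e = g n ^ (e - k) * g n ^ k := by
      rw [← pow_add, Nat.sub_add_cancel hke.le]
    have h9 : g n ^ k ≤ C2 * C1 * g n ^ (e - k) * g n ^ k := by
      calc g n ^ k ≤ C1 * (C2 * g n ^ e) := h5.trans (mul_le_mul_of_nonneg_left h6 hC1.le)
        _ = C2 * C1 * g n ^ (e - k) * g n ^ k := by rw [h8]; ring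
    have h10 : C2 * C1 * g n ^ (e - k) * g n ^ k < g n ^ k :=
      mul_lt_of_lt_one_left (by positivity) h7
    exact absurd h9 (not_le.2 h10)
  · right
    push Not at h
    intro e
    obtain ⟨R, hR⟩ := ha e
    obtain ⟨S, hS⟩ := h e R hR
    have h1 : (fun n => R.eval (W n)) =O[atTop] fun n => g n ^ e := by
      have h2 := (hWg.pow e).mul (sa_eval_bdd hW S)
      refine h2.congr (fun n => ?_) fun n => by simp
      rw [hS, Polynomial.eval_mul, Polynomial.eval_pow, Polynomial.eval_X]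
    have h2 : a =O[atTop] fun n => g n ^ e := by
      refine (hR.add h1).congr_left fun n => ?_
      ring
    obtain ⟨C, _, hC⟩ := Asymptotics.bound_of_isBigO_nat_atTop h2
    refine ⟨C, fun n => ?_⟩
    have hgn := hg0 n
    have h3 := hC (x := n) (by positivity)
    rwa [Real.norm_of_nonneg (by positivity)] at h3

/-- Let zero be a simple eigenvalue of `T` and let the orbit be super-attracted. Put `W n = ℓ x n` and
`v n = x n - W n κ = Θ (x (n + 1) - Q (x n, x (n + 1)))`; `W (n + 1) = ℓ Q (x n, x (n + 1))`.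
(1) `‖v n‖ ≤ C ‖x n‖ ^ 2` for large `n`: otherwise `‖v n‖ ≤ ‖Θ‖ ‖x (n + 1)‖`, and
`‖W (n + 1) κ‖ = O (‖x n‖ ^ 2)` is smaller than `‖x (n + 1)‖`, so `‖x (n + 1)‖ = ‖v (n + 1)‖` and the
same holds at `n + 1`, hence `‖x (n + j)‖ ≥ c ^ j ‖x n‖` for all `j`, which contradicts `hflat`. So
`‖x n‖ = ‖W n‖ ‖κ‖` for large `n`, and `x (n + 1) = T v n + Q = O (‖x n‖ ^ 2)`.
(2) Let `𝓦 e` be the ring of sequences `b` with `‖b n - P (W n)‖ ≤ C ‖x n‖ ^ e` for some polynomial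
`P` in one variable. If `a`, `b` in `𝓦 e` are both `O (‖x n‖)`, `e ≥ 1`, then `a b` is in `𝓦 (e + 1)`.
By induction on `e ≥ 1` the entries of `v n` and of `x (n + 1)` (as sequences in `n`) are in `𝓦 e`:
`Q (x n, x (n + 1))` is in `𝓦 (e + 1)`, so is `W (n + 1)`, so is `v (n + 1) = P (W (n + 1)) + O (‖x (n + 1)‖ ^ e)`,
as `‖x (n + 1)‖ ^ e = O (‖x n‖ ^ (2 e))`, so are `x (n + 1)` and `v n = Θ (x (n + 1) - Q)`.
(3) Hence for every polynomial `P` the value `P (x n)` is non-zero for large `n` or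
`O (‖x n‖ ^ e)` for all `e`. -/
theorem curve_dichotomy (T : Matrix ι ι K) (Q : ι → MvPolynomial (ι ⊕ ι) K)
    (hQ : ∀ i, Q i ∈ Sq (ι ⊕ ι) K) (x : ℕ → ι → K)
    (hrec : ∀ n, x (n + 1) = T *ᵥ x n + fun i => MvPolynomial.eval (Sum.elim (x n) (x (n + 1))) (Q i))
    (hx0 : ∀ n, x n ≠ 0) {w : K} (hw0 : w ≠ 0) (hw : ‖w‖ < 1)
    (hflat : ∀ i, Flat (fun n => ‖w‖ ^ n) (fun n => x n i)) (Θ : Matrix ι ι K) (κ ℓ : ι → K)
    (h1 : ℓ ⬝ᵥ κ = 1) (h2 : ℓ ᵥ* T = 0) (h3 : T *ᵥ κ = 0) (h4 : Θ * T = 1 - vecMulVec κ ℓ)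
    (P : MvPolynomial ι K) :
    (∃ n₀, ∀ n, n₀ ≤ n → MvPolynomial.eval (x n) P ≠ 0) ∨
      Flat (fun n => ‖x n‖) (fun n => MvPolynomial.eval (x n) P) := by
  have hx := sa_tendsto x hw hflat
  obtain ⟨hb1, hb2⟩ := sa_quad T Q hQ x hrec hx
  have hv2 := sa_curve_one T Q hQ x hrec hx0 hw hflat Θ κ ℓ h2 h4
  obtain ⟨g, hgdef⟩ : ∃ g : ℕ → ℝ, g = fun n => ‖x n‖ := ⟨_, rfl⟩
  have hgn : ∀ n, g n = ‖x n‖ := fun n => by rw [hgdef]
  have hg : Tendsto g atTop (𝓝 0) := by rw [hgdef]; simpa using hx.norm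
  have hg0 : ∀ n, 0 < g n := fun n => by rw [hgn]; exact norm_pos_iff.2 (hx0 n)
  obtain ⟨q, hq⟩ : ∃ q : ℕ → ι → K,
      q = fun n => fun i => MvPolynomial.eval (Sum.elim (x n) (x (n + 1))) (Q i) := ⟨_, rfl⟩
  have hr : ∀ n, x (n + 1) = T *ᵥ x n + q n := fun n => by rw [hq]; exact hrec n
  rw [← hq] at hb2
  simp only [← hgn] at hv2 hb1 hb2
  rw [show (fun n => g n) = g from rfl] at hb1
  obtain ⟨W, hWdef⟩ : ∃ W : ℕ → K, W = fun n => ℓ ⬝ᵥ x n := ⟨_, rfl⟩
  have hWn : ∀ n, ℓ ⬝ᵥ x n = W n := fun n => by rw [hWdef]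
  simp only [hWn] at hv2
  obtain ⟨v, hvdef⟩ : ∃ v : ℕ → ι → K, v = fun n => x n - W n • κ := ⟨_, rfl⟩
  rw [← hvdef] at hv2
  have hxv : ∀ n, x n = W n • κ + v n := fun n => by rw [hvdef]; simp
  have hvm : ∀ u : ι → K, vecMulVec κ ℓ *ᵥ u = (ℓ ⬝ᵥ u) • κ := by
    intro u
    rw [Matrix.vecMulVec_mulVec]
    ext i
    simp [mul_comm]
  have hv : ∀ n, v n = Θ *ᵥ (x (n + 1) - q n) := by
    intro n
    have h5 : x (n + 1) - q n = T *ᵥ x n := by rw [hr]; abel
    rw [h5, Matrix.mulVec_mulVec, h4, Matrix.sub_mulVec, Matrix.one_mulVec, hvm, hvdef, hWn]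
  have hWq : ∀ n, W (n + 1) = ℓ ⬝ᵥ q n := by
    intro n
    rw [← hWn, hr, dotProduct_add, Matrix.dotProduct_mulVec, h2, zero_dotProduct,
      zero_add]
  have hx1 : ∀ n, x (n + 1) = T *ᵥ v n + q n := by
    intro n
    rw [hr, hvdef]
    simp only [Matrix.mulVec_sub, Matrix.mulVec_smul, h3, smul_zero, sub_zero]
  -- sizes
  have h0 : x =O[atTop] g := by
    rw [hgdef]
    exact Asymptotics.isBigO_norm_right.2 (Asymptotics.isBigO_refl _ _)
  obtain ⟨CT, hCT0, hCT⟩ := sa_mulVec_le T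
  have hTv : (fun n => T *ᵥ v n) =O[atTop] fun n => g n ^ 2 :=
    (Asymptotics.IsBigO.of_bound CT (Eventually.of_forall fun n => hCT (v n))).trans hv2
  have hx2 : (fun n => x (n + 1)) =O[atTop] fun n => g n ^ 2 :=
    (hTv.add hb2).congr_left fun n => (hx1 n).symm
  have hWg : W =O[atTop] g := by
    have h5 : (fun n => ∑ i, ℓ i * x n i) =O[atTop] g :=
      Asymptotics.IsBigO.fun_sum fun i _ => (Asymptotics.isBigO_pi.1 h0 i).const_mul_left (ℓ i)
    rw [hWdef]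
    exact h5
  have hW : Tendsto W atTop (𝓝 0) := hWg.trans_tendsto hg
  have hgW : g =O[atTop] W := by
    obtain ⟨C, hC0, hC⟩ := hv2.exists_pos
    have hsm : ∀ᶠ n in atTop, C * g n < 1 := by
      have h1 : Tendsto (fun n => C * g n) atTop (𝓝 0) := by simpa using hg.const_mul C
      exact h1.eventually_lt_const one_pos
    refine Asymptotics.IsBigO.of_bound ‖κ‖ ?_
    filter_upwards [hC.bound, hsm] with n h5 h6
    have hgpos := hg0 n
    rw [Real.norm_of_nonneg (by positivity)] at h5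
    rw [Real.norm_of_nonneg hgpos.le]
    have h7 : ‖v n‖ < g n := by
      refine lt_of_le_of_lt h5 ?_
      rw [pow_two, ← mul_assoc]
      exact mul_lt_of_lt_one_left hgpos h6
    have h8 : g n ≤ max ‖W n • κ‖ ‖v n‖ := by
      rw [hgn]
      conv_lhs => rw [hxv n]
      exact IsUltrametricDist.norm_add_le_max _ _
    rcases le_max_iff.1 h8 with h | h
    · rwa [norm_smul, mul_comm] at h
    · exact absurd h (not_le.2 h7)
  -- the induction
  have ind : ∀ e, 1 ≤ e → (∀ i, SaW W g e fun n => v n i) ∧ (∀ i, SaW W g e fun n => x (n + 1) i) := by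
    intro e he
    induction e, he using Nat.le_induction with
    | base =>
      have h12 : (fun n => g n ^ 2) =O[atTop] fun n => g n ^ 1 := sa_pow_mono hg (by norm_num)
      exact ⟨fun i => SaW.of_bigO ((Asymptotics.isBigO_pi.1 hv2 i).trans h12),
        fun i => SaW.of_bigO ((Asymptotics.isBigO_pi.1 hx2 i).trans h12)⟩
    | succ e he ih =>
      obtain ⟨ihv, ihx⟩ := ih
      have hxe : ∀ i, SaW W g e fun n => x n i := by
        intro i
        have h5 := ((SaW.self W g e).const_mul (κ i)).add (ihv i)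
        refine h5.congr fun n => ?_
        have h6 := congrFun (hxv n) i
        simp only [Pi.add_apply, Pi.smul_apply, smul_eq_mul] at h6
        rw [h6]
        ring
      have hqe : ∀ i, SaW W g (e + 1) fun n => q n i := by
        intro i
        have h5 := (sa_sq (p := Q i) he hW hg (y := fun n => Sum.elim (x n) (x (n + 1))) ?_ ?_ (hQ i)).1
        · rw [hq]
          exact h5
        · rintro (s | s)
          · exact hxe s
          · exact ihx s
        · rintro (s | s)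
          · exact Asymptotics.isBigO_pi.1 h0 s
          · exact Asymptotics.isBigO_pi.1 hb1 s
      have hWe : SaW W g (e + 1) fun n => W (n + 1) := by
        have h5 : SaW W g (e + 1) fun n => ∑ i, ℓ i * q n i :=
          SaW.sum Finset.univ fun i _ => (hqe i).const_mul (ℓ i)
        refine h5.congr fun n => ?_
        rw [hWq n]
        rfl
      have hve : ∀ i, SaW W g (e + 1) fun n => v (n + 1) i := by
        intro i
        obtain ⟨R, hR⟩ := ihv i
        have h5 : (fun n => v (n + 1) i - R.eval (W (n + 1))) =O[atTop] fun n => g (n + 1) ^ e :=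
          hR.comp_tendsto (tendsto_add_atTop_nat 1)
        have h6 : (fun n => g (n + 1)) =O[atTop] fun n => g n ^ 2 := by
          rw [hgdef]
          rw [hgdef] at hx2
          exact hx2.norm_left
        have h7 : (fun n => g (n + 1) ^ e) =O[atTop] fun n => g n ^ (e + 1) := by
          refine (h6.pow e).trans ?_
          have h8 : (fun n => g n ^ (2 * e)) =O[atTop] fun n => g n ^ (e + 1) :=
            sa_pow_mono hg (by omega)
          exact h8.congr_left fun n => by rw [pow_mul]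
        have h8 : SaW W g (e + 1) fun n => v (n + 1) i - R.eval (W (n + 1)) :=
          SaW.of_bigO (h5.trans h7)
        refine (h8.add (hWe.eval hW hg R)).congr fun n => ?_
        ring
      have hxe' : ∀ i, SaW W g (e + 1) fun n => x (n + 1) i := by
        intro i
        have h5 := (hWe.const_mul (κ i)).add (hve i)
        refine h5.congr fun n => ?_
        have h6 := congrFun (hxv (n + 1)) i
        simp only [Pi.add_apply, Pi.smul_apply, smul_eq_mul] at h6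
        rw [h6]
        ring
      refine ⟨fun i => ?_, hxe'⟩
      have h4' : ∀ i, SaW W g (e + 1) fun n => (x (n + 1) - q n) i := by
        intro i
        refine ((hxe' i).add ((hqe i).const_mul (-1))).congr fun n => ?_
        simp only [Pi.sub_apply]
        ring
      have h5 := sa_big_mulVec Θ h4' i
      refine h5.congr fun n => ?_
      rw [hv n]
  have hxe : ∀ e i, SaW W g e fun n => x n i := by
    intro e i
    obtain ⟨R, hR⟩ : SaW W g (e + 1) fun n => x n i := by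
      have h5 := ((SaW.self W g (e + 1)).const_mul (κ i)).add ((ind (e + 1) (by omega)).1 i)
      refine h5.congr fun n => ?_
      have h6 := congrFun (hxv n) i
      simp only [Pi.add_apply, Pi.smul_apply, smul_eq_mul] at h6
      rw [h6]
      ring
    exact ⟨R, hR.trans (sa_pow_mono hg (Nat.le_succ e))⟩
  have hfin := sa_final hg hg0 hW hWg hgW fun e => SaW.mvEval hW hg (hxe e) P
  rw [hgdef] at hfin
  exact hfin

end Pool.Agent.Helper33.SS
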