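import Pool.Agent.Helper33.SS.Boot
import Pool.Agent.Helper33.SS.Dom
import Pool.Agent.Helper33.SS.Eig
import Pool.Agent.Helper33.SS.LinAlg
import Pool.Agent.Helper33.SS.SA
import Pool.Agent.Helper33.SS.Nst
import Pool.Agent.Helper33.SS.Itp

/-!
# Orbits attracted by a fixed point
-/

set_option autoImplicit false

namespace Pool.Agent.Helper33.SS

open MvPolynomial Filter Topology Matrix

/-- base change to `ℂ_[p]` -/
noncomputable def cp {p : ℕ} [Fact p.Prime] {σ τ : Type} (F : τ → MvPolynomial σ ℤ_[p]) :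
    τ → MvPolynomial σ ℂ_[p] := fun j => MvPolynomial.map (io p) (F j)

theorem norm_io (p : ℕ) [Fact p.Prime] (z : ℤ_[p]) : ‖io p z‖ = ‖z‖ := by
  simp only [io, RingHom.comp_apply]
  exact PadicComplex.norm_extends' p (z : ℚ_[p])

theorem io_injective (p : ℕ) [Fact p.Prime] : Function.Injective (io p) := by
  intro a b h
  have h1 : ‖a - b‖ = 0 := by rw [← norm_io, map_sub, h, sub_self, norm_zero]
  exact sub_eq_zero.1 (norm_eq_zero.1 h1)

theorem norm_p_Cp (p : ℕ) [Fact p.Prime] : ‖(p : ℂ_[p])‖ = (p : ℝ)⁻¹ := by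
  have h := norm_io p (p : ℤ_[p])
  rw [map_natCast] at h
  rw [h, PadicInt.norm_p]

theorem eval_io {p : ℕ} [Fact p.Prime] {σ : Type} (x : σ → ℤ_[p]) (g : MvPolynomial σ ℤ_[p]) :
    eval (fun i => io p (x i)) (MvPolynomial.map (io p) g) = io p (eval x g) := by
  rw [eval_map]
  exact (MvPolynomial.eval₂_comp (io p) x g).symm

theorem eval_smul_form {R : Type*} [CommRing R] {σ : Type*} {e : ℕ} {g : MvPolynomial σ R}
    (hg : g.IsHomogeneous e) (c : R) (x : σ → R) : eval (c • x) g = c ^ e * eval x g := by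
  rw [MvPolynomial.eval_eq, MvPolynomial.eval_eq, Finset.mul_sum]
  refine Finset.sum_congr rfl fun m hm => ?_
  have hd : ∑ i ∈ m.support, m i = e := by
    have := hg (MvPolynomial.mem_support_iff.1 hm)
    rw [Finsupp.weight_apply] at this
    simpa [Finsupp.sum] using this
  have h1 : ∏ i ∈ m.support, ((c • x) i) ^ m i = c ^ e * ∏ i ∈ m.support, x i ^ m i := by
    rw [← hd, ← Finset.prod_pow_eq_pow_sum, ← Finset.prod_mul_distrib]
    exact Finset.prod_congr rfl fun i _ => by rw [Pi.smul_apply, smul_eq_mul, mul_pow]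
  rw [h1]; ring

theorem inZ_io {p : ℕ} [Fact p.Prime] {σ : Type} (V : Set (MvPolynomial σ ℤ_[p]))
    (x : σ → ℤ_[p]) :
    InZ (MvPolynomial.map (io p) '' V) (fun i => io p (x i)) ↔ InZ V x := by
  constructor
  · intro h g hg
    have := h _ ⟨g, hg, rfl⟩
    rw [eval_io] at this
    exact (map_eq_zero_iff _ (io_injective p)).1 this
  · rintro h _ ⟨g, hg, rfl⟩
    rw [eval_io, h g hg, map_zero]

/-- the recurrence for the affine coordinates of an orbit near a fixed point -/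
theorem exists_recurrence {K : Type*} [Field K] {σ : Type*} [Fintype σ] [DecidableEq σ]
    (G : σ → MvPolynomial σ K) (D : ℕ) (hG : ∀ i, (G i).IsHomogeneous D) (β : σ → K) (i₀ : σ)
    (hβ : β i₀ = 1) (c : K) (hc : c ≠ 0) (hfix : ∀ i, eval β (G i) = c * β i)
    (y : ℕ → σ → K) (hy : ∀ n, y (n + 1) = ev G (y n)) (μ : ℕ → K) (hμ : ∀ n, μ n ≠ 0)
    (x : ℕ → {j : σ // j ≠ i₀} → K) (hyx : ∀ n, y n = μ n • (β + extz i₀ (x n))) :
    ∃ Q : {j : σ // j ≠ i₀} → MvPolynomial ({j : σ // j ≠ i₀} ⊕ {j : σ // j ≠ i₀}) K,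
      (∀ j, Q j ∈ Sq _ K) ∧ ∀ n, x (n + 1) = tmat (jac G β) β i₀ c *ᵥ x n
        + fun j => eval (Sum.elim (x n) (x (n + 1))) (Q j) := by
  obtain ⟨Q, hQ, h⟩ := chart G β i₀ hβ c hc hfix
  refine ⟨Q, hQ, fun n => h _ _ fun j => ?_⟩
  have h1 : ∀ i, y (n + 1) i = μ n ^ D * eval (β + extz i₀ (x n)) (G i) := by
    intro i
    rw [hy, hyx n]
    exact eval_smul_form (hG i) _ _
  have h2 : ∀ i, y (n + 1) i = μ (n + 1) * (β i + extz i₀ (x (n + 1)) i) := by
    intro i
    rw [hyx (n + 1)]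
    rfl
  have h3 : μ (n + 1) = μ n ^ D * eval (β + extz i₀ (x n)) (G i₀) := by
    have := h2 i₀
    rw [h1, hβ] at this
    simp only [extz, dif_pos, add_zero, mul_one] at this
    exact this.symm
  have h4 := h2 j
  rw [h1, h3, mul_assoc] at h4
  exact mul_left_cancel₀ (pow_ne_zero _ (hμ n)) h4

section flat
variable {K : Type*} [NormedField K]

theorem Flat.of_eventually {γ : ℕ → ℝ} (hγ : ∀ n, 0 < γ n) {a : ℕ → K} (n₀ : ℕ)
    (h : ∀ e : ℕ, ∃ C : ℝ, ∀ n, n₀ ≤ n → ‖a n‖ ≤ C * γ n ^ e) : Flat γ a := by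
  intro e
  obtain ⟨C, hC⟩ := h e
  refine ⟨max C 0 + ∑ i ∈ Finset.range n₀, ‖a i‖ / γ i ^ e, fun n => ?_⟩
  have hs : 0 ≤ ∑ i ∈ Finset.range n₀, ‖a i‖ / γ i ^ e :=
    Finset.sum_nonneg fun i _ => div_nonneg (norm_nonneg _) (pow_nonneg (hγ i).le _)
  have hg : 0 < γ n ^ e := pow_pos (hγ n) e
  by_cases hn : n₀ ≤ n
  · refine (hC n hn).trans (mul_le_mul_of_nonneg_right ?_ hg.le)
    linarith [le_max_left C 0]
  · have h1 : ‖a n‖ / γ n ^ e ≤ ∑ i ∈ Finset.range n₀, ‖a i‖ / γ i ^ e :=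
      Finset.single_le_sum (f := fun i => ‖a i‖ / γ i ^ e)
        (fun i _ => div_nonneg (norm_nonneg _) (pow_nonneg (hγ i).le _))
        (Finset.mem_range.2 (not_le.1 hn))
    rw [div_le_iff₀ hg] at h1
    refine h1.trans (mul_le_mul_of_nonneg_right ?_ hg.le)
    linarith [le_max_right C 0]

theorem Flat.of_norm_le {γ : ℕ → ℝ} {a b : ℕ → K} (h : ∀ n, ‖a n‖ ≤ ‖b n‖) (hb : Flat γ b) :
    Flat γ a := by
  intro e
  obtain ⟨C, hC⟩ := hb e
  exact ⟨C, fun n => (h n).trans (hC n)⟩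

end flat

/-- from one residue class to all indices -/
theorem flat_all {K : Type*} [NormedField K] {ι : Type*} [Fintype ι] {w : K} (hw0 : w ≠ 0)
    (hw : ‖w‖ < 1) (x : ℕ → ι → K) {C : ℝ} (hC : ∀ n, ‖x (n + 1)‖ ≤ C * ‖x n‖) (k : ℕ)
    (hk : 1 ≤ k) (j : ℕ) (h : ∀ i, Flat (fun m => ‖w‖ ^ m) (fun m => x (k * m + j) i)) (i : ι) :
    Flat (fun n => ‖w‖ ^ n) (fun n => x n i) := by
  have hw0' : 0 < ‖w‖ := norm_pos_iff.2 hw0
  set C' : ℝ := max C 1 with hC'
  have hC1 : 1 ≤ C' := le_max_right _ _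
  have hC0 : 0 ≤ C' := zero_le_one.trans hC1
  have hstep : ∀ n, ‖x (n + 1)‖ ≤ C' * ‖x n‖ := fun n =>
    (hC n).trans (mul_le_mul_of_nonneg_right (le_max_left _ _) (norm_nonneg _))
  have hit : ∀ n i, ‖x (n + i)‖ ≤ C' ^ i * ‖x n‖ := by
    intro n i
    induction i with
    | zero => simp
    | succ i ih =>
      rw [← add_assoc, pow_succ']
      calc ‖x (n + i + 1)‖ ≤ C' * ‖x (n + i)‖ := hstep _
        _ ≤ C' * (C' ^ i * ‖x n‖) := mul_le_mul_of_nonneg_left ih hC0
        _ = _ := by ring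
  apply Flat.of_eventually (fun n => pow_pos hw0' n) j
  intro e
  choose Ci hCi using fun i' => h i' (k * e)
  set A : ℝ := ∑ i', |Ci i'| with hA
  have hA0 : 0 ≤ A := Finset.sum_nonneg fun _ _ => abs_nonneg _
  have hxm : ∀ m, ‖x (k * m + j)‖ ≤ A * (‖w‖ ^ m) ^ (k * e) := by
    intro m
    have hp : 0 ≤ (‖w‖ ^ m) ^ (k * e) := by positivity
    refine (pi_norm_le_iff_of_nonneg (mul_nonneg hA0 hp)).2 fun i' => ?_
    refine (hCi i' m).trans (mul_le_mul_of_nonneg_right ?_ hp)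
    exact (le_abs_self _).trans (Finset.single_le_sum (f := fun i' => |Ci i'|)
      (fun _ _ => abs_nonneg _) (Finset.mem_univ i'))
  refine ⟨C' ^ k * A * (‖w‖ ^ ((j + k) * e))⁻¹, fun n hn => ?_⟩
  obtain ⟨m, r, hr, rfl⟩ : ∃ m r, r < k ∧ n = k * m + j + r := by
    refine ⟨(n - j) / k, (n - j) % k, Nat.mod_lt _ hk, ?_⟩
    have := Nat.div_add_mod (n - j) k
    omega
  have h1 : ‖x (k * m + j + r) i‖ ≤ C' ^ k * (A * (‖w‖ ^ m) ^ (k * e)) := by
    calc ‖x (k * m + j + r) i‖ ≤ ‖x (k * m + j + r)‖ := norm_le_pi_norm _ i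
      _ ≤ C' ^ r * ‖x (k * m + j)‖ := hit _ _
      _ ≤ C' ^ k * (A * (‖w‖ ^ m) ^ (k * e)) :=
          mul_le_mul (pow_le_pow_right₀ hC1 hr.le) (hxm m) (norm_nonneg _) (pow_nonneg hC0 _)
  refine h1.trans ?_
  rw [mul_assoc, mul_assoc]
  refine mul_le_mul_of_nonneg_left (mul_le_mul_of_nonneg_left ?_ hA0) (pow_nonneg hC0 _)
  have hpos : 0 < ‖w‖ ^ ((j + k) * e) := pow_pos hw0' _
  rw [le_inv_mul_iff₀ hpos, ← pow_mul, ← pow_mul, ← pow_add]
  apply pow_le_pow_of_le_one hw0'.le hw.le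
  have h2 : (k * m + j + r) * e ≤ (k * m + j + k) * e := Nat.mul_le_mul_right _ (by omega)
  calc (k * m + j + r) * e ≤ (k * m + j + k) * e := h2
    _ = (j + k) * e + m * (k * e) := by ring

theorem stage2 {p : ℕ} [Fact p.Prime] (hp3 : 3 ≤ p) {σ : Type} [Fintype σ] [DecidableEq σ]
    (G : σ → MvPolynomial σ ℤ_[p]) (D : ℕ) (hD : 0 < D) (hG : ∀ i, (G i).IsHomogeneous D)
    (β : σ → ℤ_[p]) (i₀ : σ) (hβ : β i₀ = 1) (c : ℤ_[p]) (hc : ‖c‖ = 1)
    (hfix : ∀ i, eval β (G i) = c * β i)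
    (y : ℕ → σ → ℤ_[p]) (hy : ∀ n, y (n + 1) = ev G (y n)) (hyu : ∀ n, ‖y n i₀‖ = 1)
    (hyβ : ∃ C : ℝ, ∀ n i, ‖y n i - y n i₀ * β i‖ ≤ C * ((p : ℝ)⁻¹) ^ n)
    (hyne : ∀ n, y n ≠ y n i₀ • β)
    (V E : Set (MvPolynomial σ ℤ_[p])) (hV : ∀ g ∈ V, ∃ e : ℕ, g.IsHomogeneous e)
    (hE : ∀ g ∈ E, ∃ e : ℕ, g.IsHomogeneous e) (hβE : ¬ InZ E β)
    (hfin : ∀ k, 1 ≤ k → ∃ B : Finset (σ → ℂ_[p]), ∀ z : σ → ℂ_[p], z ≠ 0 →
      (∀ n, InZ (MvPolynomial.map (io p) '' V) ((ev (cp G))^[k * n] z)) →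
      ¬ InZ (MvPolynomial.map (io p) '' E) z → ∃ b ∈ B, ∃ c : ℂ_[p], z = c • b)
    (hrank : Fintype.card σ ≤ (((jac G β).map (io p)) ^ 2).rank + 1) :
    Sparse {n | InZ V (y n)} := by
  classical
  have hpp : p.Prime := Fact.out
  have hp0 : (0 : ℝ) < (p : ℝ)⁻¹ := inv_pos.2 (by exact_mod_cast hpp.pos)
  have hp1 : (p : ℝ)⁻¹ < 1 := inv_lt_one_of_one_lt₀ (by exact_mod_cast hpp.one_lt)
  set β' : σ → ℂ_[p] := fun i => io p (β i) with hβ'
  set Y : ℕ → σ → ℂ_[p] := fun n i => io p (y n i) with hY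
  set μ : ℕ → ℂ_[p] := fun n => io p (y n i₀) with hμdef
  have hμ : ∀ n, ‖μ n‖ = 1 := fun n => by rw [hμdef]; simp only [norm_io, hyu]
  have hμ0 : ∀ n, μ n ≠ 0 := fun n h => by
    have := hμ n
    rw [h, norm_zero] at this
    exact zero_ne_one this
  set X' : ℕ → σ → ℂ_[p] := fun n i => Y n i / μ n - β' i with hX'
  have hβ1 : β' i₀ = 1 := by simp only [hβ', hβ, map_one]
  have hX0 : ∀ n, X' n i₀ = 0 := by
    intro n
    simp only [hX', hβ1]
    have : Y n i₀ = μ n := rfl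
    rw [this, div_self (hμ0 n), sub_self]
  set x : ℕ → {j : σ // j ≠ i₀} → ℂ_[p] := fun n j => X' n j with hx
  have hext : ∀ n, extz i₀ (x n) = X' n := by
    intro n
    funext j
    by_cases h : j = i₀
    · subst h
      simp only [extz, dif_pos, hX0]
    · simp only [extz, dif_neg h, hx]
  have hYX : ∀ n, Y n = μ n • (β' + X' n) := by
    intro n
    funext i
    simp only [Pi.smul_apply, Pi.add_apply, smul_eq_mul, hX']
    rw [add_sub_cancel, mul_div_cancel₀ _ (hμ0 n)]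
  have hYx : ∀ n, Y n = μ n • (β' + extz i₀ (x n)) := fun n => by rw [hext, hYX]
  obtain ⟨C₀, hC₀⟩ := hyβ
  have hXb : ∀ n i, ‖X' n i‖ ≤ C₀ * ((p : ℝ)⁻¹) ^ n := by
    intro n i
    have h1 : X' n i = io p (y n i - y n i₀ * β i) / μ n := by
      rw [map_sub, map_mul, sub_div]
      simp only [hX']
      rw [mul_div_cancel_left₀ _ (hμ0 n)]
    rw [h1, norm_div, hμ, div_one, norm_io]
    exact hC₀ n i
  have hYrec : ∀ n, Y (n + 1) = ev (cp G) (Y n) := by
    intro n
    have := ev_map (io p) G (y n)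
    simp only [hY]
    rw [hy n]
    exact this.symm
  have hG' : ∀ i, (cp G i).IsHomogeneous D := fun i => (hG i).map _
  have hc0 : io p c ≠ 0 := by
    intro h
    have := norm_io p c
    rw [h, norm_zero, hc] at this
    exact zero_ne_one this
  have hfix' : ∀ i, eval β' (cp G i) = io p c * β' i := by
    intro i
    simp only [cp, hβ']
    rw [eval_io, hfix, map_mul]
  obtain ⟨Q, hQ, hrec⟩ := exists_recurrence (cp G) D hG' β' i₀ hβ1 (io p c) hc0 hfix' Y hYrec μ
    hμ0 x hYx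
  set T := tmat (jac (cp G) β') β' i₀ (io p c) with hT
  -- the matrix is integral
  obtain ⟨ci, hci⟩ : ∃ ci : ℤ_[p], ci * c = 1 := by
    obtain ⟨u, hu⟩ := PadicInt.isUnit_iff.2 hc
    exact ⟨↑u⁻¹, by rw [← hu, Units.inv_mul]⟩
  have hJ : jac (cp G) β' = (jac G β).map (io p) := jac_map (io p) G β
  set T0 : Matrix {j : σ // j ≠ i₀} {j : σ // j ≠ i₀} ℤ_[p] :=
    Matrix.of fun j l => ci * (jac G β j l - β j * jac G β i₀ l) with hT0
  have hJ' : ∀ j l, jac (cp G) β' j l = io p (jac G β j l) := fun j l => by rw [hJ]; rfl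
  have hTT0 : T = T0.map (io p) := by
    ext j l
    simp only [hT, tmat, hJ', hT0, Matrix.of_apply, Matrix.map_apply, map_mul, map_sub]
    congr 1
    have : io p ci * io p c = 1 := by rw [← map_mul, hci, map_one]
    exact (eq_inv_of_mul_eq_one_left this).symm
  obtain ⟨w, k, hw0, hw1, hwp, hk, hgood⟩ := exists_good p T0.charpoly T0.charpoly_monic
  have hgoodT : ∀ ν, T.charpoly.IsRoot ν → GoodEig (p : ℝ)⁻¹ w (ν ^ k) := by
    intro ν hν
    apply hgood
    rwa [hTT0, Matrix.charpoly_map] at hν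
  have hw0' : 0 < ‖w‖ := norm_pos_iff.2 hw0
  have hC₀0 : 0 ≤ C₀ := by
    have := (norm_nonneg _).trans (hXb 0 i₀)
    simpa using this
  have hdec : ∀ j i, ∃ C : ℝ, ∀ m, ‖x (k * m + j) i‖ ≤ C * ‖w‖ ^ m := by
    intro j i
    refine ⟨C₀, fun m => (hXb _ _).trans (mul_le_mul_of_nonneg_left ?_ hC₀0)⟩
    calc ((p : ℝ)⁻¹) ^ (k * m + j) ≤ ((p : ℝ)⁻¹) ^ m :=
          pow_le_pow_of_le_one hp0.le hp1.le (by nlinarith)
      _ ≤ ‖w‖ ^ m := pow_le_pow_left₀ hp0.le hwp m
  have hboot := boot hp0 hp1 hw0 hw1 T Q hQ x hrec k hk hgoodT hdec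
  set a : MvPolynomial σ ℤ_[p] → ℕ → ℕ → ℂ_[p] :=
    fun g j m => eval (β' + X' (k * m + j)) (MvPolynomial.map (io p) g) with ha
  have hexp : ∀ g j M, HasExp (p : ℝ)⁻¹ w M (a g j) := by
    intro g j M
    refine HasExp.eval (z := fun m => β' + X' (k * m + j)) hp0.le hw1.le (fun i => ?_) _
    by_cases h : i = i₀
    · have : (fun m => (β' + X' (k * m + j)) i) = fun _ => β' i := by
        funext m
        rw [h, Pi.add_apply, hX0, add_zero]
      rw [this]
      exact HasExp.of_adic hp0.le hw1.le (Adic.const hp0.le _)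
    · exact HasExp.add hp0.le (HasExp.of_adic hp0.le hw1.le (Adic.const hp0.le (β' i)))
        (hboot M j ⟨i, h⟩)
  have hzero : ∀ n, ∀ g ∈ V, (eval (y n) g = 0 ↔
      eval (β' + X' n) (MvPolynomial.map (io p) g) = 0) := by
    intro n g hg
    obtain ⟨e, he⟩ := hV g hg
    have h1 : io p (eval (y n) g) = μ n ^ e * eval (β' + X' n) (MvPolynomial.map (io p) g) := by
      rw [← eval_io, ← eval_smul_form (he.map _), ← hYX]
    rw [← map_eq_zero_iff _ (io_injective p), h1, mul_eq_zero]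
    simp [hμ0 n]
  have hxlim : Tendsto X' atTop (𝓝 0) := by
    rw [tendsto_pi_nhds]
    intro i
    rw [Pi.zero_apply]
    refine squeeze_zero_norm (hXb · i) ?_
    have := (tendsto_pow_atTop_nhds_zero_of_lt_one hp0.le hp1).const_mul C₀
    simpa using this
  have hβE' : ¬ InZ (MvPolynomial.map (io p) '' E) β' := by
    rw [hβ', inZ_io]
    exact hβE
  have hE' : ∀ g ∈ MvPolynomial.map (io p) '' E, ∃ e : ℕ, g.IsHomogeneous e := by
    rintro _ ⟨g, hg, rfl⟩
    obtain ⟨e, he⟩ := hE g hg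
    exact ⟨e, he.map _⟩
  -- flatness of the values of forms does not depend on the scaling
  have hflatscale : ∀ (γ : ℕ → ℝ) (t : ℕ → ℕ), ∀ g ∈ V,
      Flat γ (fun m => eval (β' + X' (t m)) (MvPolynomial.map (io p) g)) →
      Flat γ (fun m => eval (Y (t m)) (MvPolynomial.map (io p) g)) := by
    intro γ t g hg h
    obtain ⟨e, he⟩ := hV g hg
    refine Flat.of_norm_le (fun m => ?_) h
    rw [hYX, eval_smul_form (he.map _), norm_mul, norm_pow, hμ, one_pow, one_mul]
  by_cases hall : ∀ j < k, ∃ g ∈ V, Sparse {m | a g j m = 0}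
  · refine Sparse.of_classes 0 k hk fun j hj => ?_
    obtain ⟨g, hg, hs⟩ := hall j hj
    refine hs.mono fun m hm => ?_
    have h1 := (hzero _ g hg).1 (hm g hg)
    rw [show 0 + j + k * m = k * m + j by ring] at h1
    exact h1
  · push Not at hall
    obtain ⟨j, hj, hns⟩ := hall
    have hflat1 : ∀ g ∈ V, Flat (fun m => ‖w‖ ^ m) (a g j) := fun g hg =>
      (HasExp.dichotomy hp3 (norm_p_Cp p) hw0 hw1 (hexp g j)).resolve_left (hns g hg)
    have hitk : ev (itp (cp G) k) = (ev (cp G))^[k] := by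
      funext z
      exact ev_itp _ _ _
    have hYit : ∀ n i, Y (n + i) = (ev (cp G))^[i] (Y n) := by
      intro n i
      induction i with
      | zero => rfl
      | succ i ih => rw [Function.iterate_succ_apply', ← ih, ← hYrec]; rfl
    obtain ⟨B, hB⟩ := hfin k hk
    have hflat2 : ∀ i, Flat (fun m => ‖w‖ ^ m) (fun m => X' (k * m + j) i) := by
      refine nul (itp (cp G) k) (MvPolynomial.map (io p) '' V) (MvPolynomial.map (io p) '' E)
        hE' B ?_ (fun m => Y (k * m + j)) ?_ β' i₀ hβ1 hβE' (fun m => μ (k * m + j))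
        (fun m => hμ _) (fun m => X' (k * m + j)) (fun m => hX0 _) (fun m => hYX _) ?_
        (fun m => ‖w‖ ^ m) (fun m => pow_pos hw0' m) ⟨1, fun m => ?_⟩ ?_
      · intro z hz hz1 hz2
        refine hB z hz (fun n => ?_) hz2
        have := hz1 n
        rwa [hitk, ← Function.iterate_mul] at this
      · intro m
        rw [hitk, ← hYit]
        congr 1
        ring
      · refine hxlim.comp (tendsto_atTop_mono (fun m => ?_) tendsto_id)
        have := Nat.mul_le_mul_right m hk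
        simp only [id]
        omega
      · rw [one_mul]
        exact pow_le_pow_of_le_one hw0'.le hw1.le (Nat.le_succ m)
      · rintro _ ⟨g, hg, rfl⟩
        exact hflatscale _ (fun m => k * m + j) g hg (hflat1 g hg)
    have hx0 : ∀ n, x n ≠ 0 := by
      intro n h
      apply hyne n
      funext i
      apply io_injective p
      have h1 : X' n = 0 := by
        rw [← hext n, h]
        funext i
        simp [extz]
      have h2 := congrFun (hYX n) i
      rw [h1, add_zero] at h2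
      simp only [Pi.smul_apply, smul_eq_mul] at h2 ⊢
      rw [map_mul]
      exact h2
    have hxlim' : Tendsto x atTop (𝓝 0) := by
      rw [tendsto_pi_nhds] at hxlim ⊢
      intro i
      exact hxlim i
    obtain ⟨C₁, hC₁⟩ := step_le T Q hQ x hrec hx0 hxlim'
    have hflat3 : ∀ i, Flat (fun n => ‖w‖ ^ n) (fun n => x n i) :=
      flat_all hw0 hw1 x hC₁ k hk j fun i => hflat2 i
    have hDne : (D : ℂ_[p]) ≠ 0 := by exact_mod_cast hD.ne'
    have hJβ : jac (cp G) β' *ᵥ β' = ((D : ℂ_[p]) * io p c) • β' := by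
      funext i
      have := jac_mulVec_self hG' β' i
      rw [Matrix.mulVec, dotProduct, this, hfix']
      simp only [Pi.smul_apply, smul_eq_mul]
      ring
    rw [← hJ] at hrank
    rcases linalg (jac (cp G) β') β' i₀ hβ1 (io p c) D hc0 hDne hJβ hrank with
      ⟨Θ, hΘ⟩ | ⟨Θ, κ, ℓ, h1, h2, h3, h4⟩
    · exact (not_flat T Q hQ x hrec hx0 hw0 hw1 hflat3 Θ hΘ).elim
    · -- the super-attracted case
      set P : MvPolynomial σ ℤ_[p] → MvPolynomial {j : σ // j ≠ i₀} ℂ_[p] := fun g =>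
        aeval (fun i => (C (β' i) : MvPolynomial {j : σ // j ≠ i₀} ℂ_[p]) +
          if h : i = i₀ then 0 else X ⟨i, h⟩) (MvPolynomial.map (io p) g) with hP
      have hPe : ∀ g n, eval (x n) (P g) = eval (β' + X' n) (MvPolynomial.map (io p) g) := by
        intro g n
        simp only [hP]
        rw [← MvPolynomial.coe_aeval_eq_eval, ← MvPolynomial.coe_aeval_eq_eval]
        change (aeval (x n)) _ = (aeval (β' + X' n)) _
        rw [← AlgHom.comp_apply, MvPolynomial.comp_aeval]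
        congr 2
        funext i
        simp only [map_add, MvPolynomial.aeval_C, Pi.add_apply, Algebra.algebraMap_self,
          RingHom.id_apply]
        congr 1
        by_cases h : i = i₀
        · rw [dif_pos h, map_zero, h, hX0]
        · rw [dif_neg h, MvPolynomial.aeval_X]
      by_cases hev : ∃ g ∈ V, ∃ n₀, ∀ n, n₀ ≤ n → eval (x n) (P g) ≠ 0
      · obtain ⟨g, hg, n₀, hn₀⟩ := hev
        refine Sparse.of_finite ((Set.finite_Iio n₀).subset fun n hn => ?_)
        by_contra hnn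
        have h5 := (hzero n g hg).1 (hn g hg)
        rw [← hPe] at h5
        exact hn₀ n (not_lt.1 hnn) h5
      · push Not at hev
        have hflat4 : ∀ g ∈ V, Flat (fun n => ‖x n‖) (fun n => eval (x n) (P g)) := by
          intro g hg
          refine (curve_dichotomy T Q hQ x hrec hx0 hw0 hw1 hflat3 Θ κ ℓ h1 h2 h3 h4
            (P g)).resolve_left ?_
          rintro ⟨n₀, hn₀⟩
          obtain ⟨n, hn, hn'⟩ := hev g hg n₀
          exact hn₀ n hn hn'
        obtain ⟨B1, hB1⟩ := hfin 1 le_rfl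
        have hflat5 : ∀ i, Flat (fun n => ‖x n‖) (fun n => X' n i) := by
          refine nul (cp G) (MvPolynomial.map (io p) '' V) (MvPolynomial.map (io p) '' E)
            hE' B1 ?_ Y hYrec β' i₀ hβ1 hβE' μ hμ X' hX0 hYX hxlim (fun n => ‖x n‖)
            (fun n => norm_pos_iff.2 (hx0 n)) ⟨C₁, hC₁⟩ ?_
          · intro z hz hz1 hz2
            exact hB1 z hz (fun n => by rw [one_mul]; exact hz1 n) hz2
          · rintro _ ⟨g, hg, rfl⟩
            refine hflatscale _ (fun n => n) g hg ?_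
            have := hflat4 g hg
            simp only [hPe] at this
            exact this
        -- contradiction
        exfalso
        choose Ci hCi using fun i : {j : σ // j ≠ i₀} => hflat5 i 2
        set A : ℝ := ∑ i, |Ci i| with hA
        have hA0 : 0 ≤ A := Finset.sum_nonneg fun _ _ => abs_nonneg _
        have hxn : ∀ n, ‖x n‖ ≤ A * ‖x n‖ ^ 2 := by
          intro n
          refine (pi_norm_le_iff_of_nonneg (mul_nonneg hA0 (by positivity))).2 fun i => ?_
          refine (hCi i n).trans (mul_le_mul_of_nonneg_right ?_ (by positivity))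
          exact (le_abs_self _).trans (Finset.single_le_sum (f := fun i => |Ci i|)
            (fun _ _ => abs_nonneg _) (Finset.mem_univ i))
        have hlim : Tendsto (fun n => A * ‖x n‖) atTop (𝓝 0) := by
          have := hxlim'.norm.const_mul A
          simpa using this
        obtain ⟨n, hn⟩ := (hlim.eventually (gt_mem_nhds zero_lt_one)).exists
        have hpos : 0 < ‖x n‖ := norm_pos_iff.2 (hx0 n)
        have := hxn n
        nlinarith

end Pool.Agent.Helper33.SS
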