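import Pool.Agent.Helper33.SS.Vec

/-!
# Bootstrapping (SS-8)
-/

set_option autoImplicit false

namespace Pool.Agent.Helper33.SS

open Matrix

variable {K : Type*} [NormedField K] [IsUltrametricDist K] [CompleteSpace K] [IsAlgClosed K]
  {ρ : ℝ} {w : K}

theorem boot_iter {ι : Type*} [Fintype ι] [DecidableEq ι] (T : Matrix ι ι K)
    (x q : ℕ → ι → K) (hrec : ∀ n, x (n + 1) = T *ᵥ x n + q n) (s n : ℕ) :
    x (n + s) = (T ^ s) *ᵥ x n + ∑ t ∈ Finset.range s, (T ^ (s - 1 - t)) *ᵥ q (n + t) := by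
  induction s with
  | zero => simp
  | succ s ih =>
    rw [← add_assoc, hrec, ih, Matrix.mulVec_add, Matrix.mulVec_mulVec, ← pow_succ',
      Finset.sum_range_succ, add_assoc]
    congr 1
    have : s + 1 - 1 - s = 0 := by omega
    rw [this, pow_zero, Matrix.one_mulVec]
    congr 1
    rw [Matrix.mulVec_sum]
    refine Finset.sum_congr rfl fun t ht => ?_
    rw [Finset.mem_range] at ht
    rw [Matrix.mulVec_mulVec, ← pow_succ']
    congr 2
    omega

theorem boot_eig {ι : Type*} [Fintype ι] [DecidableEq ι] (T : Matrix ι ι K) (k : ℕ) (hk : 1 ≤ k)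
    (μ : K) (hμ : (T ^ k).charpoly.IsRoot μ) : ∃ ν, T.charpoly.IsRoot ν ∧ μ = ν ^ k := by
  rw [← Matrix.mem_spectrum_iff_isRoot_charpoly] at hμ
  rw [spectrum.map_pow_of_pos T (by omega : 0 < k)] at hμ
  obtain ⟨ν, hν, rfl⟩ := hμ
  exact ⟨ν, (Matrix.mem_spectrum_iff_isRoot_charpoly).1 hν, rfl⟩

/-- Let `x (n + 1) = T x n + Q (x n, x (n + 1))` with `Q` of order at least two, let the `k`-th
powers of the eigenvalues of `T` be good, and let `x (k m + j) = O(w ^ m)`. Then all coordinates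
of `x (k m + j)` have expansions in `m` to every order. Proof: induction on `M`; for all `j`,
`x (k (m+1) + j) = T^k x (k m + j) + ∑_{i<k} T^(k-1-i) Q (x (k m + j + i), x (k m + j + i + 1))`,
the last sum has expansions to order `M + 1` by `HasExp.eval_gain`; apply `HasExp.rec_vec` to
`A = T ^ k`. -/
theorem boot (hρ : 0 < ρ) (hρ1 : ρ < 1) (hw0 : w ≠ 0) (hw : ‖w‖ < 1)
    {ι : Type*} [Fintype ι] [DecidableEq ι] (T : Matrix ι ι K)
    (Q : ι → MvPolynomial (ι ⊕ ι) K) (hQ : ∀ i, Q i ∈ Sq (ι ⊕ ι) K) (x : ℕ → ι → K)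
    (hrec : ∀ n, x (n + 1) = T *ᵥ x n + fun i => MvPolynomial.eval (Sum.elim (x n) (x (n + 1))) (Q i))
    (k : ℕ) (hk : 1 ≤ k) (hT : ∀ μ, T.charpoly.IsRoot μ → GoodEig ρ w (μ ^ k))
    (hdec : ∀ j i, ∃ C : ℝ, ∀ m, ‖x (k * m + j) i‖ ≤ C * ‖w‖ ^ m) (M j : ℕ) (i : ι) :
    HasExp ρ w M (fun m => x (k * m + j) i) := by
  induction M generalizing j i with
  | zero =>
    obtain ⟨C, hC⟩ := hdec j i
    refine HasExp.of_bound hρ.le (C := |C|) fun n => ?_
    rw [zero_mul, pow_zero, mul_one]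
    refine (hC n).trans ((le_abs_self _).trans ?_)
    rw [abs_mul, abs_of_nonneg (pow_nonneg (norm_nonneg w) n)]
    exact mul_le_of_le_one_right (abs_nonneg _) (pow_le_one₀ (norm_nonneg w) hw.le)
  | succ M ih =>
    set q : ℕ → ι → K := fun n i => MvPolynomial.eval (Sum.elim (x n) (x (n + 1))) (Q i) with hq
    have hqe : ∀ j l, HasExp ρ w (M + 1) (fun m => q (k * m + j) l) := by
      intro j l
      refine HasExp.eval_gain (z := fun m => Sum.elim (x (k * m + j)) (x (k * m + j + 1))) hρ.le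
        hw.le ?_ ?_ (Q l) (hQ l)
      · rintro (a | a)
        · exact ih j a
        · exact ih (j + 1) a
      · rintro (a | a)
        · exact hdec j a
        · exact hdec (j + 1) a
    refine HasExp.rec_vec hρ hρ1 hw0 hw (M + 1) (T ^ k) ?_ (fun m => x (k * m + j))
      (fun m => ∑ t ∈ Finset.range k, (T ^ (k - 1 - t)) *ᵥ q (k * m + j + t)) ?_ ?_ i
    · intro μ hμ
      obtain ⟨ν, hν, rfl⟩ := boot_eig T k hk μ hμ
      exact hT ν hν
    · intro l
      have : (fun n => (∑ t ∈ Finset.range k, (T ^ (k - 1 - t)) *ᵥ q (k * n + j + t)) l) =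
          fun n => ∑ t ∈ Finset.range k, ∑ u ∈ Finset.univ,
            (T ^ (k - 1 - t)) l u * q (k * n + (j + t)) u := by
        funext n
        rw [Finset.sum_apply]
        refine Finset.sum_congr rfl fun t _ => ?_
        rw [← add_assoc]
        rfl
      rw [this]
      exact HasExp.sum hρ.le _ fun t _ => HasExp.sum hρ.le _ fun u _ =>
        HasExp.const_mul hρ.le _ (hqe (j + t) u)
    · intro m
      have := boot_iter T x q hrec k (k * m + j)
      rw [← this]
      congr 1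
      ring

end Pool.Agent.Helper33.SS
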