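import Pool.Agent.Helper33.SS.Defs

/-!
# The recurrence in an affine chart (SS-13)
-/

set_option autoImplicit false

namespace Pool.Agent.Helper33.SS

open MvPolynomial Matrix

variable {K : Type*} [Field K] {σ : Type*} [Fintype σ] [DecidableEq σ]

/-- first order Taylor expansion modulo the square of an ideal -/
private theorem taylor {A : Type*} [CommRing A] [Algebra K A] (I : Ideal A) (y : σ → A)
    (hy : ∀ i, y i ∈ I) (β : σ → K) (P : MvPolynomial σ K) :
    aeval (fun i => algebraMap K A (β i) + y i) P - algebraMap K A (eval β P)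
      - ∑ l, algebraMap K A (eval β (pderiv l P)) * y l ∈ I ^ 2 := by
  induction P using MvPolynomial.induction_on with
  | C a => simp
  | add p q hp hq =>
    have h := Ideal.add_mem _ hp hq
    have e : aeval (fun i => algebraMap K A (β i) + y i) (p + q)
          - algebraMap K A (eval β (p + q))
          - ∑ l, algebraMap K A (eval β (pderiv l (p + q))) * y l
        = (aeval (fun i => algebraMap K A (β i) + y i) p - algebraMap K A (eval β p)
            - ∑ l, algebraMap K A (eval β (pderiv l p)) * y l)
          + (aeval (fun i => algebraMap K A (β i) + y i) q - algebraMap K A (eval β q)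
            - ∑ l, algebraMap K A (eval β (pderiv l q)) * y l) := by
      simp only [map_add, add_mul, Finset.sum_add_distrib]
      ring
    rw [e]
    exact h
  | mul_X p i hp =>
    set a := aeval (fun i => algebraMap K A (β i) + y i) p with ha
    set p0 := algebraMap K A (eval β p) with hp0
    set p1 := ∑ l, algebraMap K A (eval β (pderiv l p)) * y l with hp1
    have h1 : p1 ∈ I := Ideal.sum_mem _ fun l _ => Ideal.mul_mem_left _ _ (hy l)
    have h2 : p1 * y i ∈ I ^ 2 := by
      rw [pow_two]
      exact Ideal.mul_mem_mul h1 (hy i)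
    have e1 : ∑ l, algebraMap K A (eval β (pderiv l (p * X i))) * y l
        = algebraMap K A (β i) * p1 + p0 * y i := by
      have : ∀ l, algebraMap K A (eval β (pderiv l (p * X i))) * y l
          = algebraMap K A (β i) * (algebraMap K A (eval β (pderiv l p)) * y l)
            + (if l = i then p0 * y i else 0) := by
        intro l
        rw [pderiv_mul, map_add, map_mul, map_mul, eval_X, pderiv_X, map_add, map_mul, map_mul]
        by_cases hl : l = i
        · subst hl
          simp only [Pi.single_eq_same, map_one, if_true]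
          ring
        · rw [if_neg hl]
          have : (Pi.single l 1 : σ → MvPolynomial σ K) i = 0 := by
            rw [Pi.single_apply, if_neg (fun h => hl h.symm)]
          rw [this]
          simp only [map_zero]
          ring
      rw [Finset.sum_congr rfl fun l _ => this l, Finset.sum_add_distrib, ← Finset.mul_sum,
        ← hp1]
      simp
    have e2 : aeval (fun i => algebraMap K A (β i) + y i) (p * X i)
          - algebraMap K A (eval β (p * X i))
          - ∑ l, algebraMap K A (eval β (pderiv l (p * X i))) * y l
        = (algebraMap K A (β i) + y i) * (a - p0 - p1) + p1 * y i := by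
      rw [e1, map_mul, aeval_X, map_mul, eval_X, map_mul]
      ring
    rw [e2]
    exact Ideal.add_mem _ (Ideal.mul_mem_left _ _ hp) h2

/-- extension by zero of a vector indexed by the coordinates different from `i₀` -/
def extz (i₀ : σ) (x : {j : σ // j ≠ i₀} → K) : σ → K :=
  fun j => if h : j = i₀ then 0 else x ⟨j, h⟩

/-- the derivative of the map in the chart `x i₀ = 1` at a fixed point -/
def tmat (J : Matrix σ σ K) (β : σ → K) (i₀ : σ) (c : K) :
    Matrix {j : σ // j ≠ i₀} {j : σ // j ≠ i₀} K :=
  Matrix.of fun j l => c⁻¹ * (J j l - β j * J i₀ l)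

/-- If `β + extz x` is mapped by `G` to a multiple of `β + extz x'` then
`x' = T x + Q (x, x')` with `Q` of order at least two (`G β = c β`, `β i₀ = 1`). Proof: Taylor
expansion `G_j (β + X) = c β_j + (J X)_j + q_j (X)` with `q_j` in the square of the ideal of the
variables; `c x'_j = (J X)_j - β_j (J X)_{i₀} + q_j - β_j q_{i₀} - ((J X)_{i₀} + q_{i₀}) x'_j`. -/
theorem chart (G : σ → MvPolynomial σ K) (β : σ → K) (i₀ : σ) (hβ : β i₀ = 1) (c : K)
    (hc : c ≠ 0) (hfix : ∀ i, eval β (G i) = c * β i) :
    ∃ Q : {j : σ // j ≠ i₀} → MvPolynomial ({j : σ // j ≠ i₀} ⊕ {j : σ // j ≠ i₀}) K,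
      (∀ j, Q j ∈ Sq _ K) ∧ ∀ x x' : {j : σ // j ≠ i₀} → K,
        (∀ j, eval (β + extz i₀ x) (G j)
          = eval (β + extz i₀ x) (G i₀) * (β j + extz i₀ x' j)) →
        x' = tmat (jac G β) β i₀ c *ᵥ x + fun j => eval (Sum.elim x x') (Q j) := by
  classical
  let τ := {j : σ // j ≠ i₀}
  let A := MvPolynomial (τ ⊕ τ) K
  let I : Ideal A := Ideal.span (Set.range (X : τ ⊕ τ → A))
  let y : σ → A := fun l => if h : l = i₀ then 0 else X (Sum.inl ⟨l, h⟩)
  have hy : ∀ l, y l ∈ I := by
    intro l
    by_cases h : l = i₀
    · simp only [y, h, dif_pos, Ideal.zero_mem]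
    · simp only [y, h, dif_neg, not_false_eq_true]
      exact Ideal.subset_span ⟨_, rfl⟩
  let q : σ → A := fun j => aeval (fun i => algebraMap K A (β i) + y i) (G j)
    - algebraMap K A (eval β (G j)) - ∑ l, algebraMap K A (eval β (pderiv l (G j))) * y l
  have hq : ∀ j, q j ∈ I ^ 2 := fun j => taylor I y hy β (G j)
  let s : A := ∑ l, algebraMap K A (eval β (pderiv l (G i₀))) * y l
  have hs : s ∈ I := Ideal.sum_mem _ fun l _ => Ideal.mul_mem_left _ _ (hy l)
  refine ⟨fun j => C c⁻¹ * (q j - C (β j) * q i₀ - (s * X (Sum.inr j) + q i₀ * X (Sum.inr j))),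
    fun j => ?_, ?_⟩
  · refine Ideal.mul_mem_left _ _ (Ideal.sub_mem _ (Ideal.sub_mem _ (hq _)
      (Ideal.mul_mem_left _ _ (hq _))) (Ideal.add_mem _ ?_ (Ideal.mul_mem_right _ _ (hq _))))
    change s * X (Sum.inr j) ∈ I ^ 2
    rw [pow_two]
    exact Ideal.mul_mem_mul hs (Ideal.subset_span ⟨_, rfl⟩)
  · intro x x' h
    have hyx : ∀ l, eval (Sum.elim x x') (y l) = extz i₀ x l := by
      intro l
      by_cases h : l = i₀
      · simp [y, extz, h]
      · simp [y, extz, h]
    have hval : ∀ j, eval (β + extz i₀ x) (G j)
        = c * β j + ∑ l, jac G β j l * extz i₀ x l + eval (Sum.elim x x') (q j) := by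
      intro j
      have e1 : eval (Sum.elim x x') (aeval (fun i => algebraMap K A (β i) + y i) (G j))
          = eval (β + extz i₀ x) (G j) := by
        have : (eval (Sum.elim x x')).comp
            ((aeval (fun i => algebraMap K A (β i) + y i) : MvPolynomial σ K →ₐ[K] A) :
              MvPolynomial σ K →+* A) = eval (β + extz i₀ x) := by
          apply MvPolynomial.ringHom_ext
          · intro a
            simp [A]
          · intro i
            simp [A, hyx]
        exact congrArg (fun f : MvPolynomial σ K →+* K => f (G j)) this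
      have e2 : eval (Sum.elim x x') (q j) = eval (β + extz i₀ x) (G j) - c * β j
          - ∑ l, jac G β j l * extz i₀ x l := by
        simp only [q, map_sub, map_sum, map_mul, e1, hyx, jac, Matrix.of_apply]
        congr 1
        · congr 1
          rw [← hfix]
          simp [A]
        · refine Finset.sum_congr rfl fun l _ => ?_
          simp [A]
      rw [e2]
      ring
    have hs' : eval (Sum.elim x x') s = ∑ l, jac G β i₀ l * extz i₀ x l := by
      simp only [s, map_sum, map_mul, hyx, jac, Matrix.of_apply]
      refine Finset.sum_congr rfl fun l _ => ?_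
      simp [A]
    have hsum : ∀ f : σ → K, ∑ l, f l * extz i₀ x l = ∑ l : τ, f l * x l := by
      intro f
      have h1 : ∀ l : τ, f l * x l = f l * extz i₀ x l := by
        intro l
        have : extz i₀ x l = x l := by simp [extz, l.2]
        rw [this]
      rw [Finset.sum_congr rfl fun l _ => h1 l]
      have h3 := Finset.add_sum_erase Finset.univ (fun l => f l * extz i₀ x l)
        (Finset.mem_univ i₀)
      have h4 : extz i₀ x i₀ = 0 := by simp [extz]
      have h2 : ∑ l ∈ Finset.univ.erase i₀, f l * extz i₀ x l
          = ∑ l : τ, f l * extz i₀ x l :=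
        Finset.sum_subtype (Finset.univ.erase i₀) (by intro l; simp)
          (fun l => f l * extz i₀ x l)
      rw [← h3, h4, mul_zero, zero_add, h2]
    funext j
    have hj := h j
    have hj0 : extz i₀ x' j = x' j := by
      simp [extz, j.2]
    rw [hval, hval, hj0, hβ] at hj
    simp only [Pi.add_apply, tmat, Matrix.mulVec, dotProduct, Matrix.of_apply, map_mul, map_sub,
      map_add, eval_C, eval_X, Sum.elim_inr, hs']
    have e3 : ∑ l : τ, c⁻¹ * (jac G β j l - β j * jac G β i₀ l) * x l
        = c⁻¹ * (∑ l, jac G β j l * extz i₀ x l - β j * ∑ l, jac G β i₀ l * extz i₀ x l) := by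
      rw [hsum, hsum, Finset.mul_sum, ← Finset.sum_sub_distrib, Finset.mul_sum]
      refine Finset.sum_congr rfl fun l _ => ?_
      ring
    rw [e3]
    field_simp
    linear_combination -hj

end Pool.Agent.Helper33.SS
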