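import Pool.Agent.Helper33.SS.Fn

/-!
# Asymptotic expansions: closure properties (SS-4)
-/

set_option autoImplicit false

namespace Pool.Agent.Helper33.SS

open MvPolynomial

variable {K : Type*} [NormedField K] [IsUltrametricDist K] {ρ : ℝ} {w : K} {M : ℕ}

section expaux

omit [IsUltrametricDist K] in
theorem pow_norm_mono (hw : ‖w‖ ≤ 1) {a b : ℕ} (h : a ≤ b) (n : ℕ) :
    ‖w‖ ^ (b * n) ≤ ‖w‖ ^ (a * n) :=
  pow_le_pow_of_le_one (norm_nonneg _) hw (Nat.mul_le_mul_right n h)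

omit [IsUltrametricDist K] in
/-- raise the constant of a bound to a nonnegative one -/
theorem bound_max {a : ℕ → K} {C : ℝ} {g : ℕ → ℝ} (hg : ∀ n, 0 ≤ g n)
    (h : ∀ n, ‖a n‖ ≤ C * g n) : ∀ n, ‖a n‖ ≤ max C 0 * g n := fun n =>
  (h n).trans (mul_le_mul_of_nonneg_right (le_max_left _ _) (hg n))

omit [IsUltrametricDist K] in
theorem HasExp.of_bound_aux (hρ : 0 ≤ ρ) {a : ℕ → K} {C : ℝ}
    (h : ∀ n, ‖a n‖ ≤ C * ‖w‖ ^ (M * n)) : HasExp ρ w M a := by
  refine ⟨fun _ _ => 0, fun j => ⟨0, fun k n => ?_⟩, C, fun n => ?_⟩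
  · have : (fwdDiff 1)^[k] (fun _ : ℕ => (0 : K)) n = 0 := by
      have := fd_const_mul (0 : K) (fun _ => 0) k n
      simpa using this
    rw [this]
    simp
  · simpa using h n

end expaux

theorem HasExp.term (hρ : 0 ≤ ρ) (hw : ‖w‖ ≤ 1) (k : ℕ) {h : ℕ → K} (hh : Adic ρ h) :
    HasExp ρ w M (fun n => w ^ (k * n) * h n) := by
  by_cases hk : k < M
  · refine ⟨fun j => if j = k then h else fun _ => 0, ?_, 0, ?_⟩
    · intro j
      dsimp only
      split_ifs
      · exact hh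
      · exact Adic.const hρ 0
    · intro n
      rw [Finset.sum_eq_single k]
      · simp
      · intro j _ hjk
        simp [hjk]
      · intro h
        exact absurd (Finset.mem_range.mpr hk) h
  · obtain ⟨C, hC⟩ := hh.bdd
    refine HasExp.of_bound_aux hρ (C := max C 0) (fun n => ?_)
    rw [norm_mul, norm_pow, mul_comm]
    exact mul_le_mul ((hC n).trans (le_max_left _ _)) (pow_norm_mono hw (not_lt.mp hk) n)
      (by positivity) (le_max_right _ _)

theorem HasExp.of_adic (hρ : 0 ≤ ρ) (hw : ‖w‖ ≤ 1) {f : ℕ → K} (hf : Adic ρ f) :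
    HasExp ρ w M f := by
  have := HasExp.term (M := M) hρ hw 0 hf
  simpa using this

theorem HasExp.of_bound (hρ : 0 ≤ ρ) {a : ℕ → K} {C : ℝ} (h : ∀ n, ‖a n‖ ≤ C * ‖w‖ ^ (M * n)) :
    HasExp ρ w M a := HasExp.of_bound_aux hρ h

section expaux2

/-- the main part of an expansion is bounded -/
theorem main_bdd (hw : ‖w‖ ≤ 1) (s : Finset ℕ) (M' : ℕ) (hs : ∀ j ∈ s, M' ≤ j)
    {f : ℕ → ℕ → K} (hf : ∀ j, Adic ρ (f j)) :
    ∃ C : ℝ, ∀ n, ‖∑ j ∈ s, w ^ (j * n) * f j n‖ ≤ C * ‖w‖ ^ (M' * n) := by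
  have h1 : ∀ j, ∃ C : ℝ, 0 ≤ C ∧ ∀ n, ‖f j n‖ ≤ C := by
    intro j
    obtain ⟨C, hC⟩ := (hf j).bdd
    exact ⟨max C 0, le_max_right _ _, fun n => (hC n).trans (le_max_left _ _)⟩
  choose C hC0 hC using h1
  refine ⟨∑ j ∈ s, C j, fun n => ?_⟩
  rw [Finset.sum_mul]
  refine (norm_sum_le _ _).trans (Finset.sum_le_sum (fun j hj => ?_))
  rw [norm_mul, norm_pow, mul_comm]
  exact mul_le_mul (hC j n) (pow_norm_mono hw (hs j hj) n) (by positivity) (hC0 j)

end expaux2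

theorem HasExp.bdd (hw : ‖w‖ ≤ 1) {a : ℕ → K} (ha : HasExp ρ w M a) :
    ∃ C : ℝ, ∀ n, ‖a n‖ ≤ C := by
  obtain ⟨f, hf, C, hC⟩ := ha
  obtain ⟨D, hD⟩ := main_bdd hw (Finset.range M) 0 (fun j _ => Nat.zero_le j) hf
  refine ⟨max C 0 + max D 0, fun n => ?_⟩
  have e : a n = (a n - ∑ j ∈ Finset.range M, w ^ (j * n) * f j n)
      + ∑ j ∈ Finset.range M, w ^ (j * n) * f j n := by ring
  rw [e]
  refine (norm_add_le _ _).trans (add_le_add ?_ ?_)
  · refine (hC n).trans ?_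
    calc C * ‖w‖ ^ (M * n) ≤ max C 0 * ‖w‖ ^ (M * n) :=
          mul_le_mul_of_nonneg_right (le_max_left _ _) (by positivity)
      _ ≤ max C 0 * 1 := mul_le_mul_of_nonneg_left (pow_le_one₀ (norm_nonneg _) hw)
          (le_max_right _ _)
      _ = max C 0 := mul_one _
  · refine (hD n).trans ?_
    simp

theorem HasExp.mono (hρ : 0 ≤ ρ) (hw : ‖w‖ ≤ 1) {M' : ℕ} (hM : M' ≤ M) {a : ℕ → K}
    (ha : HasExp ρ w M a) : HasExp ρ w M' a := by
  obtain ⟨f, hf, C, hC⟩ := ha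
  obtain ⟨D, hD⟩ := main_bdd hw (Finset.Ico M' M) M' (fun j hj => (Finset.mem_Ico.mp hj).1) hf
  refine ⟨f, hf, max C 0 + D, fun n => ?_⟩
  have e : a n - ∑ j ∈ Finset.range M', w ^ (j * n) * f j n
      = (a n - ∑ j ∈ Finset.range M, w ^ (j * n) * f j n)
        + ∑ j ∈ Finset.Ico M' M, w ^ (j * n) * f j n := by
    rw [← Finset.sum_range_add_sum_Ico _ hM]
    ring
  rw [e, add_mul]
  refine (norm_add_le _ _).trans (add_le_add ?_ (hD n))
  refine (hC n).trans ?_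
  calc C * ‖w‖ ^ (M * n) ≤ max C 0 * ‖w‖ ^ (M * n) :=
        mul_le_mul_of_nonneg_right (le_max_left _ _) (by positivity)
    _ ≤ max C 0 * ‖w‖ ^ (M' * n) := mul_le_mul_of_nonneg_left (pow_norm_mono hw hM n)
        (le_max_right _ _)

theorem HasExp.add (hρ : 0 ≤ ρ) {a b : ℕ → K} (ha : HasExp ρ w M a) (hb : HasExp ρ w M b) :
    HasExp ρ w M (fun n => a n + b n) := by
  obtain ⟨f, hf, C, hC⟩ := ha
  obtain ⟨g, hg, D, hD⟩ := hb
  refine ⟨fun j n => f j n + g j n, fun j => Adic.add hρ (hf j) (hg j), C + D, fun n => ?_⟩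
  have e : a n + b n - ∑ j ∈ Finset.range M, w ^ (j * n) * (f j n + g j n)
      = (a n - ∑ j ∈ Finset.range M, w ^ (j * n) * f j n)
        + (b n - ∑ j ∈ Finset.range M, w ^ (j * n) * g j n) := by
    simp only [mul_add, Finset.sum_add_distrib]
    ring
  rw [e, add_mul]
  exact (norm_add_le _ _).trans (add_le_add (hC n) (hD n))

theorem HasExp.const_mul (hρ : 0 ≤ ρ) (c : K) {a : ℕ → K} (ha : HasExp ρ w M a) :
    HasExp ρ w M (fun n => c * a n) := by
  obtain ⟨f, hf, C, hC⟩ := ha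
  refine ⟨fun j n => c * f j n, fun j => Adic.const_mul hρ c (hf j), ‖c‖ * C, fun n => ?_⟩
  have e : c * a n - ∑ j ∈ Finset.range M, w ^ (j * n) * (c * f j n)
      = c * (a n - ∑ j ∈ Finset.range M, w ^ (j * n) * f j n) := by
    rw [mul_sub, Finset.mul_sum]
    congr 1
    refine Finset.sum_congr rfl (fun j _ => ?_)
    ring
  rw [e, norm_mul, mul_assoc]
  exact mul_le_mul_of_nonneg_left (hC n) (norm_nonneg _)

theorem HasExp.sum (hρ : 0 ≤ ρ) {ι : Type*} (s : Finset ι) {a : ι → ℕ → K}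
    (ha : ∀ i ∈ s, HasExp ρ w M (a i)) : HasExp ρ w M (fun n => ∑ i ∈ s, a i n) := by
  classical
  induction s using Finset.induction_on with
  | empty =>
    refine HasExp.of_bound hρ (C := 0) (fun n => ?_)
    simp
  | insert i s hi ih =>
    have h1 := ha i (Finset.mem_insert_self i s)
    have h2 := ih (fun j hj => ha j (Finset.mem_insert_of_mem hj))
    have h3 := HasExp.add hρ h1 h2
    have e : (fun n => ∑ j ∈ insert i s, a j n) = fun n => a i n + ∑ j ∈ s, a j n := by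
      funext n
      exact Finset.sum_insert hi
    rw [e]
    exact h3

section expaux3

/-- the product of the main parts has expansions of all orders -/
theorem HasExp.main_mul (hρ : 0 ≤ ρ) (hw : ‖w‖ ≤ 1) {f g : ℕ → ℕ → K} (hf : ∀ j, Adic ρ (f j))
    (hg : ∀ j, Adic ρ (g j)) (N M' : ℕ) :
    HasExp ρ w M' (fun n => (∑ j ∈ Finset.range N, w ^ (j * n) * f j n)
      * ∑ j ∈ Finset.range N, w ^ (j * n) * g j n) := by
  have e : (fun n => (∑ j ∈ Finset.range N, w ^ (j * n) * f j n)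
      * ∑ j ∈ Finset.range N, w ^ (j * n) * g j n)
      = fun n => ∑ i ∈ Finset.range N, ∑ j ∈ Finset.range N,
          w ^ ((i + j) * n) * (f i n * g j n) := by
    funext n
    rw [Finset.sum_mul_sum]
    refine Finset.sum_congr rfl (fun i _ => Finset.sum_congr rfl (fun j _ => ?_))
    rw [add_mul, pow_add]
    ring
  rw [e]
  exact HasExp.sum hρ _ (fun i _ => HasExp.sum hρ _ (fun j _ =>
    HasExp.term hρ hw (i + j) (Adic.mul hρ (hf i) (hg j))))

omit [IsUltrametricDist K] in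
/-- bound of a product from bounds of the factors -/
theorem mul_bd {a b : ℕ → K} {C D : ℝ} {g h : ℕ → ℝ} (hg : ∀ n, 0 ≤ g n)
    (ha : ∀ n, ‖a n‖ ≤ C * g n) (hb : ∀ n, ‖b n‖ ≤ D * h n) (hC : 0 ≤ C) :
    ∀ n, ‖a n * b n‖ ≤ C * D * (g n * h n) := by
  intro n
  rw [norm_mul]
  calc ‖a n‖ * ‖b n‖ ≤ (C * g n) * (D * h n) :=
        mul_le_mul (ha n) (hb n) (norm_nonneg _) (mul_nonneg hC (hg n))
    _ = C * D * (g n * h n) := by ring

end expaux3

theorem HasExp.mul (hρ : 0 ≤ ρ) (hw : ‖w‖ ≤ 1) {a b : ℕ → K} (ha : HasExp ρ w M a)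
    (hb : HasExp ρ w M b) : HasExp ρ w M (fun n => a n * b n) := by
  obtain ⟨B, hB⟩ := hb.bdd hw
  obtain ⟨f, hf, C, hC⟩ := ha
  obtain ⟨g, hg, D, hD⟩ := hb
  obtain ⟨A, hA⟩ := main_bdd hw (Finset.range M) 0 (fun j _ => Nat.zero_le j) hf
  have hpos : ∀ n : ℕ, 0 ≤ ‖w‖ ^ (M * n) := fun n => by positivity
  have h1 := HasExp.main_mul (ρ := ρ) hρ hw hf hg M M
  have h2 : HasExp ρ w M (fun n =>
      (a n - ∑ j ∈ Finset.range M, w ^ (j * n) * f j n) * b n) := by
    have hB' : ∀ n, ‖b n‖ ≤ B * 1 := fun n => by simpa using hB n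
    have := mul_bd (h := fun _ => 1) hpos (bound_max hpos hC) hB' (le_max_right _ _)
    exact HasExp.of_bound hρ (C := max C 0 * B) (fun n => (this n).trans (le_of_eq (by ring)))
  have h3 : HasExp ρ w M (fun n => (∑ j ∈ Finset.range M, w ^ (j * n) * f j n)
      * (b n - ∑ j ∈ Finset.range M, w ^ (j * n) * g j n)) := by
    have hA' : ∀ n, ‖∑ j ∈ Finset.range M, w ^ (j * n) * f j n‖ ≤ A * 1 := fun n => by
      simpa using hA n
    have := mul_bd (g := fun _ => 1) (fun _ => zero_le_one)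
      (bound_max (fun _ => zero_le_one) hA') hD (le_max_right _ _)
    exact HasExp.of_bound hρ (C := max A 0 * D) (fun n => (this n).trans (le_of_eq (by ring)))
  have h4 := HasExp.add hρ h1 (HasExp.add hρ h2 h3)
  have e : (fun n => a n * b n) = fun n => (∑ j ∈ Finset.range M, w ^ (j * n) * f j n)
      * (∑ j ∈ Finset.range M, w ^ (j * n) * g j n)
      + ((a n - ∑ j ∈ Finset.range M, w ^ (j * n) * f j n) * b n
      + (∑ j ∈ Finset.range M, w ^ (j * n) * f j n)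
      * (b n - ∑ j ∈ Finset.range M, w ^ (j * n) * g j n)) := by
    funext n
    ring
  rw [e]
  exact h4

/-- multiplying two small sequences gains one order -/
theorem HasExp.mul_gain (hρ : 0 ≤ ρ) (hw : ‖w‖ ≤ 1) {a b : ℕ → K} (ha : HasExp ρ w M a)
    (hb : HasExp ρ w M b) {Ca Cb : ℝ} (ha' : ∀ n, ‖a n‖ ≤ Ca * ‖w‖ ^ n)
    (hb' : ∀ n, ‖b n‖ ≤ Cb * ‖w‖ ^ n) : HasExp ρ w (M + 1) (fun n => a n * b n) := by
  have hpos1 : ∀ n : ℕ, 0 ≤ ‖w‖ ^ n := fun n => by positivity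
  have hposM : ∀ n : ℕ, 0 ≤ ‖w‖ ^ (M * n) := fun n => by positivity
  rcases Nat.eq_zero_or_pos M with rfl | hM
  · have h1 := mul_bd hpos1 (bound_max hpos1 ha') (bound_max hpos1 hb') (le_max_right _ _)
    refine HasExp.of_bound hρ (C := max Ca 0 * max Cb 0) (fun n => (h1 n).trans ?_)
    refine mul_le_mul_of_nonneg_left ?_ (mul_nonneg (le_max_right _ _) (le_max_right _ _))
    rw [zero_add, one_mul]
    exact mul_le_of_le_one_right (hpos1 n) (pow_le_one₀ (norm_nonneg _) hw)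
  obtain ⟨f, hf, C, hC⟩ := ha
  obtain ⟨g, hg, D, hD⟩ := hb
  have h1 := HasExp.main_mul (ρ := ρ) hρ hw hf hg M (M + 1)
  have epow : ∀ n : ℕ, ‖w‖ ^ ((M + 1) * n) = ‖w‖ ^ (M * n) * ‖w‖ ^ n := fun n => by
    rw [add_mul, pow_add, one_mul]
  have h2 : HasExp ρ w (M + 1) (fun n =>
      (a n - ∑ j ∈ Finset.range M, w ^ (j * n) * f j n) * b n) := by
    have := mul_bd hposM (bound_max hposM hC) hb' (le_max_right _ _)
    exact HasExp.of_bound hρ (C := max C 0 * Cb) (fun n => (this n).trans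
      (le_of_eq (by rw [epow])))
  have hA : ∀ n, ‖∑ j ∈ Finset.range M, w ^ (j * n) * f j n‖ ≤ (max Ca 0 + max C 0) * ‖w‖ ^ n := by
    intro n
    have e : ∑ j ∈ Finset.range M, w ^ (j * n) * f j n
        = a n - (a n - ∑ j ∈ Finset.range M, w ^ (j * n) * f j n) := by ring
    rw [e, add_mul]
    refine (norm_sub_le _ _).trans (add_le_add (bound_max hpos1 ha' n) ?_)
    refine (bound_max hposM hC n).trans ?_
    refine mul_le_mul_of_nonneg_left ?_ (le_max_right _ _)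
    have := pow_norm_mono hw hM n
    simpa using this
  have h3 : HasExp ρ w (M + 1) (fun n => (∑ j ∈ Finset.range M, w ^ (j * n) * f j n)
      * (b n - ∑ j ∈ Finset.range M, w ^ (j * n) * g j n)) := by
    have := mul_bd hpos1 hA hD (add_nonneg (le_max_right _ _) (le_max_right _ _))
    exact HasExp.of_bound hρ (C := (max Ca 0 + max C 0) * D) (fun n => (this n).trans
      (le_of_eq (by rw [epow]; ring)))
  have h4 := HasExp.add hρ h1 (HasExp.add hρ h2 h3)
  have e : (fun n => a n * b n) = fun n => (∑ j ∈ Finset.range M, w ^ (j * n) * f j n)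
      * (∑ j ∈ Finset.range M, w ^ (j * n) * g j n)
      + ((a n - ∑ j ∈ Finset.range M, w ^ (j * n) * f j n) * b n
      + (∑ j ∈ Finset.range M, w ^ (j * n) * f j n)
      * (b n - ∑ j ∈ Finset.range M, w ^ (j * n) * g j n)) := by
    funext n
    ring
  rw [e]
  exact h4

theorem HasExp.eval (hρ : 0 ≤ ρ) (hw : ‖w‖ ≤ 1) {σ : Type*} {z : ℕ → σ → K}
    (hz : ∀ i, HasExp ρ w M (fun n => z n i)) (P : MvPolynomial σ K) :
    HasExp ρ w M (fun n => MvPolynomial.eval (z n) P) := by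
  induction P using MvPolynomial.induction_on with
  | C a =>
    have := HasExp.of_adic (w := w) (M := M) hρ hw (Adic.const hρ a)
    simpa using this
  | add p q hp hq =>
    have := HasExp.add hρ hp hq
    simpa using this
  | mul_X p i hp =>
    have := HasExp.mul hρ hw hp (hz i)
    simpa using this

/-- polynomials of order at least two gain one order on small sequences -/
theorem HasExp.eval_gain (hρ : 0 ≤ ρ) (hw : ‖w‖ ≤ 1) {σ : Type*} {z : ℕ → σ → K}
    (hz : ∀ i, HasExp ρ w M (fun n => z n i))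
    (hz' : ∀ i, ∃ C : ℝ, ∀ n, ‖z n i‖ ≤ C * ‖w‖ ^ n) (P : MvPolynomial σ K) (hP : P ∈ Sq σ K) :
    HasExp ρ w (M + 1) (fun n => MvPolynomial.eval (z n) P) := by
  have hsmall : ∀ Q ∈ Ideal.span (Set.range (X : σ → MvPolynomial σ K)),
      ∃ C : ℝ, ∀ n, ‖MvPolynomial.eval (z n) Q‖ ≤ C * ‖w‖ ^ n := by
    intro Q hQ
    have hpos1 : ∀ n : ℕ, 0 ≤ ‖w‖ ^ n := fun n => by positivity
    refine Submodule.span_induction (p := fun Q _ =>
      ∃ C : ℝ, ∀ n, ‖MvPolynomial.eval (z n) Q‖ ≤ C * ‖w‖ ^ n) ?_ ?_ ?_ ?_ hQ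
    · rintro _ ⟨i, rfl⟩
      simpa using hz' i
    · exact ⟨0, fun n => by simp⟩
    · rintro x y _ _ ⟨C, hC⟩ ⟨D, hD⟩
      refine ⟨C + D, fun n => ?_⟩
      rw [map_add, add_mul]
      exact (norm_add_le _ _).trans (add_le_add (hC n) (hD n))
    · rintro r x _ ⟨C, hC⟩
      obtain ⟨B, hB⟩ := (HasExp.eval (ρ := ρ) hρ hw hz r).bdd hw
      refine ⟨max B 0 * max C 0, fun n => ?_⟩
      rw [smul_eq_mul, map_mul, norm_mul, mul_assoc]
      exact mul_le_mul ((hB n).trans (le_max_left _ _)) (bound_max hpos1 hC n) (norm_nonneg _)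
        (le_max_right _ _)
  unfold Sq at hP
  rw [pow_two] at hP
  refine Submodule.mul_induction_on hP ?_ ?_
  · intro q hq r hr
    obtain ⟨C, hC⟩ := hsmall q hq
    obtain ⟨D, hD⟩ := hsmall r hr
    have := HasExp.mul_gain hρ hw (HasExp.eval hρ hw hz q) (HasExp.eval hρ hw hz r) hC hD
    simpa using this
  · intro x y hx hy
    have := HasExp.add (a := fun n => MvPolynomial.eval (z n) x)
      (b := fun n => MvPolynomial.eval (z n) y) hρ hx hy
    simpa using this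

end Pool.Agent.Helper33.SS
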