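import Pool.Agent.Helper33.SS.Defs

/-!
# The class of analytic functions: closure properties (SS-1)
-/

set_option autoImplicit false

namespace Pool.Agent.Helper33.SS

open MvPolynomial

variable {K : Type*} [NormedField K] [IsUltrametricDist K] {ρ : ℝ}

section aux

omit [IsUltrametricDist K] in
/-- one difference more -/
theorem fd_succ (f : ℕ → K) (k n : ℕ) :
    (fwdDiff 1)^[k + 1] f n = (fwdDiff 1)^[k] f (n + 1) - (fwdDiff 1)^[k] f n := by
  rw [Function.iterate_succ_apply']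
  rfl

omit [IsUltrametricDist K] in
theorem fd_add (f g : ℕ → K) (k n : ℕ) :
    (fwdDiff 1)^[k] (fun m => f m + g m) n = (fwdDiff 1)^[k] f n + (fwdDiff 1)^[k] g n := by
  induction k generalizing n with
  | zero => rfl
  | succ k ih => rw [fd_succ, fd_succ, fd_succ, ih, ih]; ring

omit [IsUltrametricDist K] in
theorem fd_const_mul (c : K) (f : ℕ → K) (k n : ℕ) :
    (fwdDiff 1)^[k] (fun m => c * f m) n = c * (fwdDiff 1)^[k] f n := by
  induction k generalizing n with
  | zero => rfl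
  | succ k ih => rw [fd_succ, fd_succ, ih, ih]; ring

omit [IsUltrametricDist K] in
theorem fd_shift (f : ℕ → K) (k n : ℕ) :
    (fwdDiff 1)^[k] (fun m => f (m + 1)) n = (fwdDiff 1)^[k] f (n + 1) := by
  induction k generalizing n with
  | zero => rfl
  | succ k ih => rw [fd_succ, fd_succ, ih, ih]

omit [IsUltrametricDist K] in
theorem fd_diff (f : ℕ → K) (k n : ℕ) :
    (fwdDiff 1)^[k] (fun m => f (m + 1) - f m) n = (fwdDiff 1)^[k + 1] f n := by
  induction k generalizing n with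
  | zero => rfl
  | succ k ih => rw [fd_succ, fd_succ (k := k + 1), ih, ih]

theorem nsub_le (a b : K) {C : ℝ} (ha : ‖a‖ ≤ C) (hb : ‖b‖ ≤ C) : ‖a - b‖ ≤ C := by
  rw [sub_eq_add_neg]
  exact (IsUltrametricDist.norm_add_le_max a (-b)).trans (max_le ha (by rwa [norm_neg]))

theorem nadd_le (a b : K) {C : ℝ} (ha : ‖a‖ ≤ C) (hb : ‖b‖ ≤ C) : ‖a + b‖ ≤ C :=
  (IsUltrametricDist.norm_add_le_max a b).trans (max_le ha hb)

omit [IsUltrametricDist K] in
theorem Adic.congr {f g : ℕ → K} (hf : Adic ρ f) (h : ∀ n, g n = f n) : Adic ρ g := by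
  have : g = f := funext h
  rwa [this]

/-- product rule with explicit constants -/
theorem mul_bound (hρ : 0 ≤ ρ) (k : ℕ) : ∀ (f g : ℕ → K) (A B : ℝ), 0 ≤ A → 0 ≤ B →
    (∀ j m, ‖(fwdDiff 1)^[j] f m‖ ≤ A * ρ ^ j) → (∀ j m, ‖(fwdDiff 1)^[j] g m‖ ≤ B * ρ ^ j) →
    ∀ n, ‖(fwdDiff 1)^[k] (fun m => f m * g m) n‖ ≤ A * B * ρ ^ k := by
  induction k with
  | zero =>
    intro f g A B hA hB hf hg n
    have h1 := hf 0 n
    have h2 := hg 0 n
    simp only [Function.iterate_zero, id_eq, pow_zero, mul_one] at h1 h2 ⊢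
    rw [norm_mul]
    exact mul_le_mul h1 h2 (norm_nonneg _) hA
  | succ k ih =>
    intro f g A B hA hB hf hg n
    have e1 : (fwdDiff 1)^[k + 1] (fun m => f m * g m) n =
        (fwdDiff 1)^[k] (fun m => (f (m + 1) - f m) * g (m + 1)) n +
          (fwdDiff 1)^[k] (fun m => f m * (g (m + 1) - g m)) n := by
      have h : (fun m => f (m + 1) * g (m + 1) - f m * g m) =
          fun m => (f (m + 1) - f m) * g (m + 1) + f m * (g (m + 1) - g m) := by
        funext m
        ring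
      rw [← fd_diff, h, fd_add]
    rw [e1]
    have h1 : ‖(fwdDiff 1)^[k] (fun m => (f (m + 1) - f m) * g (m + 1)) n‖ ≤
        A * B * ρ ^ (k + 1) := by
      have := ih (fun m => f (m + 1) - f m) (fun m => g (m + 1)) (A * ρ) B
        (mul_nonneg hA hρ) hB
        (fun j m => by rw [fd_diff]; exact (hf (j + 1) m).trans (le_of_eq (by ring)))
        (fun j m => by rw [fd_shift]; exact hg j (m + 1)) n
      exact this.trans (le_of_eq (by ring))
    have h2 : ‖(fwdDiff 1)^[k] (fun m => f m * (g (m + 1) - g m)) n‖ ≤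
        A * B * ρ ^ (k + 1) := by
      have := ih f (fun m => g (m + 1) - g m) A (B * ρ) hA (mul_nonneg hB hρ) hf
        (fun j m => by rw [fd_diff]; exact (hg (j + 1) m).trans (le_of_eq (by ring))) n
      exact this.trans (le_of_eq (by ring))
    exact nadd_le _ _ h1 h2

end aux

theorem Adic.bdd {f : ℕ → K} (hf : Adic ρ f) : ∃ C : ℝ, ∀ n, ‖f n‖ ≤ C := by
  obtain ⟨C, hC⟩ := hf
  exact ⟨C, fun n => by simpa using hC 0 n⟩

omit [IsUltrametricDist K] in
theorem Adic.nonneg {f : ℕ → K} {C : ℝ} (hC : ∀ k n : ℕ, ‖(fwdDiff 1)^[k] f n‖ ≤ C * ρ ^ k) :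
    0 ≤ C := by
  have := hC 0 0
  simp only [pow_zero, mul_one] at this
  exact (norm_nonneg _).trans this

theorem Adic.const (hρ : 0 ≤ ρ) (c : K) : Adic ρ (fun _ => c) := by
  refine ⟨‖c‖, fun k n => ?_⟩
  cases k with
  | zero => simp
  | succ k =>
    have : ∀ (k n : ℕ), (fwdDiff 1)^[k + 1] (fun _ : ℕ => c) n = 0 := by
      intro k
      induction k with
      | zero => intro n; rw [fd_succ]; simp
      | succ k ih => intro n; rw [fd_succ, ih, ih, sub_zero]
    rw [this, norm_zero]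
    positivity

theorem Adic.add (hρ : 0 ≤ ρ) {f g : ℕ → K} (hf : Adic ρ f) (hg : Adic ρ g) :
    Adic ρ (fun n => f n + g n) := by
  obtain ⟨C, hC⟩ := hf
  obtain ⟨D, hD⟩ := hg
  refine ⟨max C D, fun k n => ?_⟩
  rw [fd_add]
  refine nadd_le _ _ ((hC k n).trans ?_) ((hD k n).trans ?_)
  · exact mul_le_mul_of_nonneg_right (le_max_left _ _) (pow_nonneg hρ k)
  · exact mul_le_mul_of_nonneg_right (le_max_right _ _) (pow_nonneg hρ k)

/-- product rule: `Δ (f g) (n) = Δ f (n) * g (n + 1) + f (n) * Δ g (n)`; induct on the number of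
differences with constants `C_f`, `C_g` general -/
theorem Adic.mul (hρ : 0 ≤ ρ) {f g : ℕ → K} (hf : Adic ρ f) (hg : Adic ρ g) :
    Adic ρ (fun n => f n * g n) := by
  obtain ⟨C, hC⟩ := hf
  obtain ⟨D, hD⟩ := hg
  exact ⟨C * D, fun k n => mul_bound hρ k f g C D (Adic.nonneg hC) (Adic.nonneg hD) hC hD n⟩

theorem Adic.const_mul (hρ : 0 ≤ ρ) (c : K) {f : ℕ → K} (hf : Adic ρ f) :
    Adic ρ (fun n => c * f n) :=
  Adic.mul hρ (Adic.const hρ c) hf

theorem Adic.sum (hρ : 0 ≤ ρ) {ι : Type*} (s : Finset ι) {f : ι → ℕ → K}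
    (hf : ∀ i ∈ s, Adic ρ (f i)) : Adic ρ (fun n => ∑ i ∈ s, f i n) := by
  classical
  induction s using Finset.induction_on with
  | empty => simpa using Adic.const hρ (0 : K)
  | insert a s ha ih =>
    have h1 := hf a (Finset.mem_insert_self a s)
    have h2 := ih (fun i hi => hf i (Finset.mem_insert_of_mem hi))
    exact (Adic.add hρ h1 h2).congr (fun n => Finset.sum_insert ha)

theorem Adic.eval (hρ : 0 ≤ ρ) {σ : Type*} {f : ℕ → σ → K} (hf : ∀ i, Adic ρ (fun n => f n i))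
    (P : MvPolynomial σ K) : Adic ρ (fun n => MvPolynomial.eval (f n) P) := by
  induction P using MvPolynomial.induction_on with
  | C a => exact (Adic.const hρ a).congr (fun n => by simp)
  | add p q hp hq => exact (Adic.add hρ hp hq).congr (fun n => by simp)
  | mul_X p i hp => exact (Adic.mul hρ hp (hf i)).congr (fun n => by simp)

theorem norm_le_one_of_sub {ν : K} (hρ1 : ρ ≤ 1) (hν : ‖ν - 1‖ ≤ ρ) : ‖ν‖ ≤ 1 := by
  have : ν = (ν - 1) + 1 := by ring
  rw [this]
  exact nadd_le _ _ (hν.trans hρ1) (by simp)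

theorem Adic.pow (hρ : 0 ≤ ρ) (hρ1 : ρ ≤ 1) {ν : K} (hν : ‖ν - 1‖ ≤ ρ) :
    Adic ρ (fun n => ν ^ n) := by
  have hν1 : ‖ν‖ ≤ 1 := norm_le_one_of_sub hρ1 hν
  refine ⟨1, fun k n => ?_⟩
  have key : ∀ k n : ℕ, (fwdDiff 1)^[k] (fun m : ℕ => ν ^ m) n = (ν - 1) ^ k * ν ^ n := by
    intro k
    induction k with
    | zero => intro n; simp
    | succ k ih => intro n; rw [fd_succ, ih, ih]; ring
  rw [key, norm_mul, norm_pow, norm_pow, one_mul]
  calc ‖ν - 1‖ ^ k * ‖ν‖ ^ n ≤ ρ ^ k * 1 :=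
        mul_le_mul (pow_le_pow_left₀ (norm_nonneg _) hν k) (pow_le_one₀ (norm_nonneg _) hν1)
          (by positivity) (by positivity)
    _ = ρ ^ k := mul_one _

/-- the resonant first order equation; define `f` by recursion, `Δ f = (ν - 1) f + g` -/
theorem Adic.solve_one (hρ : 0 < ρ) (hρ1 : ρ ≤ 1) {ν : K} (hν : ‖ν - 1‖ ≤ ρ) {g : ℕ → K}
    (hg : Adic ρ g) : ∃ f : ℕ → K, Adic ρ f ∧ ∀ n, f (n + 1) = ν * f n + g n := by
  obtain ⟨D, hD⟩ := hg
  have hD0 : 0 ≤ D := Adic.nonneg hD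
  have hν1 : ‖ν‖ ≤ 1 := norm_le_one_of_sub hρ1 hν
  let f : ℕ → K := fun n => Nat.rec (0 : K) (fun m a => ν * a + g m) n
  have hf : ∀ n, f (n + 1) = ν * f n + g n := fun n => rfl
  refine ⟨f, ⟨D / ρ, ?_⟩, hf⟩
  have hb : ∀ n, ‖f n‖ ≤ D := by
    intro n
    induction n with
    | zero => simpa [f] using hD0
    | succ n ih =>
      rw [hf]
      refine nadd_le _ _ ?_ (by simpa using hD 0 n)
      rw [norm_mul]
      calc ‖ν‖ * ‖f n‖ ≤ 1 * D := mul_le_mul hν1 ih (norm_nonneg _) zero_le_one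
        _ = D := one_mul _
  have hDρ : D ≤ D / ρ := by
    rw [le_div_iff₀ hρ]
    exact mul_le_of_le_one_right hD0 hρ1
  intro k
  induction k with
  | zero =>
    intro n
    simpa using (hb n).trans hDρ
  | succ k ih =>
    intro n
    have e1 : (fwdDiff 1)^[k + 1] f n = (ν - 1) * (fwdDiff 1)^[k] f n + (fwdDiff 1)^[k] g n := by
      have h : (fun m => f (m + 1) - f m) = fun m => (ν - 1) * f m + g m := by
        funext m
        rw [hf]
        ring
      rw [← fd_diff, h, fd_add, fd_const_mul]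
    rw [e1]
    refine nadd_le _ _ ?_ ((hD k n).trans (le_of_eq ?_))
    · rw [norm_mul]
      calc ‖ν - 1‖ * ‖(fwdDiff 1)^[k] f n‖ ≤ ρ * (D / ρ * ρ ^ k) :=
            mul_le_mul hν (ih n) (norm_nonneg _) hρ.le
        _ = D / ρ * ρ ^ (k + 1) := by ring
    · field_simp
      ring

/-- the non-resonant first order equation:
`f n = ∑' j, (-α) ^ j / (α + β) ^ (j + 1) * (Δ^j g) n` -/
theorem Adic.solve [CompleteSpace K] (hρ : 0 < ρ) (hρ1 : ρ < 1) {α β : K} (hα : ‖α‖ ≤ 1)
    (hαβ : ‖α + β‖ = 1) {g : ℕ → K} (hg : Adic ρ g) :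
    ∃ f : ℕ → K, Adic ρ f ∧ ∀ n, α * f (n + 1) + β * f n = g n := by
  obtain ⟨D, hD⟩ := hg
  have hD0 : 0 ≤ D := Adic.nonneg hD
  have h0 : α + β ≠ 0 := by
    intro h
    rw [h, norm_zero] at hαβ
    exact zero_ne_one hαβ
  let c : ℕ → K := fun j => (-α) ^ j / (α + β) ^ (j + 1)
  have hc : ∀ j, ‖c j‖ ≤ 1 := by
    intro j
    simp only [c]
    rw [norm_div, norm_pow, norm_pow, norm_neg, hαβ, one_pow, div_one]
    exact pow_le_one₀ (norm_nonneg _) hα
  have hterm : ∀ k j n, ‖c j * (fwdDiff 1)^[k + j] g n‖ ≤ D * ρ ^ k * ρ ^ j := by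
    intro k j n
    rw [norm_mul]
    calc ‖c j‖ * ‖(fwdDiff 1)^[k + j] g n‖ ≤ 1 * (D * ρ ^ (k + j)) :=
          mul_le_mul (hc j) (hD _ _) (norm_nonneg _) zero_le_one
      _ = D * ρ ^ k * ρ ^ j := by rw [pow_add]; ring
  have hgeo : ∀ k : ℕ, Summable (fun j : ℕ => D * ρ ^ k * ρ ^ j) := fun k =>
    (summable_geometric_of_lt_one hρ.le hρ1).mul_left _
  have hs : ∀ k n, Summable (fun j => c j * (fwdDiff 1)^[k + j] g n) := fun k n =>
    Summable.of_norm_bounded (hgeo k) (fun j => hterm k j n)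
  let f : ℕ → K := fun n => ∑' j, c j * (fwdDiff 1)^[0 + j] g n
  have hfk : ∀ k n, (fwdDiff 1)^[k] f n = ∑' j, c j * (fwdDiff 1)^[k + j] g n := by
    intro k
    induction k with
    | zero => intro n; rfl
    | succ k ih =>
      intro n
      rw [fd_succ, ih, ih, ← (hs k (n + 1)).tsum_sub (hs k n)]
      refine tsum_congr (fun j => ?_)
      have : k + 1 + j = (k + j) + 1 := by ring
      rw [this, fd_succ]
      ring
  refine ⟨f, ⟨D * (1 - ρ)⁻¹, fun k n => ?_⟩, fun n => ?_⟩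
  · rw [hfk]
    have h1 := tsum_of_norm_bounded ((hgeo k).hasSum) (fun j => hterm k j n)
    rw [tsum_mul_left, tsum_geometric_of_lt_one hρ.le hρ1] at h1
    exact h1.trans (le_of_eq (by ring))
  · have e1 : α * f (n + 1) + β * f n = α * (fwdDiff 1)^[1] f n + (α + β) * f n := by
      have : (fwdDiff 1)^[1] f n = f (n + 1) - f n := rfl
      rw [this]
      ring
    have e2 : f n = ∑' j, c j * (fwdDiff 1)^[j] g n := by
      simp only [f, zero_add]
    have hs0 : Summable (fun j => c j * (fwdDiff 1)^[j] g n) := by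
      simpa using hs 0 n
    have hs1 : Summable (fun j => c j * (fwdDiff 1)^[j + 1] g n) := by
      simpa [add_comm] using hs 1 n
    have e3 : (fwdDiff 1)^[1] f n = ∑' j, c j * (fwdDiff 1)^[j + 1] g n := by
      rw [hfk]
      exact tsum_congr (fun j => by rw [add_comm])
    rw [e1, e3, e2, hs0.tsum_eq_zero_add, mul_add, ← tsum_mul_left, ← tsum_mul_left]
    have hcj : ∀ j, (α + β) * (c (j + 1) * (fwdDiff 1)^[j + 1] g n) =
        - (α * (c j * (fwdDiff 1)^[j + 1] g n)) := by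
      intro j
      simp only [c]
      rw [pow_succ (-α) j, pow_succ (α + β) (j + 1)]
      field_simp
    have hc0 : (α + β) * (c 0 * (fwdDiff 1)^[0] g n) = g n := by
      simp only [c, pow_zero, zero_add, pow_one, Function.iterate_zero, id_eq]
      field_simp
    simp only [hcj, hc0]
    rw [tsum_neg]
    ring

end Pool.Agent.Helper33.SS
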