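import Pool.Agent.Helper33.SS.Defs

/-!
# The idempotent lemma (SS-10)
-/

set_option autoImplicit false

namespace Pool.Agent.Helper33.SS

open Filter Topology

section IdemAux

variable {p : ℕ} [Fact p.Prime] {E : Type*} [AddCommGroup E] [Module ℤ_[p] E]

/-- The submodule of multiples of `p ^ L`. -/
noncomputable def idemP (p : ℕ) [Fact p.Prime] (E : Type*) [AddCommGroup E] [Module ℤ_[p] E]
    (L : ℕ) : Submodule ℤ_[p] E :=
  LinearMap.range (LinearMap.lsmul ℤ_[p] E ((p : ℤ_[p]) ^ L))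

lemma mem_idemP {L : ℕ} {x : E} : x ∈ idemP p E L ↔ ∃ g : E, (p : ℤ_[p]) ^ L • g = x := by
  unfold idemP
  rw [LinearMap.mem_range]
  rfl

lemma idem_uv (u : Module.End ℤ_[p] E) (hu : ∀ h, ∃ g, u (u h) - u h = (p : ℤ_[p]) • g) (L : ℕ)
    (x : E) : (u ^ L * (u - 1) ^ L) x ∈ idemP p E L := by
  have hc : Commute u (u - 1) := (Commute.refl u).sub_right (Commute.one_right u)
  rw [← hc.mul_pow]
  induction L generalizing x with
  | zero =>
    rw [mem_idemP]
    exact ⟨x, by simp⟩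
  | succ L ih =>
    rw [pow_succ, Module.End.mul_apply]
    obtain ⟨g, hg⟩ := hu x
    have h1 : (u * (u - 1)) x = (p : ℤ_[p]) • g := by
      rw [Module.End.mul_apply, LinearMap.sub_apply, Module.End.one_apply, map_sub, hg]
    rw [h1, map_smul]
    obtain ⟨g', hg'⟩ := mem_idemP.1 (ih g)
    rw [mem_idemP]
    exact ⟨g', by rw [← hg', smul_smul, pow_succ, mul_comm]⟩

lemma idem_uv_le (u : Module.End ℤ_[p] E) (hu : ∀ h, ∃ g, u (u h) - u h = (p : ℤ_[p]) • g)
    {L a b : ℕ} (ha : L ≤ a) (hb : L ≤ b)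
    (x : E) : (u ^ a * (u - 1) ^ b) x ∈ idemP p E L := by
  have hc : Commute u (u - 1) := (Commute.refl u).sub_right (Commute.one_right u)
  obtain ⟨a', rfl⟩ := Nat.exists_eq_add_of_le ha
  obtain ⟨b', rfl⟩ := Nat.exists_eq_add_of_le hb
  have h1 : u ^ (L + a') * (u - 1) ^ (L + b') = (u ^ L * (u - 1) ^ L) * (u ^ a' * (u - 1) ^ b') := by
    rw [pow_add, pow_add]
    have h2 : Commute (u ^ a') ((u - 1) ^ L) := (hc.pow_pow a' L)
    calc u ^ L * u ^ a' * ((u - 1) ^ L * (u - 1) ^ b')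
        = u ^ L * (u ^ a' * (u - 1) ^ L) * (u - 1) ^ b' := by simp only [mul_assoc]
      _ = u ^ L * ((u - 1) ^ L * u ^ a') * (u - 1) ^ b' := by rw [h2.eq]
      _ = _ := by simp only [mul_assoc]
  rw [h1, Module.End.mul_apply]
  exact idem_uv u hu L _

lemma idem_choose {L N i : ℕ} (hN : p ^ (2 * L) ∣ N) (hi0 : 0 < i) (hi : i < L) :
    p ^ L ∣ N.choose i := by
  have hp : p.Prime := Fact.out
  obtain ⟨i, rfl⟩ : ∃ j, i = j + 1 := ⟨i - 1, by omega⟩
  rcases Nat.eq_zero_or_pos N with h0 | hpos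
  · subst h0
    simp
  obtain ⟨M, rfl⟩ : ∃ M, N = M + 1 := ⟨N - 1, by omega⟩
  have h1 : (M + 1) * M.choose i = (M + 1).choose (i + 1) * (i + 1) := Nat.add_one_mul_choose_eq M i
  have h2 : p ^ (2 * L) ∣ (i + 1) * (M + 1).choose (i + 1) := by
    have h1' : (i + 1) * (M + 1).choose (i + 1) = (M + 1) * M.choose i := by
      rw [h1, mul_comm]
    rw [h1']
    exact Dvd.dvd.mul_right hN _
  obtain ⟨a, m, hm, ham⟩ := Nat.exists_eq_pow_mul_and_not_dvd (n := i + 1) (by omega) p hp.ne_one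
  have haL : a < L := by
    by_contra hcon
    push Not at hcon
    have hm0 : 0 < m := by
      rcases Nat.eq_zero_or_pos m with h | h
      · subst h; simp at hm
      · exact h
    have h3 : p ^ a ≤ i + 1 := by
      rw [ham]; exact Nat.le_mul_of_pos_right _ hm0
    have h4 : a < p ^ a := Nat.lt_pow_self hp.one_lt
    omega
  have h5 : p ^ (2 * L - a) ∣ m * (M + 1).choose (i + 1) := by
    have h6 : p ^ a * p ^ (2 * L - a) ∣ p ^ a * (m * (M + 1).choose (i + 1)) := by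
      rw [← pow_add, ← mul_assoc, ← ham]
      have : a + (2 * L - a) = 2 * L := by omega
      rw [this]
      exact h2
    exact Nat.dvd_of_mul_dvd_mul_left (pow_pos hp.pos a) h6
  have h7 : p ^ (2 * L - a) ∣ (M + 1).choose (i + 1) :=
    hp.prime.pow_dvd_of_dvd_mul_left _ hm h5
  exact dvd_trans (pow_dvd_pow p (by omega)) h7

lemma idem_main (u : Module.End ℤ_[p] E) (hu : ∀ h, ∃ g, u (u h) - u h = (p : ℤ_[p]) • g)
    {L N a : ℕ} (hN : p ^ (2 * L) ∣ N) (ha : L ≤ a) (x : E) :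
    (u ^ (a + N)) x - (u ^ a) x ∈ idemP p E L := by
  have h1 : u ^ (a + N) = u ^ a * ∑ i ∈ Finset.range (N + 1), (u - 1) ^ i * (N.choose i : Module.End ℤ_[p] E) := by
    rw [pow_add]
    congr 1
    have h2 := (Commute.one_right (u - 1)).add_pow N
    rw [sub_add_cancel] at h2
    rw [h2]
    refine Finset.sum_congr rfl fun i _ => ?_
    rw [one_pow, mul_one]
  have h3 : (u ^ (a + N)) x - (u ^ a) x
      = ∑ i ∈ Finset.range N, (N.choose (i + 1) : ℤ_[p]) • (u ^ a * (u - 1) ^ (i + 1)) x := by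
    rw [h1, Finset.sum_range_succ']
    simp only [pow_zero, Nat.choose_zero_right, Nat.cast_one, mul_one]
    rw [mul_add, mul_one, LinearMap.add_apply, add_sub_cancel_right, Finset.mul_sum,
      LinearMap.sum_apply]
    refine Finset.sum_congr rfl fun i _ => ?_
    rw [← mul_assoc, Module.End.mul_apply (u ^ a * (u - 1) ^ (i + 1))]
    have h4 : ((N.choose (i + 1) : ℕ) : Module.End ℤ_[p] E) x = (N.choose (i + 1) : ℤ_[p]) • x := by
      rw [Module.End.natCast_apply, Nat.cast_smul_eq_nsmul]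
    rw [h4, map_smul]
  rw [h3]
  refine Submodule.sum_mem _ fun i _ => ?_
  rcases lt_or_ge (i + 1) L with hi | hi
  · obtain ⟨c, hc⟩ := idem_choose (p := p) hN (Nat.succ_pos i) hi
    rw [hc, mem_idemP]
    refine ⟨(c : ℤ_[p]) • (u ^ a * (u - 1) ^ (i + 1)) x, ?_⟩
    rw [smul_smul]
    push_cast
    rfl
  · exact Submodule.smul_mem _ _ (idem_uv_le u hu ha hi x)

lemma idem_norm (φ : E →ₗ[ℤ_[p]] ℤ_[p]) {L : ℕ} {x : E} (hx : x ∈ idemP p E L) :
    ‖φ x‖ ≤ ((p : ℝ)⁻¹) ^ L := by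
  obtain ⟨g, hg⟩ := mem_idemP.1 hx
  rw [← hg, map_smul, smul_eq_mul, norm_mul, norm_pow, PadicInt.norm_p]
  have h1 : ‖φ g‖ ≤ 1 := PadicInt.norm_le_one _
  have h2 : 0 ≤ ((p : ℝ)⁻¹) ^ L := by positivity
  nlinarith

lemma idem_diff (u : Module.End ℤ_[p] E) (φ : E →ₗ[ℤ_[p]] ℤ_[p]) (h : E) (m k n : ℕ) :
    (fwdDiff 1)^[k] (fun n => φ ((u ^ (n + m)) h)) n = φ ((u ^ (n + m) * (u - 1) ^ k) h) := by
  induction k generalizing n with
  | zero => simp
  | succ k ih =>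
    rw [Function.iterate_succ_apply', fwdDiff, ih, ih, ← map_sub, ← LinearMap.sub_apply]
    congr 2
    rw [pow_succ' (u - 1) k, show n + 1 + m = (n + m) + 1 by omega, pow_succ u (n + m)]
    noncomm_ring

lemma idem_fwd_tendsto (k : ℕ) : ∀ (F : ℕ → ℕ → ℤ_[p]) (f : ℕ → ℤ_[p]),
    (∀ n, Tendsto (fun j => F j n) atTop (𝓝 (f n))) → ∀ n,
    Tendsto (fun j => (fwdDiff 1)^[k] (F j) n) atTop (𝓝 ((fwdDiff 1)^[k] f n)) := by
  induction k with
  | zero => intro F f hF n; simpa using hF n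
  | succ k ih =>
    intro F f hF n
    simp only [Function.iterate_succ_apply]
    refine ih (fun j => fwdDiff 1 (F j)) (fwdDiff 1 f) (fun n => ?_) n
    simp only [fwdDiff]
    exact (hF (n + 1)).sub (hF n)

end IdemAux

/-- Let `u` be an endomorphism of a `ℤ_[p]`-module `E` with `(u² - u) E ⊆ p E`, and `φ` a linear form.
Then `φ (u^n h)` is an analytic function of `n` up to an error divisible by `p ^ n`. Proof: if
`p ^ (2 L)` divides `N` then `u^L (u^N - 1) E ⊆ p^L E`, because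
`u^N - 1 = ∑_{i ≥ 1} (N choose i) (u - 1)^i`, `u^L (u-1)^L ∈ p^L`, and `p^L` divides `N choose i` for
`1 ≤ i < L`. Hence `f n = lim_j φ (u^(n + p^j) h)` exists, and all claims follow. -/
theorem idem (p : ℕ) [Fact p.Prime] {E : Type*} [AddCommGroup E] [Module ℤ_[p] E]
    (u : Module.End ℤ_[p] E) (hu : ∀ h, ∃ g, u (u h) - u h = (p : ℤ_[p]) • g)
    (φ : E →ₗ[ℤ_[p]] ℤ_[p]) (h : E) :
    ∃ f : ℕ → ℤ_[p], (∀ k n, ‖(fwdDiff 1)^[k] f n‖ ≤ ((p : ℝ)⁻¹) ^ k) ∧
      (∀ n, ‖φ ((u ^ n) h) - f n‖ ≤ ((p : ℝ)⁻¹) ^ n) ∧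
      (∀ n, Tendsto (fun j => φ ((u ^ (n + p ^ j)) h)) atTop (𝓝 (f n))) := by
  have hp : p.Prime := Fact.out
  have hp1 : (1 : ℝ) < p := by exact_mod_cast hp.one_lt
  have hpinv0 : (0 : ℝ) ≤ (p : ℝ)⁻¹ := by positivity
  have hpinv1 : (p : ℝ)⁻¹ < 1 := inv_lt_one_of_one_lt₀ hp1
  -- comparison of two members of the sequence
  have key : ∀ n j j' L : ℕ, 2 * L ≤ j → j ≤ j' →
      ‖φ ((u ^ (n + p ^ j')) h) - φ ((u ^ (n + p ^ j)) h)‖ ≤ ((p : ℝ)⁻¹) ^ L := by
    intro n j j' L hL hj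
    rw [← map_sub]
    have h1 : p ^ j ≤ p ^ j' := Nat.pow_le_pow_right hp.pos hj
    have h2 : n + p ^ j' = (n + p ^ j) + (p ^ j' - p ^ j) := by omega
    rw [h2]
    refine idem_norm φ (idem_main u hu ?_ ?_ h)
    · exact Nat.dvd_sub (pow_dvd_pow p (by omega)) (pow_dvd_pow p hL)
    · have h3 : j < p ^ j := Nat.lt_pow_self hp.one_lt
      omega
  have hcau : ∀ n, CauchySeq (fun j => φ ((u ^ (n + p ^ j)) h)) := by
    intro n
    rw [Metric.cauchySeq_iff']
    intro ε hε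
    obtain ⟨L, hL⟩ := exists_pow_lt_of_lt_one hε hpinv1
    refine ⟨2 * L, fun j hj => ?_⟩
    rw [dist_eq_norm]
    exact lt_of_le_of_lt (key n (2 * L) j L le_rfl hj) hL
  choose f hf using fun n => cauchySeq_tendsto_of_complete (hcau n)
  refine ⟨f, ?_, ?_, hf⟩
  · intro k n
    have h1 := idem_fwd_tendsto k (fun j n => φ ((u ^ (n + p ^ j)) h)) f hf n
    refine le_of_tendsto h1.norm ?_
    filter_upwards [eventually_ge_atTop k] with j hj
    rw [idem_diff u φ h (p ^ j) k n]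
    refine idem_norm φ (idem_uv_le u hu ?_ le_rfl h)
    have h3 : j < p ^ j := Nat.lt_pow_self hp.one_lt
    omega
  · intro n
    have h1 : Tendsto (fun j => φ ((u ^ n) h) - φ ((u ^ (n + p ^ j)) h)) atTop
        (𝓝 (φ ((u ^ n) h) - f n)) := tendsto_const_nhds.sub (hf n)
    refine le_of_tendsto h1.norm ?_
    filter_upwards [eventually_ge_atTop (2 * n)] with j hj
    rw [norm_sub_rev, ← map_sub]
    exact idem_norm φ (idem_main u hu (pow_dvd_pow p hj) le_rfl h)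

end Pool.Agent.Helper33.SS
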