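import Pool.Agent.Helper33.SS.ExpOps

/-!
# Scalar first order recurrences (SS-5)
-/

set_option autoImplicit false

namespace Pool.Agent.Helper33.SS

open Filter Topology

variable {K : Type*} [NormedField K] [IsUltrametricDist K] [CompleteSpace K] {ρ : ℝ} {w : K}

section aux

omit [IsUltrametricDist K] [CompleteSpace K] in
theorem hasExp_of_coeffs {M : ℕ} {a : ℕ → K} (f : ℕ → ℕ → K) (hf : ∀ j, Adic ρ (f j))
    (h : ∀ n, a n = ∑ j ∈ Finset.range M, w ^ (j * n) * f j n) : HasExp ρ w M a := by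
  refine ⟨f, hf, 0, fun n => ?_⟩
  rw [h n, sub_self, norm_zero, zero_mul]

omit [CompleteSpace K] in
theorem norm_add_eq_one {x y : K} (hx : ‖x‖ < 1) (hy : ‖y‖ = 1) : ‖x + y‖ = 1 := by
  rw [IsUltrametricDist.norm_add_eq_max_of_norm_ne_norm (by rw [hy]; exact hx.ne), hy]
  exact max_eq_right hx.le

omit [CompleteSpace K] in
theorem norm_eq_one_of_sub (hρ1 : ρ < 1) {ν : K} (hν : ‖ν - 1‖ ≤ ρ) : ‖ν‖ = 1 := by
  have h := norm_add_eq_one (K := K) (x := ν - 1) (y := 1) (hν.trans_lt hρ1) norm_one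
  rwa [sub_add_cancel] at h

/-- the coefficients can be solved for -/
theorem solve_coeff (hρ : 0 < ρ) (hρ1 : ρ < 1) (hw0 : w ≠ 0) (hw : ‖w‖ < 1)
    {μ : K} (hμ : GoodEig ρ w μ) (j : ℕ) {g : ℕ → K} (hg : Adic ρ g) :
    ∃ f : ℕ → K, Adic ρ f ∧ ∀ n, w ^ j * f (n + 1) = μ * f n + g n := by
  have hwj : ∀ i : ℕ, w ^ i ≠ 0 := fun i => pow_ne_zero i hw0
  have hwpow : ∀ i : ℕ, i ≠ 0 → ‖w ^ i‖ < 1 := fun i hi => by
    rw [norm_pow]
    exact pow_lt_one₀ (norm_nonneg _) hw hi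
  rcases hμ with rfl | ⟨m, ν, hν, rfl⟩
  · obtain ⟨f, hf, hrec⟩ := Adic.solve hρ hρ1 (α := (1 : K)) (β := 0) (by simp) (by simp)
      (Adic.const_mul hρ.le ((w ^ j)⁻¹) hg)
    refine ⟨f, hf, fun n => ?_⟩
    have h := hrec n
    rw [one_mul, zero_mul, add_zero] at h
    rw [h, zero_mul, zero_add, ← mul_assoc, mul_inv_cancel₀ (hwj j), one_mul]
  · have hν1 : ‖ν‖ = 1 := norm_eq_one_of_sub hρ1 hν
    rcases lt_trichotomy j m with hjm | rfl | hjm
    · obtain ⟨f, hf, hrec⟩ := Adic.solve hρ hρ1 (α := (1 : K)) (β := -(w ^ (m - j) * ν)) (by simp)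
        (by
          rw [add_comm]
          refine norm_add_eq_one ?_ norm_one
          rw [norm_neg, norm_mul, hν1, mul_one]
          exact hwpow _ (by omega))
        (Adic.const_mul hρ.le ((w ^ j)⁻¹) hg)
      refine ⟨f, hf, fun n => ?_⟩
      have h := hrec n
      have h1 : f (n + 1) = w ^ (m - j) * ν * f n + (w ^ j)⁻¹ * g n := by
        rw [← h]; ring
      rw [h1, mul_add, ← mul_assoc (w ^ j) ((w ^ j)⁻¹), mul_inv_cancel₀ (hwj j), one_mul,
        ← mul_assoc, ← mul_assoc, ← pow_add, Nat.add_sub_cancel' hjm.le]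
    · obtain ⟨f, hf, hrec⟩ := Adic.solve_one hρ hρ1.le hν (Adic.const_mul hρ.le ((w ^ j)⁻¹) hg)
      refine ⟨f, hf, fun n => ?_⟩
      rw [hrec n, mul_add, ← mul_assoc (w ^ j) ((w ^ j)⁻¹), mul_inv_cancel₀ (hwj j), one_mul,
        ← mul_assoc]
    · obtain ⟨f, hf, hrec⟩ := Adic.solve hρ hρ1 (α := w ^ (j - m)) (β := -ν)
        (hwpow _ (by omega)).le
        (norm_add_eq_one (hwpow _ (by omega)) (by rw [norm_neg, hν1]))
        (Adic.const_mul hρ.le ((w ^ m)⁻¹) hg)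
      refine ⟨f, hf, fun n => ?_⟩
      have h := hrec n
      have h1 : w ^ (j - m) * f (n + 1) = ν * f n + (w ^ m)⁻¹ * g n := by
        rw [← h]; ring
      have h2 : w ^ j = w ^ m * w ^ (j - m) := by
        rw [← pow_add, Nat.add_sub_cancel' hjm.le]
      rw [h2, mul_assoc, h1, mul_add, ← mul_assoc (w ^ m) ((w ^ m)⁻¹), mul_inv_cancel₀ (hwj m),
        one_mul, ← mul_assoc]

omit [CompleteSpace K] in
/-- small eigenvalue -/
theorem small_case (hw0 : w ≠ 0) (M : ℕ) {a e : ℕ → K} {μ : K} {C : ℝ}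
    (hμ : ‖μ‖ ≤ ‖w‖ ^ M) (he : ∀ n, ‖e n‖ ≤ C * ‖w‖ ^ (M * n))
    (hrec : ∀ n, a (n + 1) = μ * a n + e n) : ∃ D : ℝ, ∀ n, ‖a n‖ ≤ D * ‖w‖ ^ (M * n) := by
  have hwp : 0 < ‖w‖ := norm_pos_iff.mpr hw0
  have hwM : 0 < ‖w‖ ^ M := pow_pos hwp M
  refine ⟨max ‖a 0‖ (C / ‖w‖ ^ M), fun n => ?_⟩
  induction n with
  | zero => simp
  | succ n ih =>
    have hn : 0 < ‖w‖ ^ (M * n) := pow_pos hwp _
    have e0 : ‖w‖ ^ (M * (n + 1)) = ‖w‖ ^ M * ‖w‖ ^ (M * n) := by
      rw [Nat.mul_succ, pow_add, mul_comm]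
    rw [hrec n, e0]
    refine nadd_le _ _ ?_ ?_
    · rw [norm_mul]
      calc ‖μ‖ * ‖a n‖ ≤ ‖w‖ ^ M * (max ‖a 0‖ (C / ‖w‖ ^ M) * ‖w‖ ^ (M * n)) :=
            mul_le_mul hμ ih (norm_nonneg _) hwM.le
        _ = _ := by ring
    · refine (he n).trans ?_
      have h1 : C ≤ max ‖a 0‖ (C / ‖w‖ ^ M) * ‖w‖ ^ M := by
        rw [← div_le_iff₀ hwM]
        exact le_max_right _ _
      calc C * ‖w‖ ^ (M * n) ≤ (max ‖a 0‖ (C / ‖w‖ ^ M) * ‖w‖ ^ M) * ‖w‖ ^ (M * n) :=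
            mul_le_mul_of_nonneg_right h1 hn.le
        _ = _ := by ring

omit [IsUltrametricDist K] in
/-- large eigenvalue -/
theorem large_case (M : ℕ) {a e : ℕ → K} {μ : K} {C : ℝ}
    (hμ : ‖w‖ ^ M < ‖μ‖) (he : ∀ n, ‖e n‖ ≤ C * ‖w‖ ^ (M * n))
    (hrec : ∀ n, a (n + 1) = μ * a n + e n) :
    ∃ (c : K) (D : ℝ), ∀ n, ‖a n - c * μ ^ n‖ ≤ D * ‖w‖ ^ (M * n) := by
  have hμp : 0 < ‖μ‖ := (pow_nonneg (norm_nonneg _) M).trans_lt hμ
  have hμ0 : μ ≠ 0 := norm_pos_iff.mp hμp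
  set r : ℝ := ‖w‖ ^ M / ‖μ‖ with hr
  have hr0 : 0 ≤ r := div_nonneg (pow_nonneg (norm_nonneg _) M) hμp.le
  have hr1 : r < 1 := (div_lt_one hμp).mpr hμ
  set u : ℕ → K := fun n => a n / μ ^ n with hu
  have hstep : ∀ n, dist (u n) (u (n + 1)) ≤ C / ‖μ‖ * r ^ n := by
    intro n
    have h1 : u n - u (n + 1) = -(e n / μ ^ (n + 1)) := by
      simp only [hu]
      rw [hrec n]
      field_simp
      ring
    rw [dist_eq_norm, h1, norm_neg, norm_div, norm_pow]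
    have h2 : C / ‖μ‖ * r ^ n = C * ‖w‖ ^ (M * n) / ‖μ‖ ^ (n + 1) := by
      rw [hr, div_pow, ← pow_mul, pow_succ]
      field_simp
    rw [h2]
    exact div_le_div_of_nonneg_right (he n) (pow_nonneg hμp.le _)
  obtain ⟨c, hc⟩ := cauchySeq_tendsto_of_complete (cauchySeq_of_le_geometric r _ hr1 hstep)
  refine ⟨c, C / ‖μ‖ / (1 - r), fun n => ?_⟩
  have h3 := dist_le_of_le_geometric_of_tendsto r _ hr1 hstep hc n
  have h4 : a n - c * μ ^ n = (u n - c) * μ ^ n := by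
    simp only [hu]
    field_simp
  rw [h4, norm_mul, norm_pow, ← dist_eq_norm]
  have h5 : C / ‖μ‖ / (1 - r) * ‖w‖ ^ (M * n) = C / ‖μ‖ * r ^ n / (1 - r) * ‖μ‖ ^ n := by
    rw [hr, div_pow, ← pow_mul]
    field_simp
  rw [h5]
  exact mul_le_mul_of_nonneg_right h3 (pow_nonneg hμp.le _)

end aux

/-- Solutions of `a (n + 1) = μ * a n + b n` have expansions to order `M` when `b` does. Solve block
by block: with `b = ∑ w^(j n) g_j + O(w^(M n))` find `f_j` analytic with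
`w^(j (n+1)) f_j (n+1) = μ w^(j n) f_j n + w^(j n) g_j n` by `Adic.solve` (if `μ = 0`, or `μ = w^m ν`
with `m ≠ j`; divide by `w^j` respectively `w^m`) or `Adic.solve_one` (`m = j`). The rest `a'`
satisfies `a' (n+1) = μ a' n + ε n`, `‖ε n‖ ≤ C ‖w‖^(M n)`: it is `O(‖w‖^(M n))` if
`‖μ‖ ≤ ‖w‖^M`, and otherwise `a' n = c μ^n + O(‖w‖^(M n))`, `c = a' 0 + ∑' i, μ^(-i-1) ε i`. -/
theorem HasExp.rec_scalar (hρ : 0 < ρ) (hρ1 : ρ < 1) (hw0 : w ≠ 0) (hw : ‖w‖ < 1) (M : ℕ)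
    {a b : ℕ → K} {μ : K} (hμ : GoodEig ρ w μ) (hb : HasExp ρ w M b)
    (hrec : ∀ n, a (n + 1) = μ * a n + b n) : HasExp ρ w M a := by
  obtain ⟨g, hg, C, hC⟩ := hb
  choose f hf hfrec using fun j => solve_coeff hρ hρ1 hw0 hw hμ j (hg j)
  set s : ℕ → K := fun n => ∑ j ∈ Finset.range M, w ^ (j * n) * f j n with hs
  set e : ℕ → K := fun n => b n - ∑ j ∈ Finset.range M, w ^ (j * n) * g j n with he
  have hsrec : ∀ n, s (n + 1) = μ * s n + ∑ j ∈ Finset.range M, w ^ (j * n) * g j n := by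
    intro n
    simp only [hs]
    rw [Finset.mul_sum, ← Finset.sum_add_distrib]
    refine Finset.sum_congr rfl (fun j _ => ?_)
    have h1 : w ^ (j * (n + 1)) = w ^ (j * n) * w ^ j := by rw [Nat.mul_succ, pow_add]
    rw [h1, mul_assoc, hfrec j n]
    ring
  have harec : ∀ n, (a (n + 1) - s (n + 1)) = μ * (a n - s n) + e n := by
    intro n
    rw [hrec n, hsrec n]
    simp only [he]
    ring
  have hsE : HasExp ρ w M s := hasExp_of_coeffs f hf (fun n => rfl)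
  by_cases hsm : ‖μ‖ ≤ ‖w‖ ^ M
  · obtain ⟨D, hD⟩ := small_case hw0 M (a := fun n => a n - s n) hsm hC harec
    have h2 : HasExp ρ w M (fun n => a n - s n) := HasExp.of_bound hρ.le hD
    have h3 := HasExp.add hρ.le hsE h2
    have h4 : (fun n => s n + (a n - s n)) = a := by
      funext n
      ring
    rwa [h4] at h3
  · rw [not_le] at hsm
    obtain ⟨c, D, hD⟩ := large_case M (a := fun n => a n - s n) hsm hC harec
    have hμ0 : μ ≠ 0 := by
      rintro rfl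
      rw [norm_zero] at hsm
      exact absurd hsm (not_lt.mpr (pow_nonneg (norm_nonneg _) M))
    rcases hμ with rfl | ⟨m, ν, hν, rfl⟩
    · exact absurd rfl hμ0
    have hν1 : ‖ν‖ = 1 := norm_eq_one_of_sub hρ1 hν
    have hmM : m < M := by
      rw [norm_mul, hν1, mul_one, norm_pow] at hsm
      by_contra hcon
      rw [not_lt] at hcon
      exact absurd hsm (not_lt.mpr (pow_le_pow_of_le_one (norm_nonneg _) hw.le hcon))
    have h2 : HasExp ρ w M (fun n => (a n - s n) - c * (w ^ m * ν) ^ n) :=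
      HasExp.of_bound hρ.le hD
    have h5 : HasExp ρ w M (fun n => c * (w ^ m * ν) ^ n) := by
      refine hasExp_of_coeffs (fun j n => if j = m then c * ν ^ n else 0) (fun j => ?_)
        (fun n => ?_)
      · by_cases hj : j = m
        · simp only [hj, if_true]
          exact Adic.const_mul hρ.le c (Adic.pow hρ.le hρ1.le hν)
        · simp only [hj, if_false]
          exact Adic.const hρ.le 0
      · rw [Finset.sum_eq_single m]
        · rw [if_pos rfl, mul_pow, ← pow_mul]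
          ring
        · intro j _ hj
          rw [if_neg hj, mul_zero]
        · intro hm
          exact absurd (Finset.mem_range.mpr hmM) hm
    have h3 := HasExp.add hρ.le (HasExp.add hρ.le hsE h5) h2
    have h4 : (fun n => s n + c * (w ^ m * ν) ^ n + ((a n - s n) - c * (w ^ m * ν) ^ n)) = a := by
      funext n
      ring
    rwa [h4] at h3

end Pool.Agent.Helper33.SS
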