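import Pool.Agent.Helper33.SS.Rec

/-!
# Linear recurrences for vectors (SS-6)
-/

set_option autoImplicit false

namespace Pool.Agent.Helper33.SS

open Matrix

variable {K : Type*} [NormedField K] [IsUltrametricDist K] [CompleteSpace K] [IsAlgClosed K]
  {ρ : ℝ} {w : K}

/-- One step: remove the factors of a multiset of eigenvalues. -/
theorem HasExp.rec_peel (hρ : 0 < ρ) (hρ1 : ρ < 1) (hw0 : w ≠ 0) (hw : ‖w‖ < 1) (M : ℕ)
    {ι : Type*} [Fintype ι] [DecidableEq ι] (A : Matrix ι ι K) (x b : ℕ → ι → K)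
    (hb : ∀ i, HasExp ρ w M (fun n => b n i)) (hrec : ∀ n, x (n + 1) = A *ᵥ x n + b n)
    (s : Multiset K) :
    (∀ μ ∈ s, GoodEig ρ w μ) → ∀ P : Polynomial K,
    (∀ i, HasExp ρ w M (fun n =>
      ((Polynomial.aeval A ((s.map fun μ => Polynomial.X - Polynomial.C μ).prod * P)) *ᵥ x n) i)) →
    ∀ i, HasExp ρ w M (fun n => ((Polynomial.aeval A P) *ᵥ x n) i) := by
  induction s using Multiset.induction_on with
  | empty =>
    intro _ P h i
    simpa using h i
  | cons μ s ih =>
    intro hs P h
    apply ih (fun ν hν => hs ν (Multiset.mem_cons_of_mem hν)) P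
    intro i
    set Q : Polynomial K := (s.map fun μ => Polynomial.X - Polynomial.C μ).prod * P with hQ
    have hbQ : HasExp ρ w M (fun n => ((Polynomial.aeval A Q) *ᵥ b n) i) := by
      have : (fun n => ((Polynomial.aeval A Q) *ᵥ b n) i) =
          fun n => ∑ j ∈ Finset.univ, (Polynomial.aeval A Q) i j * b n j := by
        funext n
        simp [Matrix.mulVec, dotProduct]
      rw [this]
      exact HasExp.sum hρ.le Finset.univ (fun j _ => HasExp.const_mul hρ.le _ (hb j))
    refine HasExp.rec_scalar hρ hρ1 hw0 hw M (hs μ (Multiset.mem_cons_self μ s))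
      (HasExp.add hρ.le (h i) hbQ) ?_
    intro n
    have e1 : (Multiset.map (fun μ => Polynomial.X - Polynomial.C μ) (μ ::ₘ s)).prod * P =
        Q * Polynomial.X - μ • Q := by
      rw [Multiset.map_cons, Multiset.prod_cons, Polynomial.smul_eq_C_mul, hQ]
      ring
    have e2 : Polynomial.aeval A (Q * Polynomial.X - μ • Q) =
        Polynomial.aeval A Q * A - μ • Polynomial.aeval A Q := by
      rw [map_sub, map_mul, map_smul, Polynomial.aeval_X]
    rw [e1, hrec n, e2, Matrix.mulVec_add, Matrix.sub_mulVec, Matrix.smul_mulVec,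
      ← Matrix.mulVec_mulVec]
    simp only [Pi.add_apply, Pi.sub_apply, Pi.smul_apply, smul_eq_mul]
    ring

/-- Peel off the eigenvalues: for polynomials `P` and eigenvalues `μ`, the sequence
`(aeval A P) x_n` satisfies a scalar recurrence with eigenvalue `μ` and inhomogeneity
`(aeval A ((X - C μ) * P)) x_n + (aeval A P) b_n`; induct over the roots of the characteristic
polynomial, starting from `aeval A A.charpoly = 0`. -/
theorem HasExp.rec_vec (hρ : 0 < ρ) (hρ1 : ρ < 1) (hw0 : w ≠ 0) (hw : ‖w‖ < 1) (M : ℕ)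
    {ι : Type*} [Fintype ι] [DecidableEq ι] (A : Matrix ι ι K)
    (hA : ∀ μ, A.charpoly.IsRoot μ → GoodEig ρ w μ) (x b : ℕ → ι → K)
    (hb : ∀ i, HasExp ρ w M (fun n => b n i)) (hrec : ∀ n, x (n + 1) = A *ᵥ x n + b n) (i : ι) :
    HasExp ρ w M (fun n => x n i) := by
  have hprod : (A.charpoly.roots.map fun μ => Polynomial.X - Polynomial.C μ).prod = A.charpoly := by
    have h := (IsAlgClosed.splits A.charpoly).eq_prod_roots_of_monic A.charpoly_monic
    exact h.symm
  have h := HasExp.rec_peel hρ hρ1 hw0 hw M A x b hb hrec A.charpoly.roots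
    (fun μ hμ => hA μ (Polynomial.isRoot_of_mem_roots hμ)) 1 (by
      intro j
      rw [hprod, mul_one, Matrix.aeval_self_charpoly]
      refine HasExp.of_bound hρ.le (C := 0) ?_
      intro n
      simp) i
  simpa using h

end Pool.Agent.Helper33.SS
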